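import Pool.Agent.H42.Q4.KL4
import Pool.Agent.H42.Heat

/-!
Sums of squares of quadratic polynomials and the heat evolution.
-/

namespace Pool.Agent.H42.Q4

open MvPolynomial Pool.Agent.H42.Heat

/-- the polynomial of degree at most two with given coefficients -/
noncomputable def qpoly (c : Fin 10 → ℝ) : MvPolynomial (Fin 3) ℝ :=
  C (c 0) + C (c 1) * X 0 + C (c 2) * X 1 + C (c 3) * X 2 + C (c 4) * X 0 ^ 2 + C (c 5) * X 1 ^ 2 +
    C (c 6) * X 2 ^ 2 + C (c 7) * (X 0 * X 1) + C (c 8) * (X 0 * X 2) + C (c 9) * (X 1 * X 2)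

lemma eval_qpoly (c : Fin 10 → ℝ) (v : V) : eval v (qpoly c) =
    c 0 + c 1 * v 0 + c 2 * v 1 + c 3 * v 2 + c 4 * v 0 ^ 2 + c 5 * v 1 ^ 2 + c 6 * v 2 ^ 2 +
      c 7 * (v 0 * v 1) + c 8 * (v 0 * v 2) + c 9 * (v 1 * v 2) := by
  simp [qpoly]

lemma C_two : (C (2 : ℝ) : MvPolynomial (Fin 3) ℝ) = 2 := map_ofNat C 2

lemma C_four : (C (4 : ℝ) : MvPolynomial (Fin 3) ℝ) = 4 := map_ofNat C 4

lemma pd0 (c : Fin 10 → ℝ) : pderiv 0 (qpoly c) = C (c 1) + C (2 * c 4) * X 0 + C (c 7) * X 1 +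
    C (c 8) * X 2 := by
  simp [qpoly, C_two]
  ring

lemma pd1 (c : Fin 10 → ℝ) : pderiv 1 (qpoly c) = C (c 2) + C (2 * c 5) * X 1 + C (c 7) * X 0 +
    C (c 9) * X 2 := by
  simp [qpoly, C_two]
  ring

lemma pd2 (c : Fin 10 → ℝ) : pderiv 2 (qpoly c) = C (c 3) + C (2 * c 6) * X 2 + C (c 8) * X 0 +
    C (c 9) * X 1 := by
  simp [qpoly, C_two]
  ring

lemma lap_qpoly (c : Fin 10 → ℝ) : laplacian (qpoly c) = C (2 * c 4 + 2 * c 5 + 2 * c 6) := by
  unfold laplacian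
  rw [Fin.sum_univ_three, pd0, pd1, pd2]
  simp [pderiv_X]

lemma lap_C (a : ℝ) : laplacian (C a) = 0 := by
  simp [laplacian]

lemma heat4_qpoly (t : ℝ) (c : Fin 10 → ℝ) :
    heat4 t (qpoly c) = qpoly c + C (t * (2 * c 4 + 2 * c 5 + 2 * c 6)) := by
  rw [heat4, lap_qpoly, lap_C]
  simp

lemma lap_sq (g : MvPolynomial (Fin 3) ℝ) : laplacian (g ^ 2) =
    2 * (g * laplacian g) + 2 * ((pderiv 0 g) ^ 2 + (pderiv 1 g) ^ 2 + (pderiv 2 g) ^ 2) := by
  unfold laplacian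
  rw [Fin.sum_univ_three, Fin.sum_univ_three]
  simp only [sq, pderiv_mul, map_add]
  ring

lemma lap_sq_qpoly (c : Fin 10 → ℝ) : laplacian (qpoly c ^ 2) =
    C (2 * (2 * c 4 + 2 * c 5 + 2 * c 6)) * qpoly c + 2 * ((pderiv 0 (qpoly c)) ^ 2 +
      (pderiv 1 (qpoly c)) ^ 2 + (pderiv 2 (qpoly c)) ^ 2) := by
  rw [lap_sq, lap_qpoly, map_mul C 2 _, C_two]
  ring

/-- the second derivatives contribution -/
def hs (c : Fin 10 → ℝ) : ℝ :=
  4 * c 4 ^ 2 + 4 * c 5 ^ 2 + 4 * c 6 ^ 2 + 2 * c 7 ^ 2 + 2 * c 8 ^ 2 + 2 * c 9 ^ 2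

lemma lap_two_mul (f : MvPolynomial (Fin 3) ℝ) : laplacian (2 * f) = 2 * laplacian f := by
  rw [← C_two, laplacian_C_mul]

lemma lap_lap_sq (c : Fin 10 → ℝ) : laplacian (laplacian (qpoly c ^ 2)) =
    C (2 * (2 * c 4 + 2 * c 5 + 2 * c 6) ^ 2 + 4 * hs c) := by
  rw [lap_sq_qpoly, laplacian_add, laplacian_C_mul, lap_qpoly, lap_two_mul, laplacian_add,
    laplacian_add, lap_sq, lap_sq, lap_sq, pd0, pd1, pd2]
  simp only [laplacian, Fin.sum_univ_three, map_add, pderiv_C, pderiv_mul, hs, map_mul, map_pow]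
  simp [pderiv_X, C_two, C_four]
  ring

lemma heat4_sq (t : ℝ) (c : Fin 10 → ℝ) : heat4 t (qpoly c ^ 2) =
    (qpoly c + C (t * (2 * c 4 + 2 * c 5 + 2 * c 6))) ^ 2 + C (2 * t) * ((pderiv 0 (qpoly c)) ^ 2 +
      (pderiv 1 (qpoly c)) ^ 2 + (pderiv 2 (qpoly c)) ^ 2) + C (2 * t ^ 2 * hs c) := by
  rw [heat4, lap_lap_sq, lap_sq_qpoly]
  have h1 : (C (t ^ 2 / 2) * C (2 * (2 * c 4 + 2 * c 5 + 2 * c 6) ^ 2 + 4 * hs c) :
      MvPolynomial (Fin 3) ℝ) = C ((t * (2 * c 4 + 2 * c 5 + 2 * c 6)) ^ 2) +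
      C (2 * t ^ 2 * hs c) := by
    rw [← map_mul, ← map_add]
    congr 1
    ring
  rw [h1, map_pow, map_mul C 2 t, C_two, map_mul C 2 _, C_two, map_mul C t _]
  ring

lemma hs_nonneg (c : Fin 10 → ℝ) : 0 ≤ hs c := by unfold hs; positivity

lemma isSumSq_C {a : ℝ} (ha : 0 ≤ a) : IsSumSq (C a : MvPolynomial (Fin 3) ℝ) := by
  have h : (C a : MvPolynomial (Fin 3) ℝ) = C (Real.sqrt a) * C (Real.sqrt a) := by
    rw [← map_mul, Real.mul_self_sqrt ha]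
  rw [h]
  exact IsSumSq.mul_self _

lemma isSumSq_sq (g : MvPolynomial (Fin 3) ℝ) : IsSumSq (g ^ 2) := by
  rw [sq]; exact IsSumSq.mul_self _

lemma isSumSq_heat4_sq {t : ℝ} (ht : 0 ≤ t) (c : Fin 10 → ℝ) : IsSumSq (heat4 t (qpoly c ^ 2)) := by
  rw [heat4_sq]
  refine ((isSumSq_sq _).add ((isSumSq_C (by positivity)).mul
    (((isSumSq_sq _).add (isSumSq_sq _)).add (isSumSq_sq _)))).add (isSumSq_C ?_)
  have := hs_nonneg c
  positivity

/-- sums of squares of polynomials of degree at most two -/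
noncomputable def Q2 : AddSubmonoid (MvPolynomial (Fin 3) ℝ) :=
  AddSubmonoid.closure (Set.range fun c => qpoly c ^ 2)

lemma isSumSq_heat4_of_Q2 {t : ℝ} (ht : 0 ≤ t) {p : MvPolynomial (Fin 3) ℝ} (hp : p ∈ Q2) :
    IsSumSq (heat4 t p) := by
  induction hp using AddSubmonoid.closure_induction with
  | mem x hx =>
    obtain ⟨c, rfl⟩ := hx
    exact isSumSq_heat4_sq ht c
  | zero => rw [heat4_zero]; exact IsSumSq.zero
  | add x y _ _ hx hy => rw [heat4_add]; exact hx.add hy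

lemma isSumSq_of_Q2 {p : MvPolynomial (Fin 3) ℝ} (hp : p ∈ Q2) : IsSumSq p := by
  induction hp using AddSubmonoid.closure_induction with
  | mem x hx =>
    obtain ⟨c, rfl⟩ := hx
    exact isSumSq_sq _
  | zero => exact IsSumSq.zero
  | add x y _ _ hx hy => exact hx.add hy

/-- quadratic polynomial functions -/
def IsQuad (φ : V → ℝ) : Prop :=
  ∃ (p2 p1 : V → ℝ) (p0 : ℝ), IsForm 2 p2 ∧ IsForm 1 p1 ∧ ∀ v, φ v = p2 v + p1 v + p0

lemma IsQuad.exists_qpoly {φ : V → ℝ} (h : IsQuad φ) : ∃ c, ∀ v, φ v = eval v (qpoly c) := by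
  obtain ⟨p2, p1, p0, h2, h1, h⟩ := h
  obtain ⟨a, b, c, d, e, f, h2⟩ := h2.nf2
  obtain ⟨a', b', c', h1⟩ := h1.nf1
  refine ⟨![p0, a', b', c', a, b, c, d, e, f], fun v => ?_⟩
  rw [eval_qpoly, h, h2, h1]
  simp
  ring

lemma IsQuad.of_form2 {φ : V → ℝ} (h : IsForm 2 φ) : IsQuad φ :=
  ⟨φ, fun _ => 0, 0, h, IsForm.zero 1, fun v => by ring⟩

lemma IsQuad.of_form1 {φ : V → ℝ} (h : IsForm 1 φ) : IsQuad φ :=
  ⟨fun _ => 0, φ, 0, IsForm.zero 2, h, fun v => by ring⟩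

lemma IsQuad.const (a : ℝ) : IsQuad (fun _ => a) :=
  ⟨fun _ => 0, fun _ => 0, a, IsForm.zero 2, IsForm.zero 1, fun v => by ring⟩

lemma IsQuad.congr {φ ψ : V → ℝ} (h : IsQuad φ) (he : ∀ v, ψ v = φ v) : IsQuad ψ := by
  have : ψ = φ := funext he
  rw [this]; exact h

lemma IsQuad.add {φ ψ : V → ℝ} (h : IsQuad φ) (h' : IsQuad ψ) : IsQuad (fun v => φ v + ψ v) := by
  obtain ⟨p2, p1, p0, h2, h1, h⟩ := h
  obtain ⟨q2, q1, q0, h2', h1', h'⟩ := h'
  exact ⟨_, _, p0 + q0, h2.add h2', h1.add h1', fun v => by simp only [h, h']; ring⟩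

lemma IsQuad.smul {φ : V → ℝ} (a : ℝ) (h : IsQuad φ) : IsQuad (fun v => a * φ v) := by
  obtain ⟨p2, p1, p0, h2, h1, h⟩ := h
  exact ⟨_, _, a * p0, h2.smul a, h1.smul a, fun v => by simp only [h]; ring⟩

lemma IsQuad.sum {ι : Type*} (s : Finset ι) {φ : ι → V → ℝ} (h : ∀ i ∈ s, IsQuad (φ i)) :
    IsQuad (fun v => ∑ i ∈ s, φ i v) := by
  classical
  induction s using Finset.induction_on with
  | empty => simpa using IsQuad.const 0
  | insert a s ha ih =>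
    have h1 := (h a (Finset.mem_insert_self a s)).add
      (ih fun i hi => h i (Finset.mem_insert_of_mem hi))
    exact h1.congr fun v => by rw [Finset.sum_insert ha]

lemma IsQuad.comp {φ : V → ℝ} (h : IsQuad φ) (e : V →ₗ[ℝ] V) : IsQuad (fun v => φ (e v)) := by
  obtain ⟨p2, p1, p0, h2, h1, h⟩ := h
  exact ⟨_, _, p0, h2.comp e, h1.comp e, fun v => h _⟩

/-- functions given by elements of `Q2` -/
def SQf (φ : V → ℝ) : Prop := ∃ p ∈ Q2, ∀ v, φ v = eval v p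

lemma SQf.congr {φ ψ : V → ℝ} (h : SQf φ) (he : ∀ v, ψ v = φ v) : SQf ψ := by
  have : ψ = φ := funext he
  rw [this]; exact h

lemma SQf.of_sq {φ : V → ℝ} (h : IsQuad φ) : SQf (fun v => φ v ^ 2) := by
  obtain ⟨c, hc⟩ := h.exists_qpoly
  exact ⟨qpoly c ^ 2, AddSubmonoid.subset_closure ⟨c, rfl⟩, fun v => by simp only [hc, map_pow]⟩

lemma SQf.zero : SQf (fun _ => 0) := ⟨0, Q2.zero_mem, fun v => by simp⟩

lemma SQf.add {φ ψ : V → ℝ} (h : SQf φ) (h' : SQf ψ) : SQf (fun v => φ v + ψ v) := by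
  obtain ⟨p, hp, h⟩ := h
  obtain ⟨q, hq, h'⟩ := h'
  exact ⟨p + q, Q2.add_mem hp hq, fun v => by simp only [h, h', map_add]⟩

lemma SQf.sum {ι : Type*} (s : Finset ι) {φ : ι → V → ℝ} (h : ∀ i ∈ s, SQf (φ i)) :
    SQf (fun v => ∑ i ∈ s, φ i v) := by
  classical
  induction s using Finset.induction_on with
  | empty => simpa using SQf.zero
  | insert a s ha ih =>
    have h1 := (h a (Finset.mem_insert_self a s)).add
      (ih fun i hi => h i (Finset.mem_insert_of_mem hi))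
    exact h1.congr fun v => by rw [Finset.sum_insert ha]

lemma SQf.mem {φ : V → ℝ} (h : SQf φ) {p : MvPolynomial (Fin 3) ℝ} (hp : ∀ v, eval v p = φ v) :
    p ∈ Q2 := by
  obtain ⟨q, hq, h⟩ := h
  have : p = q := MvPolynomial.funext fun v => by rw [hp, h]
  rw [this]; exact hq

/-- nonnegative quadratic polynomials are sums of squares -/
lemma SQf.of_nonneg {φ : V → ℝ} (h : IsQuad φ) (hpos : ∀ v, 0 ≤ φ v) : SQf φ := by
  obtain ⟨c, hc⟩ := h.exists_qpoly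
  set M : Fin 4 → Fin 4 → ℝ := ![![c 0, c 1 / 2, c 2 / 2, c 3 / 2], ![c 1 / 2, c 4, c 7 / 2, c 8 / 2],
    ![c 2 / 2, c 7 / 2, c 5, c 9 / 2], ![c 3 / 2, c 8 / 2, c 9 / 2, c 6]] with hM
  have hval : ∀ s x y z : ℝ, qv M ![s, x, y, z] = c 0 * s ^ 2 + s * (c 1 * x + c 2 * y + c 3 * z) +
      (c 4 * x ^ 2 + c 5 * y ^ 2 + c 6 * z ^ 2 + c 7 * (x * y) + c 8 * (x * z) + c 9 * (y * z)) := by
    intro s x y z
    simp [qv, hM, Fin.sum_univ_four]
    ring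
  have hv1 : ∀ x y z : ℝ, qv M ![1, x, y, z] = φ ![x, y, z] := by
    intro x y z
    rw [hval, hc, eval_qpoly]
    simp
    ring
  have hscale : ∀ s x y z : ℝ, s ≠ 0 → 0 ≤ qv M ![s, x, y, z] := by
    intro s x y z hs
    have h1 : qv M ![s, x, y, z] = s ^ 2 * qv M ![1, x / s, y / s, z / s] := by
      rw [hval, hval]
      field_simp
    rw [h1, hv1]
    exact mul_nonneg (sq_nonneg _) (hpos _)
  have hpsd : ∀ y : Fin 4 → ℝ, 0 ≤ qv M y := by
    intro y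
    have hy : y = ![y 0, y 1, y 2, y 3] := by ext i; fin_cases i <;> rfl
    rw [hy]
    by_cases h0 : y 0 = 0
    · rw [h0]
      exact nonneg_of_ne (fun ε => qv M ![ε, y 1, y 2, y 3]) (by simp only [hval]; fun_prop)
        (fun ε hε => hscale ε _ _ _ hε)
    · exact hscale _ _ _ _ h0
  obtain ⟨B, hB⟩ := psd_factor M (by
    intro i j; fin_cases i <;> fin_cases j <;> rfl) hpsd
  have hfin : SQf (fun v : V => ∑ k, (B k 0 + (B k 1 * v 0 + B k 2 * v 1 + B k 3 * v 2)) ^ 2) := by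
    apply SQf.sum
    intro k _
    apply SQf.of_sq
    exact (IsQuad.const (B k 0)).add (IsQuad.of_form1 (isForm1_mk _ _ _))
  refine hfin.congr fun v => ?_
  conv_lhs => rw [vec_eta v]
  rw [← hv1, hB]
  refine Finset.sum_congr rfl fun k _ => ?_
  rw [Fin.sum_univ_four]
  simp
  ring

/-- evaluation of homogeneous polynomials -/
lemma isForm_eval {n : ℕ} {p : MvPolynomial (Fin 3) ℝ} (hp : p.IsHomogeneous n) :
    IsForm n (fun v => eval v p) := by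
  have h1 : ∀ v : V, eval v p = ∑ d ∈ p.support, coeff d p * ∏ i, v i ^ d i := by
    intro v
    rw [eval_eq']
  refine IsForm.congr (IsForm.sum p.support (φ := fun d v => coeff d p * ∏ i, v i ^ d i) ?_) h1
  intro d hd
  have hdeg : d.degree = n := by
    by_contra hne
    exact (mem_support_iff.1 hd) (hp.coeff_eq_zero hne)
  have h2 : d 0 + d 1 + d 2 = n := by
    rw [← hdeg, Finsupp.degree_eq_sum, Fin.sum_univ_three]
  have h3 := (isForm_mono (d 0) (d 1) (d 2)).smul (coeff d p)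
  rw [h2] at h3
  exact h3.congr fun v => by rw [Fin.prod_univ_three]

end Pool.Agent.H42.Q4
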