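import Pool.Agent.H42.Q4.Asm1

/-!
The nondegenerate case.
-/

namespace Pool.Agent.H42.Q4

open MvPolynomial Pool.Agent.H42.Heat

lemma quartic_lead {a b c d e : ℝ} (h : ∀ s : ℝ, 0 ≤ a * s ^ 4 + b * s ^ 3 + c * s ^ 2 + d * s + e) :
    0 ≤ a := by
  have h1 := nonneg_of_ne (fun ε => a + b * ε + c * ε ^ 2 + d * ε ^ 3 + e * ε ^ 4) (by fun_prop)
    (fun ε hε => by
      have h2 := mul_nonneg (h (1 / ε)) (by positivity : (0 : ℝ) ≤ ε ^ 4)
      have h3 : (a * (1 / ε) ^ 4 + b * (1 / ε) ^ 3 + c * (1 / ε) ^ 2 + d * (1 / ε) + e) * ε ^ 4 =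
        a + b * ε + c * ε ^ 2 + d * ε ^ 3 + e * ε ^ 4 := by
        field_simp
      rw [h3] at h2
      exact h2)
  simpa using h1

lemma quartic_sq {a b c d e M : ℝ}
    (h : ∀ s : ℝ, 0 ≤ a * s ^ 4 + b * s ^ 3 + c * s ^ 2 + d * s + e)
    (ha : a ≤ M) (hc : c ≤ M) (hd : |d| ≤ M) (he : e ≤ M) : b ^ 2 ≤ 12 * M * a := by
  have ha0 := quartic_lead h
  have hM : 0 ≤ M := (abs_nonneg d).trans hd
  rcases ha0.eq_or_lt with h0 | h0
  · subst h0
    have hb : b = 0 := cubic_nonneg (p := b) (q := c) (r := d) (s := e) fun x => by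
      have := h x
      linarith
    rw [hb]; simp
  · obtain ⟨s, hs⟩ : ∃ s : ℝ, b = -2 * a * s := ⟨-b / (2 * a), by field_simp⟩
    have h1 := h s
    have h2 : a * s ^ 4 + b * s ^ 3 = -a * s ^ 4 := by rw [hs]; ring
    have h3 : c * s ^ 2 ≤ M * s ^ 2 := mul_le_mul_of_nonneg_right hc (sq_nonneg s)
    have h4 : d * s ≤ M * |s| := by
      calc d * s ≤ |d * s| := le_abs_self _
        _ = |d| * |s| := abs_mul d s
        _ ≤ M * |s| := mul_le_mul_of_nonneg_right hd (abs_nonneg s)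
    have h5 : a * s ^ 4 ≤ M * s ^ 2 + M * |s| + M := by linarith
    rw [hs]
    have h6 : (-2 * a * s) ^ 2 = 4 * a * (a * s ^ 2) := by ring
    rw [h6]
    have h7 : a * s ^ 2 ≤ 3 * M := by
      by_cases hs1 : 1 ≤ |s|
      · have hs2 : |s| ≤ s ^ 2 := by
          rw [← sq_abs]
          nlinarith
        have hs3 : 1 ≤ s ^ 2 := by linarith
        have h8 : a * s ^ 4 ≤ 3 * M * s ^ 2 := by
          have k1 : M * |s| ≤ M * s ^ 2 := mul_le_mul_of_nonneg_left hs2 hM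
          have k2 : M ≤ M * s ^ 2 := le_mul_of_one_le_right hM hs3
          linarith
        have h9 : (a * s ^ 2) * s ^ 2 ≤ (3 * M) * s ^ 2 := by
          calc (a * s ^ 2) * s ^ 2 = a * s ^ 4 := by ring
            _ ≤ _ := h8
        exact le_of_mul_le_mul_right h9 (by linarith)
      · push Not at hs1
        have hs2 : s ^ 2 ≤ 1 := by
          rw [← sq_abs]
          nlinarith [abs_nonneg s]
        have : a * s ^ 2 ≤ a * 1 := mul_le_mul_of_nonneg_left hs2 h0.le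
        linarith
    nlinarith

/-- the data extracted from a nonnegative polynomial of degree at most four -/
lemma dom_of_nonneg {F4 F3 F2 F1 : V → ℝ} {f0 : ℝ} (h4 : IsForm 4 F4) (h3 : IsForm 3 F3)
    (h2 : IsForm 2 F2) (h1 : IsForm 1 F1)
    (hpos : ∀ v, 0 ≤ F4 v + F3 v + F2 v + F1 v + f0) :
    (∀ v, 0 ≤ F4 v) ∧ Dom F4 F3 := by
  have hs : ∀ (v : V) (s : ℝ), 0 ≤ F4 v * s ^ 4 + F3 v * s ^ 3 + F2 v * s ^ 2 + F1 v * s + f0 := by
    intro v s
    have := hpos (s • v)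
    rw [h4.homog, h3.homog, h2.homog, h1.homog] at this
    linarith
  refine ⟨fun v => quartic_lead (hs v), h3, ?_⟩
  obtain ⟨C4, hC4, hb4⟩ := hom_bound 4 (fun v => nsq v ^ 2) F4 (continuous_nsq.pow 2) h4.continuous
    (fun s v => by simp only [nsq_smul]; ring) h4.homog (by
      have := h4.homog 0 0; simp only [smul_zero] at this; rw [this]; simp)
    (fun v hv => by have := nsq_pos hv; positivity) (by positivity)
  obtain ⟨C2, hC2, hb2⟩ := hom_bound 2 nsq F2 continuous_nsq h2.continuous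
    nsq_smul h2.homog (by
      have := h2.homog 0 0; simp only [smul_zero] at this; rw [this]; simp)
    (fun v hv => nsq_pos hv) (nsq_nonneg 0)
  obtain ⟨C1, hC1, hb1⟩ := hom_bound 2 nsq (fun v => F1 v ^ 2) continuous_nsq (h1.continuous.pow 2)
    nsq_smul (fun s v => by simp only [h1.homog s v]; ring) (by
      have := h1.homog 0 0; simp only [smul_zero] at this; rw [this]; simp)
    (fun v hv => nsq_pos hv) (nsq_nonneg 0)
  set M := C4 + C2 + C1 + 1 + |f0| with hM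
  have hf0 := le_abs_self f0
  have hf0' := abs_nonneg f0
  refine ⟨12 * M, by positivity, fun v => ?_⟩
  by_cases hv : v = 0
  · subst hv
    have := h3.homog 0 0
    simp only [smul_zero] at this
    rw [this]
    simp [nsq]
  · have hn := nsq_pos hv
    obtain ⟨r, hr, hrn⟩ : ∃ r : ℝ, 0 < r ∧ nsq v = r ^ 2 :=
      ⟨Real.sqrt (nsq v), Real.sqrt_pos.2 hn, (Real.sq_sqrt hn.le).symm⟩
    set u := r⁻¹ • v with hu
    have hvu : v = r • u := by rw [hu, smul_smul, mul_inv_cancel₀ hr.ne', one_smul]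
    have hnu : nsq u = 1 := by
      rw [hu, nsq_smul, hrn]
      field_simp
    have k4 := hb4 u
    have k2 := hb2 u
    have k1 := hb1 u
    simp only [hnu] at k4 k2 k1
    have k1' : |F1 u| ≤ M := by
      apply abs_le_of_sq_le_sq (by nlinarith) (by positivity)
    have key := quartic_sq (hs u) (M := M) (by linarith) (by linarith) k1' (by linarith)
    rw [hvu, h3.homog, h4.homog, nsq_smul, hnu]
    have e1 : (r ^ 3 * F3 u) ^ 2 = r ^ 6 * F3 u ^ 2 := by ring
    have e2 : 12 * M * (r ^ 2 * 1 * (r ^ 4 * F4 u)) = r ^ 6 * (12 * M * F4 u) := by ring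
    rw [e1, e2]
    exact mul_le_mul_of_nonneg_left key (by positivity)

/-- `½ F4 + F3 + Σ K_i v_i²` is a sum of squares -/
lemma SQf_of_dom {F4 F3 : V → ℝ} (h4 : IsForm 4 F4) (hpos : ∀ v, 0 ≤ F4 v) (hnd : Nondeg F4)
    (hdom : Dom F4 F3) :
    ∃ K : Fin 3 → ℝ, SQf (fun v => 1 / 2 * F4 v + F3 v + ∑ i, K i * v i ^ 2) := by
  obtain ⟨w, hw, hF3⟩ := key h4 hpos hnd F3 hdom
  choose hwf C hC hCb using hw
  refine ⟨fun i => 3 / 2 * (C i + 1), ?_⟩
  have hterm : ∀ i : Fin 3, SQf (fun v => 1 / 6 * F4 v + v i * w i v +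
      3 / 2 * (C i + 1) * v i ^ 2) := by
    intro i
    have hCi : 0 < 6 * (C i + 1) := by have := hC i; positivity
    obtain ⟨s, hs, hs2⟩ : ∃ s : ℝ, 0 < s ∧ s ^ 2 = 6 * (C i + 1) :=
      ⟨Real.sqrt _, Real.sqrt_pos.2 hCi, Real.sq_sqrt hCi.le⟩
    have hw2 : IsForm 4 (fun v => w i v ^ 2) := ((hwf i).mul (hwf i)).congr fun v => by ring
    obtain ⟨q, hq, hqs⟩ := hilbert (F := fun v => (C i + 1) * F4 v - w i v ^ 2)
      ((h4.smul _).sub hw2) (fun v => by
        have := hCb i v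
        have := hpos v
        linarith)
    have h1 : SQf (fun v => ((1 / s) * w i v + (s / 2) * v i) ^ 2) :=
      SQf.of_sq ((IsQuad.of_form2 ((hwf i).smul (1 / s))).add
        (IsQuad.of_form1 ((isForm_coord i).smul (s / 2))))
    have h2 : SQf (fun v => ∑ k, ((1 / s) * q k v) ^ 2) :=
      SQf.sum _ fun k _ => SQf.of_sq (IsQuad.of_form2 ((hq k).smul (1 / s)))
    refine (h1.add h2).congr fun v => ?_
    have h3 : ∑ k, ((1 / s) * q k v) ^ 2 = (1 / s) ^ 2 * ((C i + 1) * F4 v - w i v ^ 2) := by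
      rw [show (C i + 1) * F4 v - w i v ^ 2 = ∑ k, q k v ^ 2 from hqs v, Finset.mul_sum]
      exact Finset.sum_congr rfl fun k _ => by ring
    rw [h3]
    have h4 : C i + 1 = s ^ 2 / 6 := by rw [hs2]; ring
    rw [h4]
    field_simp
    ring
  have hsum := SQf.sum Finset.univ fun i _ => hterm i
  refine hsum.congr fun v => ?_
  rw [hF3, Finset.sum_add_distrib, Finset.sum_add_distrib]
  simp
  ring

lemma quad_lower {φ : V → ℝ} (h : IsQuad φ) : ∃ M : ℝ, 0 ≤ M ∧ ∀ v, -(M * nsq v + M) ≤ φ v := by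
  obtain ⟨p2, p1, p0, h2, h1, h⟩ := h
  obtain ⟨C2, hC2, hb2⟩ := hom_bound 2 nsq (fun v => -p2 v) continuous_nsq h2.continuous.neg
    nsq_smul (fun s v => by simp only [h2.homog s v]; ring) (by
      have := h2.homog 0 0; simp only [smul_zero] at this; rw [this]; simp)
    (fun v hv => nsq_pos hv) (nsq_nonneg 0)
  obtain ⟨C1, hC1, hb1⟩ := hom_bound 2 nsq (fun v => p1 v ^ 2) continuous_nsq (h1.continuous.pow 2)
    nsq_smul (fun s v => by simp only [h1.homog s v]; ring) (by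
      have := h1.homog 0 0; simp only [smul_zero] at this; rw [this]; simp)
    (fun v hv => nsq_pos hv) (nsq_nonneg 0)
  have a1 := neg_abs_le p0
  have a2 := abs_nonneg p0
  refine ⟨C2 + C1 + 1 + |p0|, by positivity, fun v => ?_⟩
  have k2 := hb2 v
  have k1 := hb1 v
  rw [h]
  have hn := nsq_nonneg v
  have h5 : -(C1 * nsq v + 1) ≤ p1 v := by nlinarith [sq_nonneg (p1 v + 1)]
  have h6 : 0 ≤ (1 + |p0|) * nsq v := by positivity
  nlinarith

/-- the gradient part of a homogeneous quadratic polynomial -/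
def gr (c : Fin 10 → ℝ) (v : V) : ℝ :=
  (2 * c 4 * v 0 + c 7 * v 1 + c 8 * v 2) ^ 2 + (2 * c 5 * v 1 + c 7 * v 0 + c 9 * v 2) ^ 2 +
    (2 * c 6 * v 2 + c 8 * v 0 + c 9 * v 1) ^ 2

lemma isForm_gr (c : Fin 10 → ℝ) : IsForm 2 (gr c) := by
  have h1 := isForm1_mk (2 * c 4) (c 7) (c 8)
  have h2 := isForm1_mk (c 7) (2 * c 5) (c 9)
  have h3 := isForm1_mk (c 8) (c 9) (2 * c 6)
  refine (((h1.mul h1).add (h2.mul h2)).add (h3.mul h3)).congr fun v => ?_
  simp only [gr]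
  ring

lemma eval_heat4_sq (t : ℝ) (c : Fin 10 → ℝ) (hc1 : c 1 = 0) (hc2 : c 2 = 0) (hc3 : c 3 = 0)
    (v : V) : eval v (heat4 t (qpoly c ^ 2)) =
    (eval v (qpoly c) + t * (2 * c 4 + 2 * c 5 + 2 * c 6)) ^ 2 + 2 * t * gr c v +
      2 * t ^ 2 * hs c := by
  rw [heat4_sq, pd0, pd1, pd2]
  simp only [map_add, map_mul, map_pow, eval_C, eval_X, hc1, hc2, hc3, gr]
  ring

lemma gr_nonneg (c : Fin 10 → ℝ) (v : V) : 0 ≤ gr c v := by unfold gr; positivity

lemma eval_shift {c : Fin 10 → ℝ} (hc1 : c 1 = 0) (hc2 : c 2 = 0) (hc3 : c 3 = 0) {v : V}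
    (h : gr c v = 0) (w : V) (s : ℝ) : eval (w + s • v) (qpoly c) = eval w (qpoly c) := by
  unfold gr at h
  have n1 := sq_nonneg (2 * c 4 * v 0 + c 7 * v 1 + c 8 * v 2)
  have n2 := sq_nonneg (2 * c 5 * v 1 + c 7 * v 0 + c 9 * v 2)
  have n3 := sq_nonneg (2 * c 6 * v 2 + c 8 * v 0 + c 9 * v 1)
  have a1 : (2 * c 4 * v 0 + c 7 * v 1 + c 8 * v 2) ^ 2 = 0 := by linarith
  have a2 : (2 * c 5 * v 1 + c 7 * v 0 + c 9 * v 2) ^ 2 = 0 := by linarith
  have a3 : (2 * c 6 * v 2 + c 8 * v 0 + c 9 * v 1) ^ 2 = 0 := by linarith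
  have b1 := pow_eq_zero_iff two_ne_zero |>.1 a1
  have b2 := pow_eq_zero_iff two_ne_zero |>.1 a2
  have b3 := pow_eq_zero_iff two_ne_zero |>.1 a3
  rw [eval_qpoly, eval_qpoly, hc1, hc2, hc3]
  simp only [Pi.add_apply, Pi.smul_apply, smul_eq_mul]
  linear_combination (s * w 0 + s ^ 2 / 2 * v 0) * b1 + (s * w 1 + s ^ 2 / 2 * v 1) * b2 +
    (s * w 2 + s ^ 2 / 2 * v 2) * b3

lemma hs_pos_of_gr {c : Fin 10 → ℝ} {v : V} (h : gr c v ≠ 0) : 0 < hs c := by
  rcases (hs_nonneg c).eq_or_lt with h0 | h0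
  · exfalso
    apply h
    unfold hs at h0
    have p4 := sq_nonneg (c 4)
    have p5 := sq_nonneg (c 5)
    have p6 := sq_nonneg (c 6)
    have p7 := sq_nonneg (c 7)
    have p8 := sq_nonneg (c 8)
    have p9 := sq_nonneg (c 9)
    have q4 : c 4 ^ 2 = 0 := by linarith
    have q5 : c 5 ^ 2 = 0 := by linarith
    have q6 : c 6 ^ 2 = 0 := by linarith
    have q7 : c 7 ^ 2 = 0 := by linarith
    have q8 : c 8 ^ 2 = 0 := by linarith
    have q9 : c 9 ^ 2 = 0 := by linarith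
    simp only [gr, pow_eq_zero_iff two_ne_zero |>.1 q4, pow_eq_zero_iff two_ne_zero |>.1 q5,
      pow_eq_zero_iff two_ne_zero |>.1 q6, pow_eq_zero_iff two_ne_zero |>.1 q7,
      pow_eq_zero_iff two_ne_zero |>.1 q8, pow_eq_zero_iff two_ne_zero |>.1 q9]
    ring
  · exact h0

/-- the nondegenerate case -/
theorem nondeg_case {f P4 P3 P2 P1 : MvPolynomial (Fin 3) ℝ} {f0 : ℝ}
    (hf : f = P4 + P3 + P2 + P1 + C f0) (h4 : P4.IsHomogeneous 4) (h3 : P3.IsHomogeneous 3)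
    (h2 : P2.IsHomogeneous 2) (h1 : P1.IsHomogeneous 1) (hpos : ∀ v : V, 0 ≤ eval v f)
    (hnd : Nondeg (fun v => eval v P4)) :
    ∃ T : ℝ, 0 < T ∧ ∀ t, T ≤ t → IsSumSq (heat4 t f) := by
  have g4 := isForm_eval h4
  have g3 := isForm_eval h3
  have g2 := isForm_eval h2
  have g1 := isForm_eval h1
  obtain ⟨hpos4, hdom⟩ := dom_of_nonneg (f0 := f0) g4 g3 g2 g1 (fun v => by
    have := hpos v
    rw [hf] at this
    simpa using this)
  obtain ⟨K, hK⟩ := SQf_of_dom g4 hpos4 hnd hdom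
  -- the polynomial S
  set Kp : MvPolynomial (Fin 3) ℝ := ∑ i, C (K i) * X i ^ 2 with hKp
  set S : MvPolynomial (Fin 3) ℝ := C (1 / 2) * P4 + P3 + Kp with hS
  have hSmem : S ∈ Q2 := hK.mem fun v => by
    simp [hS, hKp]
  -- squares for P4
  obtain ⟨q, hq, hqs⟩ := hilbert g4 hpos4
  have hc : ∀ i, ∃ c : Fin 10 → ℝ, (∀ v, q i v = eval v (qpoly c)) ∧ c 1 = 0 ∧ c 2 = 0 ∧ c 3 = 0 := by
    intro i
    obtain ⟨a, b, c, d, e, f, h⟩ := (hq i).nf2
    refine ⟨![0, 0, 0, 0, a, b, c, d, e, f], fun v => ?_, rfl, rfl, rfl⟩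
    rw [eval_qpoly, h]
    simp
  choose c hqc hc1 hc2 hc3 using hc
  have hP4 : P4 = ∑ i, qpoly (c i) ^ 2 := MvPolynomial.funext fun v => by
    rw [map_sum, hqs v]
    exact Finset.sum_congr rfl fun i _ => by rw [hqc, map_pow]
  -- the remainder
  have hRquad : IsQuad (fun v => eval v (P2 + P1 + C f0 - Kp)) := by
    refine ⟨_, _, f0, g2.sub (isForm2_mk (K 0) (K 1) (K 2) 0 0 0), g1, fun v => ?_⟩
    simp [hKp, Fin.sum_univ_three]
    ring
  obtain ⟨r, hr⟩ := hRquad.exists_qpoly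
  have hRr : P2 + P1 + C f0 - Kp = qpoly r := MvPolynomial.funext fun v => hr v
  obtain ⟨M, hM, hMb⟩ := quad_lower hRquad
  -- decomposition
  have hdec : f = C (1 / 2) * P4 + S + qpoly r := by
    have h12 : (C (1 / 2) * P4 + C (1 / 2) * P4 : MvPolynomial (Fin 3) ℝ) = P4 := by
      rw [← add_mul, ← map_add]; norm_num
    rw [← hRr, hS, hf]
    linear_combination -h12
  have hheat : ∀ t, heat4 t f = ∑ i, C (1 / 2) * (qpoly (c i) +
      C (t * (2 * c i 4 + 2 * c i 5 + 2 * c i 6))) ^ 2 + heat4 t S +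
      (∑ i, C (1 / 2) * (heat4 t (qpoly (c i) ^ 2) - (qpoly (c i) +
      C (t * (2 * c i 4 + 2 * c i 5 + 2 * c i 6))) ^ 2) + heat4 t (qpoly r)) := by
    intro t
    have hs1 : heat4 t P4 = ∑ i, heat4 t (qpoly (c i) ^ 2) := by
      rw [hP4]
      have := map_sum (AddMonoidHom.mk' (heat4 t) (heat4_add t)) (fun i => qpoly (c i) ^ 2)
        Finset.univ
      exact this
    rw [hdec, heat4_add, heat4_add, heat4_C_mul, hs1, Finset.mul_sum]
    have hs2 : ∑ i, C (1 / 2) * (heat4 t (qpoly (c i) ^ 2) - (qpoly (c i) +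
      C (t * (2 * c i 4 + 2 * c i 5 + 2 * c i 6))) ^ 2) =
      ∑ i, C (1 / 2) * heat4 t (qpoly (c i) ^ 2) - ∑ i, C (1 / 2) * (qpoly (c i) +
      C (t * (2 * c i 4 + 2 * c i 5 + 2 * c i 6))) ^ 2 := by
      rw [← Finset.sum_sub_distrib]
      exact Finset.sum_congr rfl fun i _ => by ring
    rw [hs2]
    ring
  -- the quadratic form `A`
  set A : V → ℝ := fun v => ∑ i, gr (c i) v with hA
  have hAform : IsForm 2 A := IsForm.sum _ fun i _ => isForm_gr (c i)
  have hApos : ∀ v, v ≠ 0 → 0 < A v := by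
    intro v hv
    rcases (Finset.sum_nonneg fun i (_ : i ∈ Finset.univ) => gr_nonneg (c i) v).eq_or_lt with h0 | h0
    · exfalso
      have hz : ∀ i, gr (c i) v = 0 := by
        intro i
        have := (Finset.sum_eq_zero_iff_of_nonneg (fun i _ => gr_nonneg (c i) v)).1 h0.symm i
          (Finset.mem_univ i)
        exact this
      obtain ⟨w, s, hws⟩ := hnd v hv
      apply hws
      simp only
      rw [hqs, hqs]
      refine Finset.sum_congr rfl fun i _ => ?_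
      rw [hqc, hqc, eval_shift (hc1 i) (hc2 i) (hc3 i) (hz i)]
    · exact h0
  obtain ⟨CA, hCA, hCAb⟩ := hom_bound 2 A nsq hAform.continuous continuous_nsq hAform.homog nsq_smul
    (by simp [nsq]) hApos (Finset.sum_nonneg fun i _ => gr_nonneg (c i) 0)
  have hB : 0 < ∑ i, hs (c i) := by
    have h1 := hApos ![1, 0, 0] e1_ne
    obtain ⟨i, hi⟩ : ∃ i, gr (c i) ![1, 0, 0] ≠ 0 := by
      by_contra hcon
      push Not at hcon
      rw [hA] at h1
      simp [hcon] at h1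
    exact Finset.sum_pos' (fun i _ => hs_nonneg _) ⟨i, Finset.mem_univ _, hs_pos_of_gr hi⟩
  set B := ∑ i, hs (c i) with hBdef
  set κ := 2 * r 4 + 2 * r 5 + 2 * r 6 with hκ
  refine ⟨max 1 (max (M * CA) ((M + |κ|) / B)), by positivity, fun t ht => ?_⟩
  have ht1 : 1 ≤ t := (le_max_left _ _).trans ht
  have ht2 : M * CA ≤ t := ((le_max_left _ _).trans (le_max_right _ _)).trans ht
  have ht3 : (M + |κ|) / B ≤ t := ((le_max_right _ _).trans (le_max_right _ _)).trans ht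
  have ht0 : 0 ≤ t := by linarith
  rw [hheat t]
  refine ((IsSumSq.sum fun i _ => (isSumSq_C (by norm_num)).mul (isSumSq_sq _)).add
    (isSumSq_heat4_of_Q2 ht0 hSmem)).add (isSumSq_of_Q2 ?_)
  -- the final quadratic polynomial
  have hval : ∀ v : V, eval v (∑ i, C (1 / 2) * (heat4 t (qpoly (c i) ^ 2) - (qpoly (c i) +
      C (t * (2 * c i 4 + 2 * c i 5 + 2 * c i 6))) ^ 2) + heat4 t (qpoly r)) =
      t * A v + t ^ 2 * B + (eval v (qpoly r) + t * κ) := by
    intro v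
    rw [map_add, map_sum, heat4_qpoly, map_add, eval_C, hA, hBdef, Finset.mul_sum, Finset.mul_sum,
      ← Finset.sum_add_distrib]
    congr 1
    refine Finset.sum_congr rfl fun i _ => ?_
    rw [map_mul, map_sub, eval_heat4_sq t (c i) (hc1 i) (hc2 i) (hc3 i), map_pow, map_add, eval_C,
      eval_C]
    ring
  refine SQf.mem (φ := fun v => t * A v + t ^ 2 * B + (eval v (qpoly r) + t * κ)) ?_ hval
  apply SQf.of_nonneg
  · have hq2 : IsQuad (fun v => eval v (qpoly r)) := hRquad.congr fun v => (hr v).symm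
    exact ((IsQuad.of_form2 (hAform.smul t)).add (IsQuad.const (t ^ 2 * B))).add
      (hq2.add (IsQuad.const (t * κ)))
  · intro v
    have k1 := hMb v
    rw [show eval v (P2 + P1 + C f0 - Kp) = eval v (qpoly r) from hr v] at k1
    have k2 := hCAb v
    have hn := nsq_nonneg v
    have hA0 : 0 ≤ A v := Finset.sum_nonneg fun i _ => gr_nonneg (c i) v
    have k3 : M * nsq v ≤ t * A v := by
      calc M * nsq v ≤ M * (CA * A v) := mul_le_mul_of_nonneg_left k2 hM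
        _ = (M * CA) * A v := by ring
        _ ≤ t * A v := mul_le_mul_of_nonneg_right ht2 hA0
    have k4 : M + |κ| ≤ t * B := by
      rwa [div_le_iff₀ hB] at ht3
    have k5 : t * (M + |κ|) ≤ t ^ 2 * B := by
      calc t * (M + |κ|) ≤ t * (t * B) := mul_le_mul_of_nonneg_left k4 ht0
        _ = _ := by ring
    have k6 : -(t * |κ|) ≤ t * κ := by
      have := neg_abs_le κ
      nlinarith
    have k7 : M ≤ t * M := le_mul_of_one_le_left hM ht1
    show 0 ≤ t * A v + t ^ 2 * B + (eval v (qpoly r) + t * κ)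
    nlinarith

end Pool.Agent.H42.Q4
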