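import Pool.Agent.H42.Q4.Asm2

/-!
The degenerate case and the main theorem.
-/

namespace Pool.Agent.H42.Q4

open MvPolynomial Pool.Agent.H42.Heat

lemma isQuad_qpoly (c : Fin 10 → ℝ) : IsQuad (fun v => eval v (qpoly c)) :=
  ⟨_, _, c 0, isForm2_mk (c 4) (c 5) (c 6) (c 7) (c 8) (c 9), isForm1_mk (c 1) (c 2) (c 3),
    fun v => by simp only [eval_qpoly]; ring⟩

lemma SQf.comp {φ : V → ℝ} (h : SQf φ) (e : V →ₗ[ℝ] V) : SQf (fun v => φ (e v)) := by
  obtain ⟨p, hp, h⟩ := h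
  have key : SQf (fun v => eval (e v) p) := by
    clear h
    induction hp using AddSubmonoid.closure_induction with
    | mem x hx =>
      obtain ⟨c, rfl⟩ := hx
      exact (SQf.of_sq ((isQuad_qpoly c).comp e)).congr fun v => by rw [map_pow]
    | zero => exact SQf.zero.congr fun v => by rw [map_zero]
    | add x y _ _ hx hy => exact (hx.add hy).congr fun v => by rw [map_add]
  exact key.congr fun v => h _

lemma isForm_hom {c1 c2 c3 δ ε lam : ℝ} : IsForm 2 (fun v : V => c1 * v 1 ^ 2 + c2 * (v 1 * v 2) +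
    c3 * v 2 ^ 2 + v 0 * (δ * v 1 + ε * v 2) + lam * v 0 ^ 2) :=
  (isForm2_mk lam c1 c3 δ ε c2).congr fun v => by ring

lemma isForm_quart {e1 e2 e3 e4 e5 d1 d2 d3 d4 β γ ζ μ ν f0 : ℝ} :
    IsForm 4 (fun v : V => (e1 * v 1 ^ 4 + e2 * (v 1 ^ 3 * v 2) + e3 * (v 1 ^ 2 * v 2 ^ 2) +
      e4 * (v 1 * v 2 ^ 3) + e5 * v 2 ^ 4) + v 0 * (d1 * v 1 ^ 3 + d2 * (v 1 ^ 2 * v 2) +
      d3 * (v 1 * v 2 ^ 2) + d4 * v 2 ^ 3) + v 0 ^ 2 * (β * v 1 ^ 2 + γ * v 2 ^ 2 +
      ζ * (v 1 * v 2)) + v 0 ^ 3 * (μ * v 1 + ν * v 2) + f0 * v 0 ^ 4) := by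
  have h1 := (isForm_mono 0 4 0).smul e1
  have h2 := (isForm_mono 0 3 1).smul e2
  have h3 := (isForm_mono 0 2 2).smul e3
  have h4 := (isForm_mono 0 1 3).smul e4
  have h5 := (isForm_mono 0 0 4).smul e5
  have k1 := (isForm_mono 1 3 0).smul d1
  have k2 := (isForm_mono 1 2 1).smul d2
  have k3 := (isForm_mono 1 1 2).smul d3
  have k4 := (isForm_mono 1 0 3).smul d4
  have l1 := (isForm_mono 2 2 0).smul β
  have l2 := (isForm_mono 2 0 2).smul γ
  have l3 := (isForm_mono 2 1 1).smul ζ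
  have m1 := (isForm_mono 3 1 0).smul μ
  have m2 := (isForm_mono 3 0 1).smul ν
  have n1 := (isForm_mono 4 0 0).smul f0
  refine (((((((((((((((h1.add h2).add h3).add h4).add h5).add k1).add k2).add k3).add k4).add
    l1).add l2).add l3).add m1).add m2).add n1)).congr fun v => ?_
  ring

theorem deg_case {f P4 P3 P2 P1 : MvPolynomial (Fin 3) ℝ} {f0 : ℝ}
    (hf : f = P4 + P3 + P2 + P1 + C f0) (h4 : P4.IsHomogeneous 4) (h3 : P3.IsHomogeneous 3)
    (h2 : P2.IsHomogeneous 2) (h1 : P1.IsHomogeneous 1) (hpos : ∀ v : V, 0 ≤ eval v f)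
    (hnd : ¬ Nondeg (fun v => eval v P4)) : f ∈ Q2 := by
  unfold Nondeg at hnd
  push Not at hnd
  obtain ⟨u, hu, hinv⟩ := hnd
  obtain ⟨e, he⟩ := exists_equiv1 hu
  have g4 := (isForm_eval h4).comp e.toLinearMap
  have g3 := (isForm_eval h3).comp e.toLinearMap
  have g2 := (isForm_eval h2).comp e.toLinearMap
  have g1 := (isForm_eval h1).comp e.toLinearMap
  obtain ⟨a', b1', b2', c1', c2', c3', d1', d2', d3', d4', e1, e2, e3, e4, e5, hn4⟩ := g4.nf4
  obtain ⟨a, b1, b2, c1, c2, c3, d1, d2, d3, d4, hn3⟩ := g3.nf3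
  obtain ⟨α, β, γ, δ, ε, ζ, hn2⟩ := g2.nf2
  obtain ⟨lam, μ, ν, hn1⟩ := g1.nf1
  have hn4' : ∀ x y z : ℝ, eval (e ![x, y, z]) P4 =
      e1 * y ^ 4 + e2 * (y ^ 3 * z) + e3 * (y ^ 2 * z ^ 2) + e4 * (y * z ^ 3) + e5 * z ^ 4 := by
    intro x y z
    have hx : (![x, y, z] : V) = ![0, y, z] + x • ![1, 0, 0] := by
      ext k; fin_cases k <;> simp
    rw [hx, map_add, map_smul, he]
    have k1 := hinv (e ![0, y, z]) x
    rw [k1]
    have k2 := hn4 ![0, y, z]
    simp at k2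
    exact k2
  have hφ : ∀ x y z : ℝ, eval (e ![x, y, z]) f = (e1 * y ^ 4 + e2 * (y ^ 3 * z) +
      e3 * (y ^ 2 * z ^ 2) + e4 * (y * z ^ 3) + e5 * z ^ 4) + (a * x ^ 3 +
      x ^ 2 * (b1 * y + b2 * z) + x * (c1 * y ^ 2 + c2 * (y * z) + c3 * z ^ 2) +
      (d1 * y ^ 3 + d2 * (y ^ 2 * z) + d3 * (y * z ^ 2) + d4 * z ^ 3)) +
      (α * x ^ 2 + β * y ^ 2 + γ * z ^ 2 + δ * (x * y) + ε * (x * z) + ζ * (y * z)) +
      (lam * x + μ * y + ν * z) + f0 := by
    intro x y z
    have k3 := hn3 ![x, y, z]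
    have k2 := hn2 ![x, y, z]
    have k1 := hn1 ![x, y, z]
    simp at k3 k2 k1
    rw [hf, map_add, map_add, map_add, map_add, hn4', k3, k2, k1, eval_C]
  have ha : a = 0 := cubic_nonneg (p := a) (q := α) (r := lam) (s := f0) fun x => by
    have := hpos (e ![x, 0, 0])
    rw [hφ] at this
    linarith
  subst ha
  have hq : ∀ x y z : ℝ, eval (e ![x, y, z]) f = (b1 * y + b2 * z + α) * x ^ 2 +
      (c1 * y ^ 2 + c2 * (y * z) + c3 * z ^ 2 + δ * y + ε * z + lam) * x +
      ((e1 * y ^ 4 + e2 * (y ^ 3 * z) + e3 * (y ^ 2 * z ^ 2) + e4 * (y * z ^ 3) + e5 * z ^ 4) +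
      (d1 * y ^ 3 + d2 * (y ^ 2 * z) + d3 * (y * z ^ 2) + d4 * z ^ 3) +
      (β * y ^ 2 + γ * z ^ 2 + ζ * (y * z)) + (μ * y + ν * z) + f0) := by
    intro x y z
    rw [hφ]; ring
  have hb1 : b1 = 0 := by
    have h := quad_nonneg (A := 0) (B := b1) (C := α) (fun t => by
      have k := (quad_nonneg (fun x => by
        have := hpos (e ![x, t, 0])
        rw [hq] at this
        exact this)).1
      linarith)
    have h2 : b1 ^ 2 ≤ 0 := by linarith [h.2.2]
    exact pow_eq_zero_iff two_ne_zero |>.1 (le_antisymm h2 (sq_nonneg _))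
  have hb2 : b2 = 0 := by
    have h := quad_nonneg (A := 0) (B := b2) (C := α) (fun t => by
      have k := (quad_nonneg (fun x => by
        have := hpos (e ![x, 0, t])
        rw [hq] at this
        exact this)).1
      linarith)
    have h2 : b2 ^ 2 ≤ 0 := by linarith [h.2.2]
    exact pow_eq_zero_iff two_ne_zero |>.1 (le_antisymm h2 (sq_nonneg _))
  subst hb1 hb2
  -- homogenised data
  set bb : V → ℝ := fun v => c1 * v 1 ^ 2 + c2 * (v 1 * v 2) + c3 * v 2 ^ 2 +
    v 0 * (δ * v 1 + ε * v 2) + lam * v 0 ^ 2 with hbb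
  set gg : V → ℝ := fun v => (e1 * v 1 ^ 4 + e2 * (v 1 ^ 3 * v 2) + e3 * (v 1 ^ 2 * v 2 ^ 2) +
      e4 * (v 1 * v 2 ^ 3) + e5 * v 2 ^ 4) + v 0 * (d1 * v 1 ^ 3 + d2 * (v 1 ^ 2 * v 2) +
      d3 * (v 1 * v 2 ^ 2) + d4 * v 2 ^ 3) + v 0 ^ 2 * (β * v 1 ^ 2 + γ * v 2 ^ 2 +
      ζ * (v 1 * v 2)) + v 0 ^ 3 * (μ * v 1 + ν * v 2) + f0 * v 0 ^ 4 with hgg
  have hbbf : IsForm 2 bb := isForm_hom
  have hggf : IsForm 4 gg := isForm_quart
  have hq' : ∀ x y z : ℝ, eval (e ![x, y, z]) f = α * x ^ 2 + bb ![1, y, z] * x +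
      gg ![1, y, z] := by
    intro x y z
    rw [hq]
    simp only [hbb, hgg, Matrix.cons_val]
    ring
  have hdisc : ∀ y z : ℝ, 0 ≤ α ∧ 0 ≤ gg ![1, y, z] ∧ bb ![1, y, z] ^ 2 ≤ 4 * α * gg ![1, y, z] :=
    fun y z => quad_nonneg fun x => by
      have := hpos (e ![x, y, z])
      rwa [hq'] at this
  have hα := (hdisc 0 0).1
  set G : V → ℝ := fun v => gg v - (1 / (4 * α)) * bb v ^ 2 with hG
  have hGf : IsForm 4 G :=
    hggf.sub (((hbbf.mul hbbf).congr (ψ := fun v => bb v ^ 2) fun v => by ring).smul (1 / (4 * α)))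
  have hG1 : ∀ y z : ℝ, 0 ≤ G ![1, y, z] := by
    intro y z
    obtain ⟨-, k2, k3⟩ := hdisc y z
    simp only [hG]
    rcases hα.eq_or_lt with h0 | h0
    · rw [← h0]
      simpa using k2
    · have : (1 / (4 * α)) * bb ![1, y, z] ^ 2 ≤ (1 / (4 * α)) * (4 * α * gg ![1, y, z]) :=
        mul_le_mul_of_nonneg_left k3 (by positivity)
      have e : (1 / (4 * α)) * (4 * α * gg ![1, y, z]) = gg ![1, y, z] := by field_simp
      rw [e] at this
      linarith
  have hG2 : ∀ x y z : ℝ, x ≠ 0 → 0 ≤ G ![x, y, z] := by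
    intro x y z hx
    have h1 : (![x, y, z] : V) = x • ![1, y / x, z / x] := by
      ext k
      fin_cases k
      · simp
      · simp; field_simp
      · simp; field_simp
    rw [h1, hGf.homog]
    exact mul_nonneg (by positivity) (hG1 _ _)
  have hGpos : ∀ v, 0 ≤ G v := by
    intro v
    rw [vec_eta v]
    by_cases h0 : v 0 = 0
    · rw [h0]
      have hc : Continuous (fun t : ℝ => (![t, v 1, v 2] : V)) := by
        apply continuous_pi
        intro k
        fin_cases k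
        · exact continuous_id
        · exact continuous_const
        · exact continuous_const
      exact nonneg_of_ne (fun t => G ![t, v 1, v 2]) (hGf.continuous.comp hc)
        (fun t ht => hG2 t _ _ ht)
    · exact hG2 _ _ _ h0
  obtain ⟨q, hqf, hqs⟩ := hilbert hGf hGpos
  have hqq : ∀ i, IsQuad (fun v : V => q i ![1, v 1, v 2]) := by
    intro i
    obtain ⟨a, b, c, d, e, f, h⟩ := (hqf i).nf2
    refine ⟨_, _, a, isForm2_mk 0 b c 0 0 f, isForm1_mk 0 d e, fun v => ?_⟩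
    simp only [h, Matrix.cons_val]
    ring
  have hbbq : IsQuad (fun v : V => bb ![1, v 1, v 2]) := by
    refine ⟨_, _, lam, isForm2_mk 0 c1 c3 0 0 c2, isForm1_mk 0 δ ε, fun v => ?_⟩
    simp [hbb]
    ring
  have hfin : SQf (fun v => eval (e v) f) := by
    have hsum : SQf (fun v : V => ∑ i, q i ![1, v 1, v 2] ^ 2) :=
      SQf.sum _ fun i _ => SQf.of_sq (hqq i)
    rcases hα.eq_or_lt with h0 | h0
    · refine hsum.congr fun v => ?_
      conv_lhs => rw [vec_eta v]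
      have hb0 : bb ![1, v 1, v 2] = 0 := by
        have := (hdisc (v 1) (v 2)).2.2
        rw [← h0] at this
        have h5 : bb ![1, v 1, v 2] ^ 2 ≤ 0 := by linarith
        exact pow_eq_zero_iff two_ne_zero |>.1 (le_antisymm h5 (sq_nonneg _))
      rw [hq', ← hqs, ← h0, hb0]
      simp [hG, hb0]
    · obtain ⟨s, hs, hs2⟩ : ∃ s : ℝ, 0 < s ∧ s ^ 2 = α :=
        ⟨Real.sqrt α, Real.sqrt_pos.2 h0, Real.sq_sqrt hα⟩
      have hlin : IsQuad (fun v : V => s * v 0 + (1 / (2 * s)) * bb ![1, v 1, v 2]) :=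
        (IsQuad.of_form1 ((isForm_coord 0).smul s)).add (hbbq.smul _)
      refine ((SQf.of_sq hlin).add hsum).congr fun v => ?_
      conv_lhs => rw [vec_eta v]
      rw [hq', ← hqs]
      simp only [hG]
      rw [← hs2]
      field_simp
      ring
  have hfin2 := hfin.comp e.symm.toLinearMap
  exact hfin2.mem fun v => by simp

/-- **Main theorem.** -/
theorem main {f : MvPolynomial (Fin 3) ℝ} (hdeg : f.totalDegree ≤ 4)
    (hpos : ∀ v : Fin 3 → ℝ, 0 ≤ eval v f) :
    ∃ T : ℝ, 0 < T ∧ ∀ t, T ≤ t → IsSumSq (heat f t) := by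
  have hsum : f = homogeneousComponent 4 f + homogeneousComponent 3 f + homogeneousComponent 2 f +
      homogeneousComponent 1 f + C (coeff 0 f) := by
    have h1 : ∑ i ∈ Finset.range 5, homogeneousComponent i f = f := by
      have h2 := sum_homogeneousComponent f
      conv_rhs => rw [← h2]
      symm
      apply Finset.sum_subset
      · intro k hk
        rw [Finset.mem_range] at *
        omega
      · intro k _ hk
        rw [Finset.mem_range, not_lt] at hk
        exact homogeneousComponent_eq_zero _ _ (by omega)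
    conv_lhs => rw [← h1]
    rw [Finset.sum_range_succ, Finset.sum_range_succ, Finset.sum_range_succ,
      Finset.sum_range_succ, Finset.sum_range_one, homogeneousComponent_zero]
    ring
  have hheat : ∀ t, heat f t = heat4 t f := heat_eq_heat4 hdeg
  simp only [hheat]
  by_cases hnd : Nondeg (fun v => eval v (homogeneousComponent 4 f))
  · exact nondeg_case hsum (homogeneousComponent_isHomogeneous 4 f)
      (homogeneousComponent_isHomogeneous 3 f) (homogeneousComponent_isHomogeneous 2 f)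
      (homogeneousComponent_isHomogeneous 1 f) hpos hnd
  · have h := deg_case hsum (homogeneousComponent_isHomogeneous 4 f)
      (homogeneousComponent_isHomogeneous 3 f) (homogeneousComponent_isHomogeneous 2 f)
      (homogeneousComponent_isHomogeneous 1 f) hpos hnd
    exact ⟨1, one_pos, fun t ht => isSumSq_heat4_of_Q2 (by linarith) h⟩

end Pool.Agent.H42.Q4
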