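import Pool.Agent.H42.Q4.Forms

/-!
Compactness bound, coordinate changes, elementary inequalities.
-/

namespace Pool.Agent.H42.Q4

open Filter Topology

/-- Compactness: a positive homogeneous function dominates every homogeneous function of the
same degree. -/
lemma hom_bound {E : Type*} [NormedAddCommGroup E] [NormedSpace ℝ E] [FiniteDimensional ℝ E]
    (n : ℕ) (A B : E → ℝ) (hA : Continuous A) (hB : Continuous B)
    (hhA : ∀ (s : ℝ) v, A (s • v) = s ^ n * A v) (hhB : ∀ (s : ℝ) v, B (s • v) = s ^ n * B v)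
    (h0 : B 0 ≤ 0) (hpos : ∀ v, v ≠ 0 → 0 < A v) (hA0 : 0 ≤ A 0) :
    ∃ C : ℝ, 0 < C ∧ ∀ v, B v ≤ C * A v := by
  have hc : IsCompact (Metric.sphere (0 : E) 1) := isCompact_sphere 0 1
  have hcont : ContinuousOn (fun v => B v / A v) (Metric.sphere (0 : E) 1) := by
    apply ContinuousOn.div hB.continuousOn hA.continuousOn
    intro v hv
    have : v ≠ 0 := by
      rintro rfl
      simp at hv
    exact (hpos v this).ne'
  obtain ⟨C, hC⟩ := (hc.bddAbove_image hcont)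
  refine ⟨max C 1, lt_max_of_lt_right one_pos, fun v => ?_⟩
  by_cases hv : v = 0
  · subst hv
    exact h0.trans (mul_nonneg (le_max_of_le_right zero_le_one) hA0)
  · have hn : 0 < ‖v‖ := norm_pos_iff.2 hv
    have hu : (‖v‖⁻¹ • v) ∈ Metric.sphere (0 : E) 1 := by
      simp [norm_smul, hn.ne']
    have h1 : B (‖v‖⁻¹ • v) / A (‖v‖⁻¹ • v) ≤ C := hC ⟨_, hu, rfl⟩
    have h2 : 0 < A v := hpos v hv
    rw [hhA, hhB, mul_div_mul_left _ _ (pow_ne_zero _ (inv_ne_zero hn.ne')), div_le_iff₀ h2] at h1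
    exact h1.trans (mul_le_mul_of_nonneg_right (le_max_left _ _) h2.le)

lemma nonneg_of_ne (φ : ℝ → ℝ) (hc : Continuous φ) (h : ∀ ε, ε ≠ 0 → 0 ≤ φ ε) : 0 ≤ φ 0 := by
  have h1 : Tendsto φ (𝓝[≠] 0) (𝓝 (φ 0)) := hc.continuousAt.tendsto.mono_left nhdsWithin_le_nhds
  exact ge_of_tendsto h1 (by
    filter_upwards [self_mem_nhdsWithin] with ε hε
    exact h ε hε)

lemma quad_nonneg {A B C : ℝ} (h : ∀ x : ℝ, 0 ≤ A * x ^ 2 + B * x + C) :
    0 ≤ A ∧ 0 ≤ C ∧ B ^ 2 ≤ 4 * A * C := by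
  have h1 : discrim A B C ≤ 0 := discrim_le_zero fun x => by
    have := h x
    nlinarith
  have h2 : 0 ≤ C := by simpa using h 0
  refine ⟨?_, h2, by unfold discrim at h1; linarith⟩
  by_contra hA
  push Not at hA
  have h3 := h ((|B| + |C| + 1) / (-A) + 1)
  have hB : B ≤ |B| := le_abs_self B
  have hC : C ≤ |C| := le_abs_self C
  have hB0 := abs_nonneg B
  have hC0 := abs_nonneg C
  set t := (|B| + |C| + 1) / (-A) + 1 with ht
  have ht1 : 1 ≤ t := by
    rw [ht]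
    have : 0 ≤ (|B| + |C| + 1) / (-A) := div_nonneg (by linarith) (by linarith)
    linarith
  have hAt : -A * t = (|B| + |C| + 1) + (-A) := by
    rw [ht, mul_add, mul_div_cancel₀ _ (neg_ne_zero.2 hA.ne), mul_one]
  have h4 : A * t ^ 2 = -(|B| + |C| + 1 - A) * t := by
    have : A * t ^ 2 = -(-A * t) * t := by ring
    rw [this, hAt]; ring
  nlinarith

lemma cubic_nonneg {p q r s : ℝ} (h : ∀ x : ℝ, 0 ≤ p * x ^ 3 + q * x ^ 2 + r * x + s) : p = 0 := by
  have key : ∀ p q r s : ℝ, (∀ x : ℝ, 0 ≤ p * x ^ 3 + q * x ^ 2 + r * x + s) → ¬ 0 < p := by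
    intro p q r s h hp
    set A := |q| + |r| + |s| + 1 with hA
    have hq := le_abs_self q
    have hr := neg_abs_le r
    have hs := le_abs_self s
    have hq0 := abs_nonneg q
    have hr0 := abs_nonneg r
    have hs0 := abs_nonneg s
    set t := A / p + 1 with ht
    have hA0 : 0 < A := by positivity
    have ht1 : 1 ≤ t := by
      rw [ht]
      have : 0 ≤ A / p := by positivity
      linarith
    have hpt : p * t = A + p := by rw [ht]; field_simp
    have h1 := h (-t)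
    have h2 : p * (-t) ^ 3 = -(A + p) * t ^ 2 := by
      rw [← hpt]; ring
    rw [h2] at h1
    have ht2 : t ≤ t ^ 2 := by nlinarith
    have ht3 : 1 ≤ t ^ 2 := by nlinarith
    have h3 : q * (-t) ^ 2 ≤ |q| * t ^ 2 := by
      rw [neg_sq]; exact mul_le_mul_of_nonneg_right hq (by positivity)
    have h4 : r * (-t) ≤ |r| * t ^ 2 := by nlinarith
    have h5 : s ≤ |s| * t ^ 2 := by nlinarith
    nlinarith
  have h1 := key p q r s h
  have h2 := key (-p) q (-r) s fun x => by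
    have := h (-x)
    nlinarith
  push Not at h1 h2
  linarith

/-- binary quadratic forms -/
lemma bin_psd {c1 c2 c3 : ℝ} (h : ∀ y z : ℝ, 0 ≤ c1 * y ^ 2 + c2 * (y * z) + c3 * z ^ 2) :
    0 ≤ c1 ∧ 0 ≤ c3 ∧ c2 ^ 2 ≤ 4 * c1 * c3 :=
  quad_nonneg fun x => by
    have := h x 1
    nlinarith

lemma bin_pos {c1 c2 c3 : ℝ} (h1 : 0 < c1) (h : c2 ^ 2 < 4 * c1 * c3) (y z : ℝ)
    (hyz : y ≠ 0 ∨ z ≠ 0) : 0 < c1 * y ^ 2 + c2 * (y * z) + c3 * z ^ 2 := by
  have key : 4 * c1 * (c1 * y ^ 2 + c2 * (y * z) + c3 * z ^ 2) =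
      (2 * c1 * y + c2 * z) ^ 2 + (4 * c1 * c3 - c2 ^ 2) * z ^ 2 := by ring
  have h2 : 0 < 4 * c1 * (c1 * y ^ 2 + c2 * (y * z) + c3 * z ^ 2) := by
    rw [key]
    by_cases hz : z = 0
    · subst hz
      have hy : y ≠ 0 := by simpa using hyz
      have : 0 < (2 * c1 * y + c2 * 0) ^ 2 := by
        have : 2 * c1 * y + c2 * 0 ≠ 0 := by simpa using ⟨h1.ne', hy⟩
        positivity
      nlinarith
    · have : 0 < (4 * c1 * c3 - c2 ^ 2) * z ^ 2 := mul_pos (by linarith) (by positivity)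
      nlinarith [sq_nonneg (2 * c1 * y + c2 * z)]
  by_contra hc
  push Not at hc
  nlinarith

/-- basis vectors -/
lemma exists_equiv3 {w : Fin 3 → V} (h : LinearIndependent ℝ w) :
    ∃ e : V ≃ₗ[ℝ] V, ∀ v : V, e v = v 0 • w 0 + v 1 • w 1 + v 2 • w 2 := by
  let b : Module.Basis (Fin 3) ℝ V := basisOfLinearIndependentOfCardEqFinrank h (by simp)
  refine ⟨b.equivFun.symm, fun v => ?_⟩
  rw [Module.Basis.equivFun_symm_apply, Fin.sum_univ_three]
  simp [b]

lemma exists_equiv2 {v w : V} (h : LinearIndependent ℝ ![v, w]) :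
    ∃ e : V ≃ₗ[ℝ] V, e ![1, 0, 0] = v ∧ e ![0, 1, 0] = w := by
  obtain ⟨u, hu⟩ := exists_linearIndependent_snoc_of_lt_finrank h (by simp)
  obtain ⟨e, he⟩ := exists_equiv3 hu
  refine ⟨e, ?_, ?_⟩
  · rw [he]
    simp [Fin.snoc]
  · rw [he]
    simp [Fin.snoc]

lemma exists_equiv1 {v : V} (h : v ≠ 0) : ∃ e : V ≃ₗ[ℝ] V, e ![1, 0, 0] = v := by
  obtain ⟨w, hw⟩ := exists_linearIndependent_pair_of_one_lt_finrank (R := ℝ) (by simp) h
  obtain ⟨e, he, _⟩ := exists_equiv2 hw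
  exact ⟨e, he⟩

lemma li_pair {v w : V} (h : ∀ s t : ℝ, s • v + t • w = 0 → s = 0 ∧ t = 0) :
    LinearIndependent ℝ ![v, w] := by
  rw [LinearIndependent.pair_iff]; exact h

lemma li_triple {u v w : V} (h : ∀ r s t : ℝ, r • u + s • v + t • w = 0 → r = 0 ∧ s = 0 ∧ t = 0) :
    LinearIndependent ℝ ![u, v, w] := by
  rw [Fintype.linearIndependent_iff]
  intro g hg
  rw [Fin.sum_univ_three] at hg
  obtain ⟨h0, h1, h2⟩ := h (g 0) (g 1) (g 2) (by simpa using hg)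
  intro i
  fin_cases i <;> assumption

end Pool.Agent.H42.Q4
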