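import Mathlib

/-!
Forms (homogeneous polynomial functions) on `ℝ³`.
-/

namespace Pool.Agent.H42.Q4

/-- real three-space -/
abbrev V := Fin 3 → ℝ

/-- `φ` is a form of degree `n` -/
def IsForm : ℕ → (V → ℝ) → Prop
  | 0, φ => ∃ c : ℝ, ∀ v, φ v = c
  | n + 1, φ => ∃ ψ : Fin 3 → V → ℝ, (∀ i, IsForm n (ψ i)) ∧ ∀ v, φ v = ∑ i, v i * ψ i v

lemma IsForm.zero : ∀ n, IsForm n (fun _ => 0)
  | 0 => ⟨0, fun _ => rfl⟩
  | n + 1 => ⟨fun _ _ => 0, fun _ => IsForm.zero n, fun v => by simp⟩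

lemma IsForm.congr {n : ℕ} {φ ψ : V → ℝ} (h : IsForm n φ) (he : ∀ v, ψ v = φ v) : IsForm n ψ := by
  have : ψ = φ := funext he
  rw [this]; exact h

lemma IsForm.add : ∀ {n : ℕ} {φ ψ : V → ℝ}, IsForm n φ → IsForm n ψ → IsForm n (fun v => φ v + ψ v)
  | 0, φ, ψ, ⟨c, hc⟩, ⟨d, hd⟩ => ⟨c + d, fun v => by simp only [hc, hd]⟩
  | n + 1, φ, ψ, ⟨a, ha, ha'⟩, ⟨b, hb, hb'⟩ =>
    ⟨fun i v => a i v + b i v, fun i => (ha i).add (hb i), fun v => by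
      simp only [ha', hb', mul_add, Finset.sum_add_distrib]⟩

lemma IsForm.smul : ∀ {n : ℕ} {φ : V → ℝ} (c : ℝ), IsForm n φ → IsForm n (fun v => c * φ v)
  | 0, φ, c, ⟨d, hd⟩ => ⟨c * d, fun v => by simp only [hd]⟩
  | n + 1, φ, c, ⟨a, ha, ha'⟩ =>
    ⟨fun i v => c * a i v, fun i => (ha i).smul c, fun v => by
      simp only [ha', Finset.mul_sum]
      exact Finset.sum_congr rfl fun i _ => by ring⟩

lemma IsForm.sum {ι : Type*} (s : Finset ι) {n : ℕ} {φ : ι → V → ℝ} (h : ∀ i ∈ s, IsForm n (φ i)) :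
    IsForm n (fun v => ∑ i ∈ s, φ i v) := by
  classical
  induction s using Finset.induction_on with
  | empty => simpa using IsForm.zero n
  | insert a s ha ih =>
    have h1 := (h a (Finset.mem_insert_self a s)).add
      (ih fun i hi => h i (Finset.mem_insert_of_mem hi))
    exact h1.congr fun v => by rw [Finset.sum_insert ha]

lemma IsForm.sub {n : ℕ} {φ ψ : V → ℝ} (h : IsForm n φ) (h' : IsForm n ψ) :
    IsForm n (fun v => φ v - ψ v) :=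
  (h.add (h'.smul (-1))).congr fun v => by ring

lemma IsForm.coord_mul {n : ℕ} {φ : V → ℝ} (h : IsForm n φ) (i : Fin 3) :
    IsForm (n + 1) (fun v => v i * φ v) :=
  ⟨fun j v => if j = i then φ v else 0, fun j => by
    by_cases hj : j = i
    · simpa [hj] using h
    · simpa [hj] using IsForm.zero n, fun v => by simp⟩

lemma isForm_coord (i : Fin 3) : IsForm 1 (fun v => v i) :=
  (IsForm.coord_mul (n := 0) (φ := fun _ => 1) ⟨1, fun _ => rfl⟩ i).congr fun v => by simp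

lemma isForm_const (c : ℝ) : IsForm 0 (fun _ => c) := ⟨c, fun _ => rfl⟩

lemma IsForm.mul : ∀ {m n : ℕ} {φ ψ : V → ℝ}, IsForm m φ → IsForm n ψ →
    IsForm (n + m) (fun v => φ v * ψ v)
  | 0, n, φ, ψ, ⟨c, hc⟩, h => (h.smul c).congr fun v => by rw [hc]
  | m + 1, n, φ, ψ, ⟨a, ha, ha'⟩, h =>
    ⟨fun i v => a i v * ψ v, fun i => (ha i).mul h, fun v => by
      simp only [ha', Finset.sum_mul]
      exact Finset.sum_congr rfl fun i _ => by ring⟩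

lemma IsForm.comp : ∀ {n : ℕ} {φ : V → ℝ}, IsForm n φ → ∀ (e : V →ₗ[ℝ] V),
    IsForm n (fun v => φ (e v))
  | 0, φ, ⟨c, hc⟩, e => ⟨c, fun v => hc _⟩
  | n + 1, φ, ⟨a, ha, ha'⟩, e => by
    refine ⟨fun j v => ∑ i, e (Pi.single j 1) i * a i (e v), fun j => ?_, fun v => ?_⟩
    · exact IsForm.sum _ fun i _ => ((ha i).comp e).smul _
    · simp only [ha', Finset.mul_sum]
      rw [Finset.sum_comm]
      refine Finset.sum_congr rfl fun i _ => ?_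
      have h1 : e v i = ∑ j, v j * e (Pi.single j 1) i := by
        have h2 : v = ∑ j, v j • (Pi.single j (1 : ℝ) : V) := by
          ext k
          simp [Finset.sum_apply, Pi.single_apply]
        conv_lhs => rw [h2]
        rw [map_sum, Finset.sum_apply]
        refine Finset.sum_congr rfl fun j _ => ?_
        rw [map_smul]; rfl
      rw [h1, Finset.sum_mul]
      exact Finset.sum_congr rfl fun j _ => by ring

lemma IsForm.continuous : ∀ {n : ℕ} {φ : V → ℝ}, IsForm n φ → Continuous φ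
  | 0, φ, ⟨c, hc⟩ => by
    have : φ = fun _ => c := funext hc
    rw [this]; exact continuous_const
  | n + 1, φ, ⟨a, ha, ha'⟩ => by
    have : φ = fun v => ∑ i, v i * a i v := funext ha'
    rw [this]
    exact continuous_finsetSum _ fun i _ => (continuous_apply i).mul (ha i).continuous

lemma IsForm.homog : ∀ {n : ℕ} {φ : V → ℝ}, IsForm n φ → ∀ (s : ℝ) (v : V),
    φ (s • v) = s ^ n * φ v
  | 0, φ, ⟨c, hc⟩, s, v => by rw [hc, hc]; simp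
  | n + 1, φ, ⟨a, ha, ha'⟩, s, v => by
    rw [ha', ha', Finset.mul_sum]
    refine Finset.sum_congr rfl fun i _ => ?_
    rw [(ha i).homog s v, Pi.smul_apply, smul_eq_mul]
    ring

lemma IsForm.nf1 {φ : V → ℝ} (h : IsForm 1 φ) :
    ∃ a b c : ℝ, ∀ v, φ v = a * v 0 + b * v 1 + c * v 2 := by
  obtain ⟨ψ, hψ, h'⟩ := h
  obtain ⟨a, ha⟩ := hψ 0
  obtain ⟨b, hb⟩ := hψ 1
  obtain ⟨c, hc⟩ := hψ 2
  exact ⟨a, b, c, fun v => by rw [h', Fin.sum_univ_three, ha, hb, hc]; ring⟩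

lemma IsForm.nf2 {φ : V → ℝ} (h : IsForm 2 φ) :
    ∃ a b c d e f : ℝ, ∀ v, φ v = a * v 0 ^ 2 + b * v 1 ^ 2 + c * v 2 ^ 2 + d * (v 0 * v 1) +
      e * (v 0 * v 2) + f * (v 1 * v 2) := by
  obtain ⟨ψ, hψ, h'⟩ := h
  obtain ⟨a0, b0, c0, h0⟩ := (hψ 0).nf1
  obtain ⟨a1, b1, c1, h1⟩ := (hψ 1).nf1
  obtain ⟨a2, b2, c2, h2⟩ := (hψ 2).nf1
  exact ⟨a0, b1, c2, b0 + a1, c0 + a2, c1 + b2, fun v => by
    rw [h', Fin.sum_univ_three, h0, h1, h2]; ring⟩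

lemma IsForm.nf3 {φ : V → ℝ} (h : IsForm 3 φ) :
    ∃ a b1 b2 c1 c2 c3 d1 d2 d3 d4 : ℝ, ∀ v, φ v = a * v 0 ^ 3 +
      v 0 ^ 2 * (b1 * v 1 + b2 * v 2) +
      v 0 * (c1 * v 1 ^ 2 + c2 * (v 1 * v 2) + c3 * v 2 ^ 2) +
      (d1 * v 1 ^ 3 + d2 * (v 1 ^ 2 * v 2) + d3 * (v 1 * v 2 ^ 2) + d4 * v 2 ^ 3) := by
  obtain ⟨ψ, hψ, h'⟩ := h
  obtain ⟨a0, b0, c0, d0, e0, f0, h0⟩ := (hψ 0).nf2
  obtain ⟨a1, b1, c1, d1, e1, f1, h1⟩ := (hψ 1).nf2
  obtain ⟨a2, b2, c2, d2, e2, f2, h2⟩ := (hψ 2).nf2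
  exact ⟨a0, d0 + a1, e0 + a2, b0 + d1, f0 + e1 + d2, c0 + e2, b1, f1 + b2, c1 + f2, c2,
    fun v => by rw [h', Fin.sum_univ_three, h0, h1, h2]; ring⟩

lemma IsForm.nf4 {φ : V → ℝ} (h : IsForm 4 φ) :
    ∃ a b1 b2 c1 c2 c3 d1 d2 d3 d4 e1 e2 e3 e4 e5 : ℝ, ∀ v, φ v = a * v 0 ^ 4 +
      v 0 ^ 3 * (b1 * v 1 + b2 * v 2) +
      v 0 ^ 2 * (c1 * v 1 ^ 2 + c2 * (v 1 * v 2) + c3 * v 2 ^ 2) +
      v 0 * (d1 * v 1 ^ 3 + d2 * (v 1 ^ 2 * v 2) + d3 * (v 1 * v 2 ^ 2) + d4 * v 2 ^ 3) +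
      (e1 * v 1 ^ 4 + e2 * (v 1 ^ 3 * v 2) + e3 * (v 1 ^ 2 * v 2 ^ 2) + e4 * (v 1 * v 2 ^ 3) +
        e5 * v 2 ^ 4) := by
  obtain ⟨ψ, hψ, h'⟩ := h
  obtain ⟨a0, b10, b20, c10, c20, c30, d10, d20, d30, d40, h0⟩ := (hψ 0).nf3
  obtain ⟨a1, b11, b21, c11, c21, c31, d11, d21, d31, d41, h1⟩ := (hψ 1).nf3
  obtain ⟨a2, b12, b22, c12, c22, c32, d12, d22, d32, d42, h2⟩ := (hψ 2).nf3
  exact ⟨a0, b10 + a1, b20 + a2, c10 + b11, c20 + b21 + b12, c30 + b22,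
    d10 + c11, d20 + c21 + c12, d30 + c31 + c22, d40 + c32,
    d11, d21 + d12, d31 + d22, d41 + d32, d42,
    fun v => by rw [h', Fin.sum_univ_three, h0, h1, h2]; ring⟩

/-- monomials are forms -/
lemma isForm_mono : ∀ a b c : ℕ, IsForm (a + b + c) (fun v => v 0 ^ a * v 1 ^ b * v 2 ^ c)
  | 0, 0, 0 => ⟨1, fun v => by simp⟩
  | 0, 0, c + 1 => ((isForm_mono 0 0 c).coord_mul 2).congr fun v => by ring
  | 0, b + 1, c => by
    have h := ((isForm_mono 0 b c).coord_mul 1).congr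
      (ψ := fun v => v 0 ^ 0 * v 1 ^ (b + 1) * v 2 ^ c) fun v => by ring
    have e : 0 + b + c + 1 = 0 + (b + 1) + c := by ring
    rw [e] at h; exact h
  | a + 1, b, c => by
    have h := ((isForm_mono a b c).coord_mul 0).congr
      (ψ := fun v => v 0 ^ (a + 1) * v 1 ^ b * v 2 ^ c) fun v => by ring
    have e : a + b + c + 1 = (a + 1) + b + c := by ring
    rw [e] at h; exact h

lemma isForm1_mk (a b c : ℝ) : IsForm 1 (fun v => a * v 0 + b * v 1 + c * v 2) :=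
  ((((isForm_coord 0).smul a).add ((isForm_coord 1).smul b)).add
    ((isForm_coord 2).smul c)).congr fun v => by ring

lemma isForm2_mk (a b c d e f : ℝ) : IsForm 2 (fun v => a * v 0 ^ 2 + b * v 1 ^ 2 + c * v 2 ^ 2 +
    d * (v 0 * v 1) + e * (v 0 * v 2) + f * (v 1 * v 2)) :=
  (((((((isForm_mono 2 0 0).smul a).add ((isForm_mono 0 2 0).smul b)).add
    ((isForm_mono 0 0 2).smul c)).add ((isForm_mono 1 1 0).smul d)).add
    ((isForm_mono 1 0 1).smul e)).add ((isForm_mono 0 1 1).smul f)).congr fun v => by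
      simp

end Pool.Agent.H42.Q4
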