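import Pool.Agent.H42.Q4.Sq

/-!
Hilbert's theorem: nonnegative ternary quartic forms are sums of squares of quadratic forms.
-/

namespace Pool.Agent.H42.Q4

open Filter Topology
open scoped Matrix MatrixOrder

/-- the value of the quadratic form with matrix `X` -/
def qv {n : ℕ} (X : Fin n → Fin n → ℝ) (y : Fin n → ℝ) : ℝ := ∑ i, ∑ j, X i j * y i * y j

lemma psd_factor {n : ℕ} (X : Fin n → Fin n → ℝ) (hs : ∀ i j, X i j = X j i)
    (hX : ∀ y, 0 ≤ qv X y) :
    ∃ B : Fin n → Fin n → ℝ, ∀ y, qv X y = ∑ k, (∑ i, B k i * y i) ^ 2 := by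
  set M : Matrix (Fin n) (Fin n) ℝ := Matrix.of X with hM
  have hval : ∀ y : Fin n → ℝ, y ⬝ᵥ (M *ᵥ y) = qv X y := by
    intro y
    simp only [dotProduct, Matrix.mulVec, qv, hM, Matrix.of_apply, Finset.mul_sum]
    refine Finset.sum_congr rfl fun i _ => Finset.sum_congr rfl fun j _ => by ring
  have hpsd : M.PosSemidef := by
    apply Matrix.PosSemidef.of_dotProduct_mulVec_nonneg
    · ext i j
      simp [hM, hs i j]
    · intro y
      rw [star_trivial, hval]
      exact hX y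
  obtain ⟨B, hB⟩ := CStarAlgebra.nonneg_iff_eq_star_mul_self.mp hpsd.nonneg
  refine ⟨fun k i => B k i, fun y => ?_⟩
  rw [← hval, hB]
  have h1 : y ⬝ᵥ ((star B * B) *ᵥ y) = (B *ᵥ y) ⬝ᵥ (B *ᵥ y) := by
    rw [← Matrix.mulVec_mulVec, Matrix.dotProduct_mulVec, Matrix.star_eq_conjTranspose,
      Matrix.conjTranspose_eq_transpose_of_trivial, Matrix.vecMul_transpose]
  rw [h1]
  simp only [dotProduct, Matrix.mulVec]
  exact Finset.sum_congr rfl fun k _ => by rw [sq]

/-- the monomials of degree two -/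
def mon (v : V) : Fin 6 → ℝ :=
  ![v 0 ^ 2, v 1 ^ 2, v 2 ^ 2, v 0 * v 1, v 0 * v 2, v 1 * v 2]

lemma isForm_mon (i : Fin 6) : IsForm 2 (fun v => mon v i) := by
  fin_cases i
  · exact (isForm2_mk 1 0 0 0 0 0).congr fun v => by simp [mon]
  · exact (isForm2_mk 0 1 0 0 0 0).congr fun v => by simp [mon]
  · exact (isForm2_mk 0 0 1 0 0 0).congr fun v => by simp [mon]
  · exact (isForm2_mk 0 0 0 1 0 0).congr fun v => by simp [mon]
  · exact (isForm2_mk 0 0 0 0 1 0).congr fun v => by simp [mon]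
  · exact (isForm2_mk 0 0 0 0 0 1).congr fun v => by simp [mon]

lemma isForm_qv (X : Fin 6 → Fin 6 → ℝ) : IsForm 4 (fun v => qv X (mon v)) := by
  unfold qv
  apply IsForm.sum
  intro i _
  apply IsForm.sum
  intro j _
  exact (((isForm_mon i).mul (isForm_mon j)).smul (X i j)).congr fun v => by ring

lemma nf2_mon {q : V → ℝ} (hq : IsForm 2 q) : ∃ a : Fin 6 → ℝ, ∀ v, q v = ∑ i, a i * mon v i := by
  obtain ⟨a, b, c, d, e, f, h⟩ := hq.nf2
  refine ⟨![a, b, c, d, e, f], fun v => ?_⟩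
  rw [h]
  simp [Fin.sum_univ_succ, mon]
  ring

lemma continuous_qv_left {n : ℕ} (y : Fin n → ℝ) : Continuous (fun X : Fin n → Fin n → ℝ => qv X y) := by
  unfold qv
  fun_prop

/-- Gram matrices below `F` -/
def gramSet (F : V → ℝ) : Set (Fin 6 → Fin 6 → ℝ) :=
  {X | (∀ i j, X i j = X j i) ∧ (∀ y, 0 ≤ qv X y) ∧ ∀ v, qv X (mon v) ≤ F v}

lemma isClosed_gramSet (F : V → ℝ) : IsClosed (gramSet F) := by
  have : gramSet F = (⋂ i, ⋂ j, {X | X i j = X j i}) ∩ ((⋂ y, {X | 0 ≤ qv X y}) ∩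
      ⋂ v, {X | qv X (mon v) ≤ F v}) := by
    ext X
    simp [gramSet]
  rw [this]
  refine IsClosed.inter (isClosed_iInter fun i => isClosed_iInter fun j => ?_) (IsClosed.inter
    (isClosed_iInter fun y => ?_) (isClosed_iInter fun v => ?_))
  · exact isClosed_eq (by fun_prop) (by fun_prop)
  · exact isClosed_le continuous_const (continuous_qv_left y)
  · exact isClosed_le (continuous_qv_left _) continuous_const

lemma gram_diag {F : V → ℝ} {X : Fin 6 → Fin 6 → ℝ} (hX : X ∈ gramSet F) :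
    X 0 0 ≤ F ![1, 0, 0] ∧ X 1 1 ≤ F ![0, 1, 0] ∧ X 2 2 ≤ F ![0, 0, 1] ∧
    2 * X 3 3 ≤ F ![1, 1, 0] + F ![1, -1, 0] ∧ 2 * X 4 4 ≤ F ![1, 0, 1] + F ![1, 0, -1] ∧
    2 * X 5 5 ≤ F ![0, 1, 1] + F ![0, 1, -1] := by
  obtain ⟨hs, hp, hb⟩ := hX
  refine ⟨?_, ?_, ?_, ?_, ?_, ?_⟩
  · have := hb ![1, 0, 0]
    simpa [qv, mon, Fin.sum_univ_succ] using this
  · have := hb ![0, 1, 0]
    simp [qv, mon, Fin.sum_univ_succ] at this
    exact this
  · have := hb ![0, 0, 1]
    simp [qv, mon, Fin.sum_univ_succ] at this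
    exact this
  · have h1 := hb ![1, 1, 0]
    have h2 := hb ![1, -1, 0]
    have h3 := hp ![1, 1, 0, 0, 0, 0]
    simp [qv, mon, Fin.sum_univ_succ] at h1 h2 h3
    linarith
  · have h1 := hb ![1, 0, 1]
    have h2 := hb ![1, 0, -1]
    have h3 := hp ![1, 0, 1, 0, 0, 0]
    simp [qv, mon, Fin.sum_univ_succ] at h1 h2 h3
    linarith
  · have h1 := hb ![0, 1, 1]
    have h2 := hb ![0, 1, -1]
    have h3 := hp ![0, 1, 1, 0, 0, 0]
    simp [qv, mon, Fin.sum_univ_succ] at h1 h2 h3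
    linarith

lemma qv_pair {n : ℕ} (X : Fin n → Fin n → ℝ) (i j : Fin n) (hij : i ≠ j) (s : ℝ) :
    qv X (fun k => if k = i then 1 else if k = j then s else 0) =
      X i i + s * X i j + s * X j i + s ^ 2 * X j j := by
  classical
  have h : (fun k : Fin n => if k = i then (1 : ℝ) else if k = j then s else 0) =
      fun k => (if k = i then 1 else 0) + (if k = j then s else 0) := by
    ext k
    by_cases h1 : k = i
    · subst h1; simp [hij]
    · simp [h1]
  rw [h]
  simp only [qv, mul_add, add_mul, Finset.sum_add_distrib]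
  simp
  ring

lemma isBounded_gramSet (F : V → ℝ) : Bornology.IsBounded (gramSet F) := by
  obtain ⟨B, hB⟩ : ∃ B : ℝ, ∀ X ∈ gramSet F, ∀ i, X i i ≤ B := by
    refine ⟨|F ![1, 0, 0]| + |F ![0, 1, 0]| + |F ![0, 0, 1]| + |F ![1, 1, 0]| + |F ![1, -1, 0]| +
      |F ![1, 0, 1]| + |F ![1, 0, -1]| + |F ![0, 1, 1]| + |F ![0, 1, -1]|, fun X hX i => ?_⟩
    obtain ⟨h0, h1, h2, h3, h4, h5⟩ := gram_diag hX
    have a1 := le_abs_self (F ![1, 0, 0])
    have a2 := le_abs_self (F ![0, 1, 0])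
    have a3 := le_abs_self (F ![0, 0, 1])
    have a4 := le_abs_self (F ![1, 1, 0])
    have a5 := le_abs_self (F ![1, -1, 0])
    have a6 := le_abs_self (F ![1, 0, 1])
    have a7 := le_abs_self (F ![1, 0, -1])
    have a8 := le_abs_self (F ![0, 1, 1])
    have a9 := le_abs_self (F ![0, 1, -1])
    have b1 := abs_nonneg (F ![1, 0, 0])
    have b2 := abs_nonneg (F ![0, 1, 0])
    have b3 := abs_nonneg (F ![0, 0, 1])
    have b4 := abs_nonneg (F ![1, 1, 0])
    have b5 := abs_nonneg (F ![1, -1, 0])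
    have b6 := abs_nonneg (F ![1, 0, 1])
    have b7 := abs_nonneg (F ![1, 0, -1])
    have b8 := abs_nonneg (F ![0, 1, 1])
    have b9 := abs_nonneg (F ![0, 1, -1])
    fin_cases i <;> simp only [Fin.zero_eta, Fin.mk_one, Fin.reduceFinMk] <;> linarith
  rw [isBounded_iff_forall_norm_le]
  refine ⟨max B 0, fun X hX => ?_⟩
  rw [pi_norm_le_iff_of_nonneg (le_max_right _ _)]
  intro i
  rw [pi_norm_le_iff_of_nonneg (le_max_right _ _)]
  intro j
  rw [Real.norm_eq_abs]
  have hi := hB X hX i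
  have hj := hB X hX j
  by_cases hij : i = j
  · subst hij
    have h1 := hX.2.1 (fun k => if k = i then 1 else 0)
    have h2 : qv X (fun k => if k = i then 1 else 0) = X i i := by
      simp [qv]
    rw [h2] at h1
    rw [abs_of_nonneg h1]
    exact hi.trans (le_max_left _ _)
  · have h1 := hX.2.1 (fun k => if k = i then 1 else if k = j then 1 else 0)
    have h2 := hX.2.1 (fun k => if k = i then 1 else if k = j then -1 else 0)
    rw [qv_pair X i j hij] at h1 h2
    have h3 := hX.1 i j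
    apply (abs_le.2 ⟨?_, ?_⟩ : |X i j| ≤ B).trans (le_max_left _ _)
    · linarith
    · linarith

/-- **Hilbert's theorem on ternary quartics.** -/
theorem hilbert {F : V → ℝ} (hform : IsForm 4 F) (hpos : ∀ v, 0 ≤ F v) :
    ∃ q : Fin 6 → V → ℝ, (∀ i, IsForm 2 (q i)) ∧ ∀ v, F v = ∑ i, (q i v) ^ 2 := by
  have hcomp : IsCompact (gramSet F) :=
    Metric.isCompact_of_isClosed_isBounded (isClosed_gramSet F) (isBounded_gramSet F)
  have hne : (gramSet F).Nonempty := ⟨fun _ _ => 0, fun _ _ => rfl, fun y => by simp [qv],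
    fun v => by simpa [qv] using hpos v⟩
  obtain ⟨X, hX, hmax⟩ := hcomp.exists_isMaxOn hne
    (f := fun X : Fin 6 → Fin 6 → ℝ => ∑ i, X i i) (by fun_prop)
  have heq : ∀ v, F v = qv X (mon v) := by
    by_contra hcon
    push Not at hcon
    obtain ⟨v0, hv0⟩ := hcon
    obtain ⟨q, hq, ⟨w, hw⟩, hqF⟩ := goodSq (F := fun v => F v - qv X (mon v))
      (hform.sub (isForm_qv X)) (fun v => sub_nonneg.2 (hX.2.2 v)) ⟨v0, sub_ne_zero.2 hv0⟩
    obtain ⟨a, ha⟩ := nf2_mon hq
    have hval : ∀ y : Fin 6 → ℝ, qv (fun i j => X i j + a i * a j) y =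
        qv X y + (∑ i, a i * y i) ^ 2 := by
      intro y
      simp only [qv, add_mul, Finset.sum_add_distrib]
      congr 1
      rw [sq, Finset.sum_mul_sum]
      refine Finset.sum_congr rfl fun i _ => Finset.sum_congr rfl fun j _ => by ring
    have hX' : (fun i j => X i j + a i * a j) ∈ gramSet F := by
      refine ⟨fun i j => ?_, fun y => ?_, fun v => ?_⟩
      · simp only
        rw [hX.1 i j]; ring
      · rw [hval]
        exact add_nonneg (hX.2.1 y) (sq_nonneg _)
      · rw [hval, ← ha]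
        have := hqF v
        simp only at this
        linarith
    have h1 := hmax hX'
    simp only [Set.mem_ofPred_eq, Finset.sum_add_distrib] at h1
    have h2 : ∑ i, a i * a i ≤ 0 := by linarith
    have h3 : ∀ i, a i = 0 := by
      intro i
      have h4 : ∑ i, a i * a i = 0 :=
        le_antisymm h2 (Finset.sum_nonneg fun i _ => mul_self_nonneg _)
      rw [Finset.sum_eq_zero_iff_of_nonneg (fun i _ => mul_self_nonneg _)] at h4
      exact mul_self_eq_zero.1 (h4 i (Finset.mem_univ _))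
    apply hw
    rw [ha]
    simp [h3]
  obtain ⟨B, hB⟩ := psd_factor X hX.1 hX.2.1
  refine ⟨fun k v => ∑ i, B k i * mon v i, fun k => ?_, fun v => ?_⟩
  · exact IsForm.sum _ fun i _ => (isForm_mon i).smul _
  · rw [heq, hB]

end Pool.Agent.H42.Q4
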