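import Pool.Agent.H42.Q4.Hilbert

/-!
Cubic forms dominated by `|v|² F`.
-/

namespace Pool.Agent.H42.Q4

open Filter Topology

/-- squared euclidean norm -/
def nsq (v : V) : ℝ := v 0 ^ 2 + v 1 ^ 2 + v 2 ^ 2

lemma nsq_nonneg (v : V) : 0 ≤ nsq v := by unfold nsq; positivity

lemma nsq_pos {v : V} (hv : v ≠ 0) : 0 < nsq v := by
  rcases (nsq_nonneg v).eq_or_lt with h | h
  · exfalso
    apply hv
    unfold nsq at h
    have h0 : v 0 ^ 2 = 0 := by nlinarith [sq_nonneg (v 0), sq_nonneg (v 1), sq_nonneg (v 2)]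
    have h1 : v 1 ^ 2 = 0 := by nlinarith [sq_nonneg (v 0), sq_nonneg (v 1), sq_nonneg (v 2)]
    have h2 : v 2 ^ 2 = 0 := by nlinarith [sq_nonneg (v 0), sq_nonneg (v 1), sq_nonneg (v 2)]
    rw [vec_eta v, pow_eq_zero_iff two_ne_zero |>.1 h0, pow_eq_zero_iff two_ne_zero |>.1 h1,
      pow_eq_zero_iff two_ne_zero |>.1 h2]
    ext i; fin_cases i <;> rfl
  · exact h

lemma nsq_smul (s : ℝ) (v : V) : nsq (s • v) = s ^ 2 * nsq v := by
  simp only [nsq, Pi.smul_apply, smul_eq_mul]; ring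

lemma continuous_nsq : Continuous nsq := by unfold nsq; fun_prop

lemma nsq_comp_le (e : V ≃ₗ[ℝ] V) : ∃ C : ℝ, 0 < C ∧ ∀ v, nsq (e v) ≤ C * nsq v := by
  have he : Continuous e := LinearMap.continuous_of_finiteDimensional e.toLinearMap
  exact hom_bound 2 nsq (fun v => nsq (e v)) continuous_nsq (continuous_nsq.comp he) nsq_smul
    (fun s v => by rw [map_smul, nsq_smul]) (by simp [nsq]) (fun v hv => nsq_pos hv)
    (nsq_nonneg 0)

/-- quadratic forms whose square is dominated by `F` -/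
def W0 (F : V → ℝ) (w : V → ℝ) : Prop := IsForm 2 w ∧ ∃ C : ℝ, 0 ≤ C ∧ ∀ v, w v ^ 2 ≤ C * F v

lemma W0.congr {F w w' : V → ℝ} (h : W0 F w) (he : ∀ v, w' v = w v) : W0 F w' := by
  have : w' = w := funext he
  rw [this]; exact h

lemma W0.zero {F : V → ℝ} : W0 F (fun _ => 0) :=
  ⟨IsForm.zero 2, 0, le_rfl, fun v => by simp⟩

lemma W0.add {F w w' : V → ℝ} (h : W0 F w) (h' : W0 F w') : W0 F (fun v => w v + w' v) := by
  obtain ⟨hw, C, hC, hb⟩ := h
  obtain ⟨hw', C', hC', hb'⟩ := h'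
  refine ⟨hw.add hw', 2 * (C + C'), by positivity, fun v => ?_⟩
  have h1 := hb v
  have h2 := hb' v
  nlinarith [sq_nonneg (w v - w' v)]

lemma W0.smul {F w : V → ℝ} (c : ℝ) (h : W0 F w) : W0 F (fun v => c * w v) := by
  obtain ⟨hw, C, hC, hb⟩ := h
  refine ⟨hw.smul c, c ^ 2 * C, by positivity, fun v => ?_⟩
  have h1 := mul_le_mul_of_nonneg_left (hb v) (sq_nonneg c)
  simp only
  nlinarith

lemma W0.comp {F w : V → ℝ} (h : W0 F w) (e : V →ₗ[ℝ] V) :
    W0 (fun v => F (e v)) (fun v => w (e v)) := by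
  obtain ⟨hw, C, hC, hb⟩ := h
  exact ⟨hw.comp e, C, hC, fun v => hb _⟩

/-- sums of products of a linear form and an element of `W0` -/
def InLW (F g : V → ℝ) : Prop :=
  ∃ w : Fin 3 → V → ℝ, (∀ i, W0 F (w i)) ∧ ∀ v, g v = ∑ i, v i * w i v

lemma InLW.congr {F g g' : V → ℝ} (h : InLW F g) (he : ∀ v, g' v = g v) : InLW F g' := by
  have : g' = g := funext he
  rw [this]; exact h

lemma InLW.zero {F : V → ℝ} : InLW F (fun _ => 0) :=
  ⟨fun _ _ => 0, fun _ => W0.zero, fun v => by simp⟩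

lemma InLW.add {F g g' : V → ℝ} (h : InLW F g) (h' : InLW F g') :
    InLW F (fun v => g v + g' v) := by
  obtain ⟨w, hw, hg⟩ := h
  obtain ⟨w', hw', hg'⟩ := h'
  exact ⟨fun i v => w i v + w' i v, fun i => (hw i).add (hw' i), fun v => by
    simp only [hg, hg', mul_add, Finset.sum_add_distrib]⟩

lemma InLW.smul {F g : V → ℝ} (c : ℝ) (h : InLW F g) :
    InLW F (fun v => c * g v) := by
  obtain ⟨w, hw, hg⟩ := h
  exact ⟨fun i v => c * w i v, fun i => (hw i).smul c, fun v => by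
    simp only [hg, Finset.mul_sum]
    exact Finset.sum_congr rfl fun i _ => by ring⟩

lemma InLW.of_mul {F l w : V → ℝ} (hl : IsForm 1 l) (hw : W0 F w) :
    InLW F (fun v => l v * w v) := by
  obtain ⟨a, b, c, h⟩ := hl.nf1
  refine ⟨![fun v => a * w v, fun v => b * w v, fun v => c * w v], fun i => ?_, fun v => ?_⟩
  · fin_cases i
    · exact hw.smul a
    · exact hw.smul b
    · exact hw.smul c
  · show l v * w v = _
    rw [h, Fin.sum_univ_three]
    simp
    ring

lemma InLW.sum {F : V → ℝ} {ι : Type*} (s : Finset ι) {g : ι → V → ℝ} (h : ∀ i ∈ s, InLW F (g i)) :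
    InLW F (fun v => ∑ i ∈ s, g i v) := by
  classical
  induction s using Finset.induction_on with
  | empty => simpa using InLW.zero
  | insert a s ha ih =>
    have h1 := (h a (Finset.mem_insert_self a s)).add
      (ih fun i hi => h i (Finset.mem_insert_of_mem hi))
    exact h1.congr fun v => by rw [Finset.sum_insert ha]

lemma InLW.isForm {F g : V → ℝ} (h : InLW F g) : IsForm 3 g := by
  obtain ⟨w, hw, hg⟩ := h
  exact ⟨w, fun i => (hw i).1, hg⟩

lemma InLW.bound {F g : V → ℝ} (h : InLW F g) :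
    ∃ C : ℝ, 0 ≤ C ∧ ∀ v, g v ^ 2 ≤ C * (nsq v * F v) := by
  obtain ⟨w, hw, hg⟩ := h
  obtain ⟨-, C0, hC0, h0⟩ := hw 0
  obtain ⟨-, C1, hC1, h1⟩ := hw 1
  obtain ⟨-, C2, hC2, h2⟩ := hw 2
  refine ⟨C0 + C1 + C2, by positivity, fun v => ?_⟩
  rw [hg, Fin.sum_univ_three]
  have cs : (v 0 * w 0 v + v 1 * w 1 v + v 2 * w 2 v) ^ 2 ≤
      nsq v * (w 0 v ^ 2 + w 1 v ^ 2 + w 2 v ^ 2) := by
    unfold nsq
    nlinarith [sq_nonneg (v 0 * w 1 v - v 1 * w 0 v), sq_nonneg (v 0 * w 2 v - v 2 * w 0 v),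
      sq_nonneg (v 1 * w 2 v - v 2 * w 1 v)]
  have h3 : w 0 v ^ 2 + w 1 v ^ 2 + w 2 v ^ 2 ≤ (C0 + C1 + C2) * F v := by
    have := h0 v
    have := h1 v
    have := h2 v
    linarith
  calc _ ≤ _ := cs
    _ ≤ nsq v * ((C0 + C1 + C2) * F v) := mul_le_mul_of_nonneg_left h3 (nsq_nonneg v)
    _ = _ := by ring

lemma InLW.of_comp {F g : V → ℝ} (e : V ≃ₗ[ℝ] V)
    (h : InLW (fun v => F (e v)) (fun v => g (e v))) : InLW F g := by
  obtain ⟨w, hw, hg⟩ := h
  have h1 : InLW F (fun v => ∑ i, (e.symm v) i * w i (e.symm v)) := by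
    apply InLW.sum
    intro i _
    apply InLW.of_mul
    · exact (isForm_coord i).comp e.symm.toLinearMap
    · have := (hw i).comp e.symm.toLinearMap
      simpa using this
  refine h1.congr fun v => ?_
  have := hg (e.symm v)
  simpa using this

/-- cubic forms `g` with `g² ≤ C |v|² F` -/
def Dom (F g : V → ℝ) : Prop := IsForm 3 g ∧ ∃ C : ℝ, 0 ≤ C ∧ ∀ v, g v ^ 2 ≤ C * (nsq v * F v)

lemma Dom.comp {F g : V → ℝ} (hpos : ∀ v, 0 ≤ F v) (h : Dom F g) (e : V ≃ₗ[ℝ] V) :
    Dom (fun v => F (e v)) (fun v => g (e v)) := by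
  obtain ⟨hg, C, hC, hb⟩ := h
  obtain ⟨K, hK, hKb⟩ := nsq_comp_le e
  refine ⟨hg.comp e.toLinearMap, C * K, by positivity, fun v => (hb _).trans ?_⟩
  have h1 : nsq (e v) * F (e v) ≤ K * nsq v * F (e v) :=
    mul_le_mul_of_nonneg_right (hKb v) (hpos _)
  calc C * (nsq (e v) * F (e v)) ≤ C * (K * nsq v * F (e v)) := mul_le_mul_of_nonneg_left h1 hC
    _ = _ := by ring

/-- the key property -/
def KL (F : V → ℝ) : Prop := ∀ g, Dom F g → InLW F g

lemma KL.of_comp {F : V → ℝ} (hpos : ∀ v, 0 ≤ F v) (e : V ≃ₗ[ℝ] V)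
    (h : KL (fun v => F (e v))) : KL F :=
  fun g hg => InLW.of_comp e (h _ (hg.comp hpos e))

lemma KL_pos {F : V → ℝ} (hform : IsForm 4 F) (hp : ∀ v, v ≠ 0 → 0 < F v) (hpos : ∀ v, 0 ≤ F v) :
    KL F := by
  rintro g ⟨⟨ψ, hψ, hg⟩, -⟩
  refine ⟨ψ, fun i => ⟨hψ i, ?_⟩, hg⟩
  obtain ⟨C, hC, hCb⟩ := hom_bound 4 F (fun v => ψ i v ^ 2) hform.continuous
    ((hψ i).continuous.pow 2) hform.homog (fun s v => by
      simp only [(hψ i).homog s v]; ring) (by
      have := (hψ i).homog 0 0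
      simp only [smul_zero] at this
      rw [this]; simp) hp (hpos 0)
  exact ⟨C, hC.le, hCb⟩

lemma minors_zero {a d b a' d' b' l0 l1 l2 l3 : ℝ}
    (hN : ¬ (d * b' - b * d' = 0 ∧ b * a' - a * b' = 0 ∧ a * d' - d * a' = 0))
    (H1 : a * l0 + d * l1 + b * l2 = 0) (H2 : a * l1 + d * l2 + b * l3 = 0)
    (H1' : a' * l0 + d' * l1 + b' * l2 = 0) (H2' : a' * l1 + d' * l2 + b' * l3 = 0) :
    l0 * l2 = l1 ^ 2 ∧ l1 * l3 = l2 ^ 2 := by
  set N0 := d * b' - b * d' with hN0
  set N1 := b * a' - a * b' with hN1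
  set N2 := a * d' - d * a' with hN2
  have E1 : N1 * l2 - N2 * l1 = 0 := by rw [hN1, hN2]; linear_combination a' * H1 - a * H1'
  have E2 : N2 * l0 - N0 * l2 = 0 := by rw [hN0, hN2]; linear_combination d' * H1 - d * H1'
  have E3 : N0 * l1 - N1 * l0 = 0 := by rw [hN0, hN1]; linear_combination b' * H1 - b * H1'
  have E1' : N1 * l3 - N2 * l2 = 0 := by rw [hN1, hN2]; linear_combination a' * H2 - a * H2'
  have E2' : N2 * l1 - N0 * l3 = 0 := by rw [hN0, hN2]; linear_combination d' * H2 - d * H2'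
  have E3' : N0 * l2 - N1 * l1 = 0 := by rw [hN0, hN1]; linear_combination b' * H2 - b * H2'
  have A0 : N0 * (l0 * l2 - l1 ^ 2) = 0 := by linear_combination l0 * E3' - l1 * E3
  have A1 : N1 * (l0 * l2 - l1 ^ 2) = 0 := by
    linear_combination l0 * E1 + l1 * E3' + l1 * E2
  have A2 : N2 * (l0 * l2 - l1 ^ 2) = 0 := by
    linear_combination l2 * E2 + l1 * E1 + l2 * E3'
  have B0 : N0 * (l1 * l3 - l2 ^ 2) = 0 := by
    linear_combination -l1 * E2' - l2 * E3' - l1 * E1
  have B1 : N1 * (l1 * l3 - l2 ^ 2) = 0 := by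
    linear_combination l1 * E1' - l2 * E1
  have B2 : N2 * (l1 * l3 - l2 ^ 2) = 0 := by
    linear_combination -l3 * E1 + l2 * E1'
  constructor
  · by_contra hne
    apply hN
    have hne' : l0 * l2 - l1 ^ 2 ≠ 0 := sub_ne_zero.2 hne
    exact ⟨(mul_eq_zero.1 A0).resolve_right hne', (mul_eq_zero.1 A1).resolve_right hne',
      (mul_eq_zero.1 A2).resolve_right hne'⟩
  · by_contra hne
    apply hN
    have hne' : l1 * l3 - l2 ^ 2 ≠ 0 := sub_ne_zero.2 hne
    exact ⟨(mul_eq_zero.1 B0).resolve_right hne', (mul_eq_zero.1 B1).resolve_right hne',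
      (mul_eq_zero.1 B2).resolve_right hne'⟩

/-- the line trick -/
lemma KL_line {F : V → ℝ} (hform : IsForm 4 F) (hpos : ∀ v, 0 ≤ F v)
    (hline : ∀ x y : ℝ, (x ≠ 0 ∨ y ≠ 0) → 0 < F ![x, y, 0])
    {w w' : V → ℝ} (hw : W0 F w) (hw' : W0 F w') {p0 p1 r0 r1 : ℝ}
    (hwp : w ![p0, p1, 0] = 0) (hwp' : w' ![p0, p1, 0] ≠ 0) (hwr : w ![r0, r1, 0] ≠ 0) :
    KL F := by
  obtain ⟨q, hq, hFq⟩ := hilbert hform hpos
  have hqW : ∀ i, W0 F (q i) := by
    intro i
    refine ⟨hq i, 1, zero_le_one, fun v => ?_⟩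
    rw [one_mul, hFq]
    exact Finset.single_le_sum (f := fun i => q i v ^ 2) (fun i _ => sq_nonneg _)
      (Finset.mem_univ i)
  -- the restrictions to the line
  let A : Submodule ℝ (Fin 4 → ℝ) :=
    { carrier := {c | ∃ g', InLW F g' ∧ ∃ q' : V → ℝ, IsForm 2 q' ∧ ∀ v : V,
        c 0 * v 0 ^ 3 + c 1 * (v 0 ^ 2 * v 1) + c 2 * (v 0 * v 1 ^ 2) + c 3 * v 1 ^ 3 =
        g' v + v 2 * q' v}
      add_mem' := by
        rintro c c' ⟨g, hg, q, hq, h⟩ ⟨g', hg', q', hq', h'⟩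
        refine ⟨_, hg.add hg', _, hq.add hq', fun v => ?_⟩
        have h1 := h v
        have h2 := h' v
        simp only [Pi.add_apply]
        linarith
      zero_mem' := ⟨_, InLW.zero, _, IsForm.zero 2, fun v => by simp⟩
      smul_mem' := by
        rintro s c ⟨g, hg, q, hq, h⟩
        refine ⟨_, hg.smul s, _, hq.smul s, fun v => ?_⟩
        have h1 := h v
        simp only [Pi.smul_apply, smul_eq_mul]
        linear_combination s * h1 }
  have hA : A = ⊤ := by
    by_contra hne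
    obtain ⟨lam, hlam, hker⟩ := Submodule.exists_le_ker_of_lt_top A (lt_top_iff_ne_top.2 hne)
    have hval : ∀ c : Fin 4 → ℝ, lam c = c 0 * lam (Pi.single 0 1) + c 1 * lam (Pi.single 1 1) +
        c 2 * lam (Pi.single 2 1) + c 3 * lam (Pi.single 3 1) := by
      intro c
      have h2 : c = ∑ j, c j • (Pi.single j (1 : ℝ) : Fin 4 → ℝ) := by
        ext k
        simp [Finset.sum_apply, Pi.single_apply]
      conv_lhs => rw [h2]
      rw [map_sum, Fin.sum_univ_four]
      simp only [map_smul, smul_eq_mul]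
    set l0 := lam (Pi.single 0 1) with hl0
    set l1 := lam (Pi.single 1 1) with hl1
    set l2 := lam (Pi.single 2 1) with hl2
    set l3 := lam (Pi.single 3 1) with hl3
    -- relations for elements of W0
    have hrel : ∀ u : V → ℝ, IsForm 2 u → W0 F u → ∀ a b c d e f : ℝ,
        (∀ v, u v = a * v 0 ^ 2 + b * v 1 ^ 2 + c * v 2 ^ 2 + d * (v 0 * v 1) +
        e * (v 0 * v 2) + f * (v 1 * v 2)) →
        a * l0 + d * l1 + b * l2 = 0 ∧ a * l1 + d * l2 + b * l3 = 0 := by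
      intro u _ hu a b c d e f h
      constructor
      · have hm : ![a, d, b, 0] ∈ A := by
          refine ⟨_, InLW.of_mul (isForm_coord 0) hu, _,
            isForm2_mk (-e) 0 0 (-f) (-c) 0, fun v => ?_⟩
          rw [h]
          simp
          ring
        have := hker hm
        rw [LinearMap.mem_ker, hval] at this
        simp at this
        linarith
      · have hm : ![0, a, d, b] ∈ A := by
          refine ⟨_, InLW.of_mul (isForm_coord 1) hu, _,
            isForm2_mk 0 (-f) 0 (-e) 0 (-c), fun v => ?_⟩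
          rw [h]
          simp
          ring
        have := hker hm
        rw [LinearMap.mem_ker, hval] at this
        simp at this
        linarith
    obtain ⟨a, b, c, d, e, f, h⟩ := hw.1.nf2
    obtain ⟨a', b', c', d', e', f', h'⟩ := hw'.1.nf2
    obtain ⟨H1, H2⟩ := hrel w hw.1 hw a b c d e f h
    obtain ⟨H1', H2'⟩ := hrel w' hw'.1 hw' a' b' c' d' e' f' h'
    have hN : ¬ (d * b' - b * d' = 0 ∧ b * a' - a * b' = 0 ∧ a * d' - d * a' = 0) := by
      rintro ⟨n0, n1, n2⟩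
      rw [h] at hwp hwr
      rw [h'] at hwp'
      simp at hwp hwr hwp'
      apply hwr
      set W := a * r0 ^ 2 + b * r1 ^ 2 + d * (r0 * r1) with hW
      set W' := a' * p0 ^ 2 + b' * p1 ^ 2 + d' * (p0 * p1) with hW'
      have : W * W' = 0 := by
        rw [hW, hW']
        linear_combination (a' * r0 ^ 2 + b' * r1 ^ 2 + d' * (r0 * r1)) * hwp +
          (-r0 ^ 2 * p1 ^ 2 + r1 ^ 2 * p0 ^ 2) * n1 + (r0 ^ 2 * (p0 * p1) - r0 * r1 * p0 ^ 2) * n2 +
          (r0 * r1 * p1 ^ 2 - r1 ^ 2 * (p0 * p1)) * n0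
      exact (mul_eq_zero.1 this).resolve_right hwp'
    obtain ⟨M1, M2⟩ := minors_zero hN H1 H2 H1' H2'
    -- the common zero
    have hzero : ∃ s t : ℝ, (s ≠ 0 ∨ t ≠ 0) ∧ ∀ a d b : ℝ, a * l0 + d * l1 + b * l2 = 0 →
        a * l1 + d * l2 + b * l3 = 0 → a * s ^ 2 + b * t ^ 2 + d * (s * t) = 0 := by
      by_cases h01 : l0 ≠ 0 ∨ l1 ≠ 0
      · refine ⟨l0, l1, h01, fun a d b k1 k2 => ?_⟩
        linear_combination l0 * k1 - b * M1
      · push Not at h01
        have h2 : l2 = 0 := by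
          have : l2 ^ 2 = 0 := by rw [← M2, h01.2]; ring
          exact pow_eq_zero_iff two_ne_zero |>.1 this
        have h3 : l3 ≠ 0 := by
          intro h3
          apply hlam
          apply LinearMap.ext
          intro c
          rw [hval, h01.1, h01.2, h2, h3]
          simp
        refine ⟨0, 1, Or.inr one_ne_zero, fun a d b k1 k2 => ?_⟩
        rw [h01.2, h2] at k2
        have : b * l3 = 0 := by linarith
        have hb := (mul_eq_zero.1 this).resolve_right h3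
        rw [hb]; ring
    obtain ⟨s, t, hst, hz⟩ := hzero
    have hF0 := hline s t hst
    rw [hFq] at hF0
    have : ∀ i, q i ![s, t, 0] = 0 := by
      intro i
      obtain ⟨a, b, c, d, e, f, h⟩ := (hq i).nf2
      obtain ⟨k1, k2⟩ := hrel (q i) (hq i) (hqW i) a b c d e f h
      rw [h]
      simpa using hz a d b k1 k2
    simp [this] at hF0
  -- conclusion
  intro g hg
  obtain ⟨hgf, Cg, hCg, hgb⟩ := hg
  obtain ⟨a, b1, b2, c1, c2, c3, d1, d2, d3, d4, hgn⟩ := hgf.nf3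
  have hm : ![a, b1, c1, d1] ∈ A := by rw [hA]; trivial
  obtain ⟨g', hg', q', hq', hgq⟩ := hm
  have hgq' : ∀ v : V, a * v 0 ^ 3 + b1 * (v 0 ^ 2 * v 1) + c1 * (v 0 * v 1 ^ 2) + d1 * v 1 ^ 3 =
        g' v + v 2 * q' v := by
    intro v
    have := hgq v
    simpa using this
  set q2 : V → ℝ := fun v => q' v + (b2 * v 0 ^ 2 + d2 * v 1 ^ 2 + d4 * v 2 ^ 2 + c2 * (v 0 * v 1) +
      c3 * (v 0 * v 2) + d3 * (v 1 * v 2)) with hq2
  have hq2f : IsForm 2 q2 := hq'.add (isForm2_mk b2 d2 d4 c2 c3 d3)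
  have hdec : ∀ v, g v = g' v + v 2 * q2 v := by
    intro v
    rw [hgn, hq2]
    simp only
    linear_combination hgq' v
  obtain ⟨Cg', hCg', hgb'⟩ := hg'.bound
  -- q2 belongs to W0
  have hq2W : W0 F q2 := by
    obtain ⟨C1, hC1, hb1⟩ := hom_bound 4 (fun v => F v + v 2 ^ 2 * nsq v) (fun v => nsq v ^ 2)
      (hform.continuous.add (((continuous_apply 2).pow 2).mul continuous_nsq))
      (continuous_nsq.pow 2)
      (fun s v => by
        simp only [hform.homog s v, nsq_smul, Pi.smul_apply, smul_eq_mul]; ring)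
      (fun s v => by simp only [nsq_smul]; ring) (by simp [nsq])
      (fun v hv => by
        by_cases h2 : v 2 = 0
        · have h3 : v 0 ≠ 0 ∨ v 1 ≠ 0 := by
            by_contra hcon
            push Not at hcon
            apply hv
            rw [vec_eta v, hcon.1, hcon.2, h2]
            ext i; fin_cases i <;> rfl
          have h4 := hline (v 0) (v 1) h3
          have h5 : F v = F ![v 0, v 1, 0] := by
            conv_lhs => rw [vec_eta v, h2]
          rw [h2, h5]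
          simpa using h4
        · have h3 : 0 < v 2 ^ 2 * nsq v := mul_pos (by positivity) (nsq_pos hv)
          have := hpos v
          linarith) (by simp [nsq, hpos])
    obtain ⟨M, hM, hbM⟩ := hom_bound 4 (fun v => nsq v ^ 2) (fun v => q2 v ^ 2)
      (continuous_nsq.pow 2) (hq2f.continuous.pow 2)
      (fun s v => by simp only [nsq_smul]; ring)
      (fun s v => by simp only [hq2f.homog s v]; ring) (by
        have := hq2f.homog 0 0
        simp only [smul_zero] at this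
        rw [this]; simp) (fun v hv => by
          have := nsq_pos hv
          positivity) (by positivity)
    refine ⟨hq2f, C1 * (M + 2 * (Cg + Cg')), by positivity, fun v => ?_⟩
    by_cases hv : v = 0
    · subst hv
      have h1 := hq2f.homog 0 0
      simp only [smul_zero] at h1
      rw [h1]
      have := hpos 0
      have : 0 ≤ C1 * (M + 2 * (Cg + Cg')) * F 0 := by positivity
      simpa using this
    · have hn := nsq_pos hv
      have k1 := hb1 v
      have k2 := hbM v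
      have k3 : (v 2 * q2 v) ^ 2 ≤ 2 * (Cg + Cg') * (nsq v * F v) := by
        have e1 : v 2 * q2 v = g v - g' v := by rw [hdec]; ring
        rw [e1]
        have := hgb v
        have := hgb' v
        nlinarith [sq_nonneg (g v + g' v)]
      have k4 : q2 v ^ 2 * nsq v ^ 2 ≤ C1 * (q2 v ^ 2 * F v + nsq v * (v 2 * q2 v) ^ 2) := by
        calc q2 v ^ 2 * nsq v ^ 2 ≤ q2 v ^ 2 * (C1 * (F v + v 2 ^ 2 * nsq v)) :=
              mul_le_mul_of_nonneg_left k1 (sq_nonneg _)
          _ = _ := by ring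
      have k5 : q2 v ^ 2 * F v ≤ M * nsq v ^ 2 * F v := mul_le_mul_of_nonneg_right k2 (hpos v)
      have k6 : nsq v * (v 2 * q2 v) ^ 2 ≤ nsq v * (2 * (Cg + Cg') * (nsq v * F v)) :=
        mul_le_mul_of_nonneg_left k3 hn.le
      have k7 : q2 v ^ 2 * nsq v ^ 2 ≤ (C1 * (M + 2 * (Cg + Cg')) * F v) * nsq v ^ 2 := by
        calc q2 v ^ 2 * nsq v ^ 2 ≤ C1 * (q2 v ^ 2 * F v + nsq v * (v 2 * q2 v) ^ 2) := k4
          _ ≤ C1 * (M * nsq v ^ 2 * F v + nsq v * (2 * (Cg + Cg') * (nsq v * F v))) :=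
              mul_le_mul_of_nonneg_left (add_le_add k5 k6) hC1.le
          _ = _ := by ring
      exact le_of_mul_le_mul_right k7 (by positivity)
  have hfin := hg'.add (InLW.of_mul (isForm_coord 2) hq2W)
  exact hfin.congr fun v => hdec v

end Pool.Agent.H42.Q4
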