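import Pool.Agent.H42.Q4.KL1

/-!
The key property: squares, multiples of squares, and the dichotomy for lines.
-/

namespace Pool.Agent.H42.Q4

open Filter Topology

/-- `F` depends on all variables -/
def Nondeg (F : V → ℝ) : Prop := ∀ u : V, u ≠ 0 → ∃ (v : V) (s : ℝ), F (v + s • u) ≠ F v

lemma Nondeg.comp {F : V → ℝ} (h : Nondeg F) (e : V ≃ₗ[ℝ] V) : Nondeg (fun v => F (e v)) := by
  intro u hu
  obtain ⟨v, s, hvs⟩ := h (e u) (by simpa using hu)
  refine ⟨e.symm v, s, ?_⟩
  simpa using hvs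

lemma upper_equiv (a b c d e f : ℝ) (ha : a ≠ 0) (hd : d ≠ 0) (hf : f ≠ 0) :
    ∃ E : V ≃ₗ[ℝ] V, ∀ x y z : ℝ, E ![x, y, z] = ![a * x + b * y + c * z, d * y + e * z, f * z] := by
  have hli : LinearIndependent ℝ ![(![a, 0, 0] : V), ![b, d, 0], ![c, e, f]] := by
    apply li_triple
    intro r s t h
    have g0 := congrFun h 0
    have g1 := congrFun h 1
    have g2 := congrFun h 2
    simp at g0 g1 g2
    have ht : t = 0 := g2.resolve_right hf
    subst ht
    simp at g0 g1
    have hs : s = 0 := g1.resolve_right hd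
    subst hs
    simp at g0
    exact ⟨g0.resolve_right ha, rfl, rfl⟩
  obtain ⟨E, hE⟩ := exists_equiv3 hli
  refine ⟨E, fun x y z => ?_⟩
  rw [hE]
  ext k
  fin_cases k <;> simp <;> ring

lemma line_bound {F : V → ℝ} (hform : IsForm 4 F) (hpos : ∀ v, 0 ≤ F v)
    (hline : ∀ x y : ℝ, (x ≠ 0 ∨ y ≠ 0) → 0 < F ![x, y, 0]) :
    ∃ C : ℝ, 0 < C ∧ ∀ v, nsq v ^ 2 ≤ C * (F v + v 2 ^ 2 * nsq v) := by
  refine hom_bound 4 (fun v => F v + v 2 ^ 2 * nsq v) (fun v => nsq v ^ 2)
      (hform.continuous.add (((continuous_apply 2).pow 2).mul continuous_nsq))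
      (continuous_nsq.pow 2)
      (fun s v => by
        simp only [hform.homog s v, nsq_smul, Pi.smul_apply, smul_eq_mul]; ring)
      (fun s v => by simp only [nsq_smul]; ring) (by simp [nsq])
      (fun v hv => ?_) (by simp [nsq, hpos])
  by_cases h2 : v 2 = 0
  · have h3 : v 0 ≠ 0 ∨ v 1 ≠ 0 := by
      by_contra hcon
      push Not at hcon
      apply hv
      rw [vec_eta v, hcon.1, hcon.2, h2]
      ext i; fin_cases i <;> rfl
    have h4 := hline (v 0) (v 1) h3
    have h5 : F v = F ![v 0, v 1, 0] := by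
      conv_lhs => rw [vec_eta v, h2]
    rw [h2, h5]
    simpa using h4
  · have h3 : 0 < v 2 ^ 2 * nsq v := mul_pos (by positivity) (nsq_pos hv)
    have := hpos v
    linarith

/-- dichotomy for forms positive on a line -/
lemma KL_line' {F : V → ℝ} (hform : IsForm 4 F) (hpos : ∀ v, 0 ≤ F v)
    (hline : ∀ x y : ℝ, (x ≠ 0 ∨ y ≠ 0) → 0 < F ![x, y, 0]) :
    KL F ∨ ∃ p : V → ℝ, IsForm 2 p ∧ ∀ v, F v = (p v) ^ 2 := by
  obtain ⟨q, hq, hFq⟩ := hilbert hform hpos
  have hqW : ∀ i, W0 F (q i) := by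
    intro i
    refine ⟨hq i, 1, zero_le_one, fun v => ?_⟩
    rw [one_mul, hFq]
    exact Finset.single_le_sum (f := fun i => q i v ^ 2) (fun i _ => sq_nonneg _)
      (Finset.mem_univ i)
  have hex : ∀ v, 0 < F v → ∃ i, q i v ≠ 0 := by
    intro v hv
    by_contra hcon
    push Not at hcon
    rw [hFq] at hv
    simp [hcon] at hv
  obtain ⟨j, hj⟩ := hex _ (hline 1 0 (Or.inl one_ne_zero))
  set p := q j with hp
  set r : Fin 6 → V → ℝ := fun i v => q i v - (q i ![1, 0, 0] / p ![1, 0, 0]) * p v with hr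
  have hrW : ∀ i, W0 F (r i) := fun i =>
    ((hqW i).add ((hqW j).smul (-(q i ![1, 0, 0] / p ![1, 0, 0])))).congr
      fun v => by simp only [hr, hp]; ring
  have hr1 : ∀ i, r i ![1, 0, 0] = 0 := by
    intro i
    simp only [hr]
    field_simp
    ring
  by_cases hB : ∃ i, ∃ x y : ℝ, r i ![x, y, 0] ≠ 0
  · obtain ⟨i, x, y, hxy⟩ := hB
    left
    exact KL_line hform hpos hline (hrW i) (hqW j) (p0 := 1) (p1 := 0) (hr1 i) hj hxy
  push Not at hB
  by_cases hA : ∀ i v, r i v = 0
  · right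
    refine ⟨fun v => Real.sqrt (∑ i, (q i ![1, 0, 0] / p ![1, 0, 0]) ^ 2) * p v,
      (hq j).smul _, fun v => ?_⟩
    rw [mul_pow, Real.sq_sqrt (Finset.sum_nonneg fun i _ => sq_nonneg _), hFq, Finset.sum_mul]
    refine Finset.sum_congr rfl fun i _ => ?_
    have h1 := hA i v
    simp only [hr] at h1
    have h2 : q i v = q i ![1, 0, 0] / p ![1, 0, 0] * p v := by linarith
    rw [h2]; ring
  left
  push Not at hA
  obtain ⟨i, v0, hv0⟩ := hA
  obtain ⟨a, b, γ, d, α, β, hnf⟩ := (hrW i).1.nf2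
  have ha : a = 0 := by
    have := hB i 1 0
    rw [hnf] at this
    simpa using this
  have hb : b = 0 := by
    have := hB i 0 1
    rw [hnf] at this
    simpa using this
  have hd : d = 0 := by
    have := hB i 1 1
    rw [hnf, ha, hb] at this
    simpa using this
  subst ha hb hd
  have hnf' : ∀ x y z : ℝ, r i ![x, y, z] = z * (α * x + β * y + γ * z) := by
    intro x y z
    rw [hnf]
    simp
    ring
  obtain ⟨C, hC, hCb⟩ := line_bound hform hpos hline
  obtain ⟨δ, hδ, hδC⟩ : ∃ δ : ℝ, 0 < δ ∧ C * δ ^ 2 < 1 := by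
    refine ⟨Real.sqrt (1 / (2 * C)), Real.sqrt_pos.2 (by positivity), ?_⟩
    rw [Real.sq_sqrt (by positivity)]
    have : C * (1 / (2 * C)) = 1 / 2 := by field_simp
    rw [this]; norm_num
  have hFpos : ∀ v : V, v ≠ 0 → v 2 ^ 2 ≤ δ ^ 2 * nsq v → 0 < F v := by
    intro v hv hle
    have h1 := hCb v
    have hn := nsq_pos hv
    have h2 : C * (v 2 ^ 2 * nsq v) ≤ C * δ ^ 2 * nsq v ^ 2 := by
      calc C * (v 2 ^ 2 * nsq v) ≤ C * ((δ ^ 2 * nsq v) * nsq v) :=
            mul_le_mul_of_nonneg_left (mul_le_mul_of_nonneg_right hle hn.le) hC.le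
        _ = _ := by ring
    have h3 : C * δ ^ 2 * nsq v ^ 2 < 1 * nsq v ^ 2 :=
      mul_lt_mul_of_pos_right hδC (by positivity)
    have h4 : 0 < C * F v := by linarith
    exact pos_of_mul_pos_right h4 hC.le
  by_cases hcase : α + γ * δ ≠ 0 ∨ β ≠ 0
  · -- the line `z = δ x`
    obtain ⟨k, hk⟩ := hex _ (hline 0 1 (Or.inr one_ne_zero))
    have hli : LinearIndependent ℝ ![(![1, 0, δ] : V), ![0, 1, 0], ![0, 0, 1]] := by
      apply li_triple
      intro r s t h
      have g0 := congrFun h 0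
      have g1 := congrFun h 1
      have g2 := congrFun h 2
      simp at g0 g1 g2
      subst g0 g1
      simp at g2
      exact ⟨rfl, rfl, g2⟩
    obtain ⟨e, he⟩ := exists_equiv3 hli
    have he' : ∀ x y z : ℝ, e ![x, y, z] = ![x, y, δ * x + z] := by
      intro x y z
      rw [he]
      ext k
      fin_cases k <;> simp
      ring
    have hl : ∀ x y : ℝ, (x ≠ 0 ∨ y ≠ 0) → 0 < F (e ![x, y, 0]) := by
      intro x y hxy
      apply hFpos
      · intro h0
        have : (![x, y, 0] : V) = 0 := by simpa using h0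
        have h1 := congrFun this 0
        have h2 := congrFun this 1
        simp at h1 h2
        rcases hxy with h | h
        · exact h h1
        · exact h h2
      · rw [he']
        simp [nsq]
        nlinarith [sq_nonneg (δ * y), sq_nonneg (δ * (δ * x))]
    have hfin : ∃ r0 r1 : ℝ, r i (e ![r0, r1, 0]) ≠ 0 := by
      by_cases h1 : α + γ * δ = 0
      · have hβ := hcase.resolve_left (by simpa using h1)
        refine ⟨1, 1, ?_⟩
        rw [he', hnf']
        have : (δ * 1 + 0) * (α * 1 + β * 1 + γ * (δ * 1 + 0)) = δ * β := by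
          linear_combination δ * h1
        rw [this]
        exact mul_ne_zero hδ.ne' hβ
      · refine ⟨1, 0, ?_⟩
        rw [he', hnf']
        have : (δ * 1 + 0) * (α * 1 + β * 0 + γ * (δ * 1 + 0)) = δ * (α + γ * δ) := by ring
        rw [this]
        exact mul_ne_zero hδ.ne' h1
    obtain ⟨r0, r1, hr01⟩ := hfin
    apply KL.of_comp hpos e
    apply KL_line (F := fun v => F (e v)) (hform.comp e.toLinearMap) (fun v => hpos _) hl
      ((hrW i).comp e.toLinearMap) ((hqW k).comp e.toLinearMap) (p0 := 0) (p1 := 1) (r0 := r0)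
      (r1 := r1)
    · show r i (e ![0, 1, 0]) = 0
      rw [he', hnf']; ring
    · show q k (e ![0, 1, 0]) ≠ 0
      rw [he']
      simpa using hk
    · exact hr01
  · -- the line `z = δ y`
    push Not at hcase
    obtain ⟨hc1, hc2⟩ := hcase
    subst hc2
    have hγ : γ ≠ 0 := by
      rintro rfl
      apply hv0
      rw [hnf]
      have : α = 0 := by simpa using hc1
      rw [this]; ring
    have hli : LinearIndependent ℝ ![(![1, 0, 0] : V), ![0, 1, δ], ![0, 0, 1]] := by
      apply li_triple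
      intro r s t h
      have g0 := congrFun h 0
      have g1 := congrFun h 1
      have g2 := congrFun h 2
      simp at g0 g1 g2
      subst g0 g1
      simp at g2
      exact ⟨rfl, rfl, g2⟩
    obtain ⟨e, he⟩ := exists_equiv3 hli
    have he' : ∀ x y z : ℝ, e ![x, y, z] = ![x, y, δ * y + z] := by
      intro x y z
      rw [he]
      ext k
      fin_cases k <;> simp
      ring
    have hl : ∀ x y : ℝ, (x ≠ 0 ∨ y ≠ 0) → 0 < F (e ![x, y, 0]) := by
      intro x y hxy
      apply hFpos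
      · intro h0
        have : (![x, y, 0] : V) = 0 := by simpa using h0
        have h1 := congrFun this 0
        have h2 := congrFun this 1
        simp at h1 h2
        rcases hxy with h | h
        · exact h h1
        · exact h h2
      · rw [he']
        simp [nsq]
        nlinarith [sq_nonneg (δ * x), sq_nonneg (δ * (δ * y))]
    apply KL.of_comp hpos e
    apply KL_line (F := fun v => F (e v)) (hform.comp e.toLinearMap) (fun v => hpos _) hl
      ((hrW i).comp e.toLinearMap) ((hqW j).comp e.toLinearMap) (p0 := 1) (p1 := 0) (r0 := 0)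
      (r1 := 1)
    · show r i (e ![1, 0, 0]) = 0
      rw [he', hnf']; ring
    · show q j (e ![1, 0, 0]) ≠ 0
      rw [he']
      simpa using hj
    · show r i (e ![0, 1, 0]) ≠ 0
      rw [he', hnf']
      have : (δ * 1 + 0) * (α * 0 + 0 * 1 + γ * (δ * 1 + 0)) = δ * (γ * δ) := by ring
      rw [this]
      exact mul_ne_zero hδ.ne' (mul_ne_zero hγ hδ.ne')

lemma sextic_zero {P0 P1 P2 P3 P4 P5 P6 : ℝ} (h : ∀ s t : ℝ, P0 * s ^ 6 + P1 * (s ^ 5 * t) +
    P2 * (s ^ 4 * t ^ 2) + P3 * (s ^ 3 * t ^ 3) + P4 * (s ^ 2 * t ^ 4) + P5 * (s * t ^ 5) +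
    P6 * t ^ 6 = 0) :
    P0 = 0 ∧ P1 = 0 ∧ P2 = 0 ∧ P3 = 0 ∧ P4 = 0 ∧ P5 = 0 ∧ P6 = 0 := by
  have h1 := h 1 0
  have h2 := h 0 1
  have h3 := h 1 1
  have h4 := h 1 (-1)
  have h5 := h 1 2
  have h6 := h 1 (-2)
  have h7 := h 1 3
  norm_num at h1 h2 h3 h4 h5 h6 h7
  refine ⟨?_, ?_, ?_, ?_, ?_, ?_, ?_⟩ <;> linarith

end Pool.Agent.H42.Q4
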