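import Pool.Agent.H42.Q4.KL2

/-!
The key property: squares and multiples of squares.
-/

namespace Pool.Agent.H42.Q4

open Filter Topology

lemma KL_sq_aux {q : V → ℝ} (hq : IsForm 2 q) {α β c1 c2 c3 : ℝ} (hα : α ≠ 0)
    (hqn : ∀ x y z : ℝ, q ![x, y, z] = x * (α * y + β * z) +
      (c1 * y ^ 2 + c2 * (y * z) + c3 * z ^ 2))
    (hnd : Nondeg (fun v => (q v) ^ 2)) : KL (fun v => (q v) ^ 2) := by
  obtain ⟨e, he⟩ := upper_equiv 1 (-(c1 / α ^ 2)) (-(-2 * β * c1 / α ^ 2 + c2 / α)) (1 / α)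
    (-β / α) 1 one_ne_zero (one_div_ne_zero hα) one_ne_zero
  obtain ⟨c0, hc0⟩ : ∃ c0 : ℝ, ∀ x y z : ℝ, q (e ![x, y, z]) = x * y + c0 * z ^ 2 := by
    refine ⟨c1 * β ^ 2 / α ^ 2 - c2 * β / α + c3, fun x y z => ?_⟩
    rw [he, hqn]
    field_simp
    ring
  have hc0' : c0 ≠ 0 := by
    rintro rfl
    have hne : e ![0, 0, 1] ≠ 0 := by
      intro h
      rw [map_eq_zero_iff e e.injective] at h
      have := congrFun h 2
      simp at this
    obtain ⟨v, s, hvs⟩ := hnd _ hne
    apply hvs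
    have h1 : v = e ![e.symm v 0, e.symm v 1, e.symm v 2] := by
      rw [← vec_eta]; simp
    have h2 : v + s • e ![0, 0, 1] = e ![e.symm v 0, e.symm v 1, e.symm v 2 + s] := by
      conv_lhs => rw [h1]
      rw [← map_smul, ← map_add]
      congr 1
      ext k
      fin_cases k <;> simp
    simp only
    rw [h2, hc0]
    conv_rhs => rw [h1, hc0]
    ring
  apply KL.of_comp (fun v => sq_nonneg _) e
  rintro g ⟨hg, C, hC, hb⟩
  obtain ⟨a, b1, b2, k1, k2, k3, d1, d2, d3, d4, hn⟩ := hg.nf3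
  have hzero : ∀ s t : ℝ, g ![-c0 * s ^ 2, t ^ 2, s * t] = 0 := by
    intro s t
    have h1 := hb ![-c0 * s ^ 2, t ^ 2, s * t]
    simp only at h1
    rw [hc0] at h1
    have h2 : -c0 * s ^ 2 * t ^ 2 + c0 * (s * t) ^ 2 = 0 := by ring
    rw [h2] at h1
    have h3 : g ![-c0 * s ^ 2, t ^ 2, s * t] ^ 2 ≤ 0 := by simpa using h1
    exact pow_eq_zero_iff two_ne_zero |>.1 (le_antisymm h3 (sq_nonneg _))
  obtain ⟨P0, P1, P2, P3, P4, P5, P6⟩ := sextic_zero (P0 := -a * c0 ^ 3) (P1 := b2 * c0 ^ 2)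
    (P2 := b1 * c0 ^ 2 - c0 * k3) (P3 := d4 - c0 * k2) (P4 := d3 - c0 * k1) (P5 := d2) (P6 := d1)
    (fun s t => by
      have := hzero s t
      rw [hn] at this
      simp at this
      linarith)
  have ha : a = 0 := by
    have h3 : c0 ^ 3 ≠ 0 := pow_ne_zero _ hc0'
    have : a * c0 ^ 3 = 0 := by linarith
    exact (mul_eq_zero.1 this).resolve_right h3
  have hb2 : b2 = 0 := (mul_eq_zero.1 P1).resolve_right (pow_ne_zero _ hc0')
  have hk3 : k3 = c0 * b1 := by
    have : c0 * (b1 * c0 - k3) = 0 := by linarith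
    have := (mul_eq_zero.1 this).resolve_left hc0'
    linarith
  have hd4 : d4 = c0 * k2 := by linarith
  have hd3 : d3 = c0 * k1 := by linarith
  subst ha hb2 hk3 hd4 hd3 P5 P6
  have hW : W0 (fun v => q (e v) ^ 2) (fun v => q (e v)) :=
    ⟨hq.comp e.toLinearMap, 1, zero_le_one, fun v => by simp⟩
  refine (InLW.of_mul (isForm1_mk b1 k1 k2) hW).congr fun v => ?_
  rw [hn]
  have h1 : q (e v) = v 0 * v 1 + c0 * v 2 ^ 2 := by
    conv_lhs => rw [vec_eta v, hc0]
  rw [h1]
  ring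

lemma KL_sq {q : V → ℝ} (hq : IsForm 2 q) (hnd : Nondeg (fun v => (q v) ^ 2))
    (hz : ∃ v : V, v ≠ 0 ∧ q v = 0) : KL (fun v => (q v) ^ 2) := by
  obtain ⟨v0, hv0, hqv⟩ := hz
  obtain ⟨e, he⟩ := exists_equiv1 hv0
  apply KL.of_comp (fun v => sq_nonneg _) e
  have hq1 : IsForm 2 (fun v => q (e v)) := hq.comp e.toLinearMap
  have hnd1 : Nondeg (fun v => (q (e v)) ^ 2) := hnd.comp e
  obtain ⟨a, b, c, d, f, g, h⟩ := hq1.nf2
  have ha : a = 0 := by
    have := h ![1, 0, 0]
    rw [he, hqv] at this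
    simpa using this.symm
  subst ha
  have h' : ∀ x y z : ℝ, q (e ![x, y, z]) = x * (d * y + f * z) +
      (b * y ^ 2 + g * (y * z) + c * z ^ 2) := by
    intro x y z
    rw [h]; simp; ring
  by_cases hd : d = 0
  · by_cases hf : f = 0
    · exfalso
      subst hd hf
      obtain ⟨v, s, hvs⟩ := hnd1 ![1, 0, 0] (by
        intro h; have := congrFun h 0; simp at this)
      apply hvs
      simp only
      rw [h, h]
      simp
    · apply KL.of_comp (fun v => sq_nonneg _) (swapE 1 2)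
      apply KL_sq_aux (q := fun v => q (e (swapE 1 2 v))) (hq1.comp (swapE 1 2).toLinearMap)
        (α := f) (β := d) (c1 := c) (c2 := g) (c3 := b) hf
      · intro x y z
        rw [swapE_12, h']; ring
      · exact hnd1.comp (swapE 1 2)
  · exact KL_sq_aux hq1 hd h' hnd1

/-- linear maps to `ℝ` are forms -/
lemma isForm1_linear (l : V →ₗ[ℝ] ℝ) : IsForm 1 (fun v => l v) := by
  refine (isForm1_mk (l (Pi.single 0 1)) (l (Pi.single 1 1)) (l (Pi.single 2 1))).congr fun v => ?_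
  have h2 : v = ∑ j, v j • (Pi.single j (1 : ℝ) : V) := by
    ext k
    simp [Finset.sum_apply, Pi.single_apply]
  conv_lhs => rw [h2]
  rw [map_sum, Fin.sum_univ_three]
  simp only [map_smul, smul_eq_mul]
  ring

lemma quad_lemma {h p : V → ℝ} (hh : IsForm 2 h) (hhpos : ∀ v, 0 ≤ h v) (hp : IsForm 2 p)
    {C : ℝ} (hb : ∀ v, p v ^ 2 ≤ C * (nsq v * h v)) :
    ∃ n : Fin 3 → V → ℝ, (∀ i, IsForm 1 (n i) ∧ ∃ K : ℝ, 0 ≤ K ∧ ∀ v, n i v ^ 2 ≤ K * h v) ∧
      ∀ v, p v = ∑ i, v i * n i v := by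
  -- factorisation of `h`
  obtain ⟨B, hB⟩ : ∃ B : Fin 3 → Fin 3 → ℝ, ∀ v : V, h v = ∑ k, (∑ i, B k i * v i) ^ 2 := by
    obtain ⟨a, b, c, d, e, f, hn⟩ := hh.nf2
    have hval : ∀ v : V, h v = qv ![![a, d / 2, e / 2], ![d / 2, b, f / 2], ![e / 2, f / 2, c]] v := by
      intro v
      rw [hn]
      simp [qv, Fin.sum_univ_three]
      ring
    obtain ⟨B, hB⟩ := psd_factor ![![a, d / 2, e / 2], ![d / 2, b, f / 2], ![e / 2, f / 2, c]]
      (by intro i j; fin_cases i <;> fin_cases j <;> rfl) (fun v => by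
        rw [← hval]; exact hhpos v)
    exact ⟨B, fun v => by rw [hval, hB]⟩
  set L : V →ₗ[ℝ] V := Matrix.mulVecLin (Matrix.of B) with hL
  have hLh : ∀ v, h v = nsq (L v) := by
    intro v
    rw [hB, Fin.sum_univ_three]
    simp only [nsq, hL, Matrix.mulVecLin_apply, Matrix.mulVec, dotProduct, Matrix.of_apply]
  set K := LinearMap.ker L with hK
  obtain ⟨K', hK'⟩ := Submodule.exists_isCompl K
  set P : V →ₗ[ℝ] K' := Submodule.projectionOnto K' K hK'.symm with hP
  have hPker : ∀ v : V, v - (P v : V) ∈ K := by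
    intro v
    have h1 : P (v - (P v : V)) = 0 := by
      rw [map_sub, hP, Submodule.projectionOnto_apply_left, sub_self]
    rw [hP, Submodule.projectionOnto_apply_eq_zero_iff] at h1
    exact h1
  have hLP : ∀ v : V, L (P v : V) = L v := by
    intro v
    have := hPker v
    rw [hK, LinearMap.mem_ker, map_sub, sub_eq_zero] at this
    exact this.symm
  have hhP : ∀ v : V, h (P v : V) = h v := fun v => by rw [hLh, hLh, hLP]
  have hpP : ∀ v : V, p (v - (P v : V)) = 0 := by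
    intro v
    have h1 := hb (v - (P v : V))
    have h2 : h (v - (P v : V)) = 0 := by
      rw [hLh]
      have := hPker v
      rw [hK, LinearMap.mem_ker] at this
      rw [this]; simp [nsq]
    rw [h2] at h1
    have h3 : p (v - (P v : V)) ^ 2 ≤ 0 := by simpa using h1
    exact pow_eq_zero_iff two_ne_zero |>.1 (le_antisymm h3 (sq_nonneg _))
  have hhpos' : ∀ u : K', u ≠ 0 → 0 < h (u : V) := by
    intro u hu
    rcases (hhpos (u : V)).eq_or_lt with h0 | h0
    · exfalso
      have h1 : L (u : V) = 0 := by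
        by_contra hne
        have := nsq_pos hne
        rw [← hLh, ← h0] at this
        exact lt_irrefl _ this
      have h2 : (u : V) ∈ K := by rw [hK, LinearMap.mem_ker]; exact h1
      have h3 := Submodule.disjoint_def.1 hK'.disjoint _ h2 u.2
      exact hu (Subtype.ext h3)
    · exact h0
  have hbound : ∀ l : V →ₗ[ℝ] ℝ, ∃ M : ℝ, 0 ≤ M ∧ ∀ v, (l (P v : V)) ^ 2 ≤ M * h v := by
    intro l
    have hlc : Continuous l := LinearMap.continuous_of_finiteDimensional l
    obtain ⟨M, hM, hMb⟩ := hom_bound (E := K') 2 (fun u => h (u : V)) (fun u => (l (u : V)) ^ 2)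
      (hh.continuous.comp continuous_subtype_val) ((hlc.comp continuous_subtype_val).pow 2)
      (fun s v => by
        show h ((s • v : K') : V) = _
        rw [Submodule.coe_smul, hh.homog s (v : V)])
      (fun s v => by
        show (l ((s • v : K') : V)) ^ 2 = _
        rw [Submodule.coe_smul, map_smul, smul_eq_mul]; ring) (by simp) hhpos'
      (by simpa using hhpos 0)
    refine ⟨M, hM.le, fun v => ?_⟩
    have := hMb (P v)
    rwa [hhP] at this
  -- polarisation
  obtain ⟨a, b, c, d, e, f, hn⟩ := hp.nf2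
  set S : Fin 3 → Fin 3 → ℝ := ![![a, d / 2, e / 2], ![d / 2, b, f / 2], ![e / 2, f / 2, c]] with hS
  have hSp : ∀ v : V, p v = ∑ i, ∑ j, S i j * v i * v j := by
    intro v
    rw [hn]
    simp [hS, Fin.sum_univ_three]
    ring
  have hSs : ∀ i j, S i j = S j i := by
    intro i j; fin_cases i <;> fin_cases j <;> rfl
  let P' : V →ₗ[ℝ] V := K'.subtype ∘ₗ P
  let l : Fin 3 → V →ₗ[ℝ] ℝ := fun i =>
    { toFun := fun u => ∑ j, (2 * S i j - ∑ k, P' (Pi.single i 1) k * S k j) * u j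
      map_add' := by
        intro x y
        simp only [Pi.add_apply, mul_add, Finset.sum_add_distrib]
      map_smul' := by
        intro s x
        simp only [Pi.smul_apply, smul_eq_mul, RingHom.id_apply, Finset.mul_sum]
        exact Finset.sum_congr rfl fun j _ => by ring }
  refine ⟨fun i v => l i (P' v), fun i => ⟨?_, ?_⟩, fun v => ?_⟩
  · exact isForm1_linear ((l i).comp P')
  · exact hbound (l i)
  · have hPv : ∀ k, P' v k = ∑ i, v i * P' (Pi.single i 1) k := by
      intro k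
      have h2 : v = ∑ j, v j • (Pi.single j (1 : ℝ) : V) := by
        ext k
        simp [Finset.sum_apply, Pi.single_apply]
      conv_lhs => rw [h2]
      rw [map_sum, Finset.sum_apply]
      refine Finset.sum_congr rfl fun j _ => ?_
      rw [map_smul]; rfl
    have h0 : p (v - P' v) = 0 := hpP v
    rw [hSp] at h0
    have h1 : ∑ i, v i * l i (P' v) = 2 * (∑ i, ∑ j, S i j * v i * P' v j) -
        ∑ k, ∑ j, S k j * P' v k * P' v j := by
      have e1 : ∑ i, v i * l i (P' v) = ∑ i, ∑ j, (2 * (S i j * v i * P' v j) -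
          ∑ k, v i * P' (Pi.single i 1) k * S k j * P' v j) := by
        refine Finset.sum_congr rfl fun i _ => ?_
        show v i * (∑ j, (2 * S i j - ∑ k, P' (Pi.single i 1) k * S k j) * P' v j) = _
        rw [Finset.mul_sum]
        refine Finset.sum_congr rfl fun j _ => ?_
        rw [sub_mul, mul_sub, Finset.sum_mul, Finset.mul_sum]
        congr 1
        · ring
        · exact Finset.sum_congr rfl fun k _ => by ring
      rw [e1]
      simp only [Finset.sum_sub_distrib, ← Finset.mul_sum]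
      congr 1
      have e2 : ∑ i, ∑ j, ∑ k, v i * P' (Pi.single i 1) k * S k j * P' v j =
          ∑ k, ∑ j, ∑ i, v i * P' (Pi.single i 1) k * S k j * P' v j := by
        rw [Finset.sum_comm]
        rw [Finset.sum_congr rfl fun j _ => Finset.sum_comm]
        rw [Finset.sum_comm]
      rw [e2]
      refine Finset.sum_congr rfl fun k _ => Finset.sum_congr rfl fun j _ => ?_
      rw [← Finset.sum_mul, ← Finset.sum_mul, ← hPv]
      ring
    rw [h1, hSp]
    have h2 : ∑ i, ∑ j, S i j * (v - P' v) i * (v - P' v) j =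
        (∑ i, ∑ j, S i j * v i * v j) - 2 * (∑ i, ∑ j, S i j * v i * P' v j) +
        ∑ k, ∑ j, S k j * P' v k * P' v j := by
      simp only [Fin.sum_univ_three, Pi.sub_apply]
      rw [hSs 1 0, hSs 2 0, hSs 2 1]
      ring
    rw [h2] at h0
    linarith

lemma KL_m2h {F h : V → ℝ} (hh : IsForm 2 h) (hhpos : ∀ v, 0 ≤ h v)
    (hF : ∀ v, F v = v 0 ^ 2 * h v) : KL F := by
  rintro g ⟨hg, C, hC, hb⟩
  obtain ⟨a, b1, b2, c1, c2, c3, d1, d2, d3, d4, hn⟩ := hg.nf3
  have hz : ∀ y z : ℝ, d1 * y ^ 3 + d2 * (y ^ 2 * z) + d3 * (y * z ^ 2) + d4 * z ^ 3 = 0 := by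
    intro y z
    have h1 := hb ![0, y, z]
    rw [hF, hn] at h1
    simp at h1
    have h2 : (d1 * y ^ 3 + d2 * (y ^ 2 * z) + d3 * (y * z ^ 2) + d4 * z ^ 3) ^ 2 ≤ 0 := by
      simpa using h1
    exact pow_eq_zero_iff two_ne_zero |>.1 (le_antisymm h2 (sq_nonneg _))
  set p : V → ℝ := fun v => a * v 0 ^ 2 + c1 * v 1 ^ 2 + c3 * v 2 ^ 2 + b1 * (v 0 * v 1) +
    b2 * (v 0 * v 2) + c2 * (v 1 * v 2) with hp
  have hpf : IsForm 2 p := isForm2_mk a c1 c3 b1 b2 c2
  have hgp : ∀ v, g v = v 0 * p v := by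
    intro v
    rw [hn, hz]
    simp only [hp]
    ring
  have hpb : ∀ v, p v ^ 2 ≤ C * (nsq v * h v) := by
    have h1 : ∀ v : V, v 0 ≠ 0 → 0 ≤ C * (nsq v * h v) - p v ^ 2 := by
      intro v hv
      have h2 := hb v
      rw [hgp, hF] at h2
      have h3 : v 0 ^ 2 * (p v ^ 2) ≤ v 0 ^ 2 * (C * (nsq v * h v)) := by linarith
      have h4 : 0 < v 0 ^ 2 := by positivity
      have := le_of_mul_le_mul_left h3 h4
      linarith
    intro v
    by_cases hv : v 0 = 0
    · have hcc : Continuous (fun ε : ℝ => v + ε • (![1, 0, 0] : V)) := by fun_prop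
      have h2 := nonneg_of_ne (fun ε : ℝ => C * (nsq (v + ε • (![1, 0, 0] : V)) *
        h (v + ε • (![1, 0, 0] : V))) - p (v + ε • (![1, 0, 0] : V)) ^ 2)
        (by
          have k1 := continuous_nsq.comp hcc
          have k2 := hh.continuous.comp hcc
          have k3 := hpf.continuous.comp hcc
          exact ((k1.mul k2).const_mul C).sub (k3.pow 2)) (fun ε hε => by
            apply h1
            simpa [hv] using hε)
      simp only [zero_smul, add_zero] at h2
      linarith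
    · linarith [h1 v hv]
  obtain ⟨n, hnn, hpn⟩ := quad_lemma hh hhpos hpf hpb
  refine ⟨fun i v => v 0 * n i v, fun i => ?_, fun v => ?_⟩
  · obtain ⟨h1, K, hK, hKb⟩ := hnn i
    refine ⟨h1.coord_mul 0, K, hK, fun v => ?_⟩
    rw [hF]
    have := mul_le_mul_of_nonneg_left (hKb v) (sq_nonneg (v 0))
    simp only
    nlinarith
  · rw [hgp, hpn, Finset.mul_sum]
    exact Finset.sum_congr rfl fun i _ => by ring

lemma KL_plane {F : V → ℝ} (hform : IsForm 4 F) (hpos : ∀ v, 0 ≤ F v)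
    (hz : ∀ y z : ℝ, F ![0, y, z] = 0) : KL F := by
  obtain ⟨a, b1, b2, c1, c2, c3, d1, d2, d3, d4, e1, e2, e3, e4, e5, hn⟩ := hform.nf4
  have he : ∀ y z : ℝ, e1 * y ^ 4 + e2 * (y ^ 3 * z) + e3 * (y ^ 2 * z ^ 2) + e4 * (y * z ^ 3) +
      e5 * z ^ 4 = 0 := by
    intro y z
    have := hz y z
    rw [hn] at this
    simpa using this
  have hn' : ∀ x y z : ℝ, F ![x, y, z] = x * (a * x ^ 3 + x ^ 2 * (b1 * y + b2 * z) +
      x * (c1 * y ^ 2 + c2 * (y * z) + c3 * z ^ 2) +
      (d1 * y ^ 3 + d2 * (y ^ 2 * z) + d3 * (y * z ^ 2) + d4 * z ^ 3)) := by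
    intro x y z
    have h1 := hn ![x, y, z]
    have h2 := he y z
    simp at h1
    rw [h1]
    linear_combination h2
  have hd : ∀ y z : ℝ, d1 * y ^ 3 + d2 * (y ^ 2 * z) + d3 * (y * z ^ 2) + d4 * z ^ 3 = 0 := by
    intro y z
    set φ : ℝ → ℝ := fun x => a * x ^ 3 + x ^ 2 * (b1 * y + b2 * z) +
      x * (c1 * y ^ 2 + c2 * (y * z) + c3 * z ^ 2) +
      (d1 * y ^ 3 + d2 * (y ^ 2 * z) + d3 * (y * z ^ 2) + d4 * z ^ 3) with hφ
    have hφc : Continuous φ := by rw [hφ]; fun_prop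
    have h0 : φ 0 = d1 * y ^ 3 + d2 * (y ^ 2 * z) + d3 * (y * z ^ 2) + d4 * z ^ 3 := by
      simp [hφ]
    have hx : ∀ x, 0 ≤ x * φ x := fun x => by
      have := hpos ![x, y, z]
      rwa [hn'] at this
    rw [← h0]
    apply le_antisymm
    · have h1 := nonneg_of_ne (fun t => -φ (-t ^ 2)) (by fun_prop) (fun t ht => by
        have := hx (-t ^ 2)
        have h2 : 0 < t ^ 2 := by positivity
        nlinarith)
      simpa using h1
    · have h1 := nonneg_of_ne (fun t => φ (t ^ 2)) (by fun_prop) (fun t ht => by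
        have := hx (t ^ 2)
        have h2 : 0 < t ^ 2 := by positivity
        exact nonneg_of_mul_nonneg_right this h2)
      simpa using h1
  set h : V → ℝ := fun v => a * v 0 ^ 2 + c1 * v 1 ^ 2 + c3 * v 2 ^ 2 + b1 * (v 0 * v 1) +
    b2 * (v 0 * v 2) + c2 * (v 1 * v 2) with hh
  have hhf : IsForm 2 h := isForm2_mk a c1 c3 b1 b2 c2
  have hFh : ∀ v, F v = v 0 ^ 2 * h v := by
    intro v
    conv_lhs => rw [vec_eta v]
    rw [hn', hd]
    simp only [hh]
    ring
  apply KL_m2h hhf _ hFh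
  have h1 : ∀ v : V, v 0 ≠ 0 → 0 ≤ h v := by
    intro v hv
    have h2 := hpos v
    rw [hFh] at h2
    exact nonneg_of_mul_nonneg_right h2 (by positivity)
  intro v
  by_cases hv : v 0 = 0
  · have hcc : Continuous (fun ε : ℝ => v + ε • (![1, 0, 0] : V)) := by fun_prop
    have h2 := nonneg_of_ne (fun ε : ℝ => h (v + ε • (![1, 0, 0] : V)))
      (hhf.continuous.comp hcc) (fun ε hε => by
          apply h1
          simpa [hv] using hε)
    simpa using h2
  · exact h1 v hv

end Pool.Agent.H42.Q4
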