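import Pool.Agent.H42.Q4.KL3

/-!
The key property holds for every nondegenerate nonnegative ternary quartic.
-/

namespace Pool.Agent.H42.Q4

open Filter Topology

lemma KL_of_sq_eq {F p : V → ℝ} (hp : IsForm 2 p) (hF : ∀ v, F v = (p v) ^ 2) (hnd : Nondeg F)
    (hz : ∃ v : V, v ≠ 0 ∧ F v = 0) : KL F := by
  have hFe : F = fun v => (p v) ^ 2 := funext hF
  rw [hFe] at hnd ⊢
  apply KL_sq hp hnd
  obtain ⟨v, hv, h0⟩ := hz
  refine ⟨v, hv, ?_⟩
  rw [hF] at h0
  exact pow_eq_zero_iff two_ne_zero |>.1 h0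

lemma e1_ne : (![1, 0, 0] : V) ≠ 0 := by
  intro h; have := congrFun h 0; simp at this

/-- a form whose zeros lie on finitely many lines is positive on some plane -/
lemma KL_finite {F : V → ℝ} (hform : IsForm 4 F) (hpos : ∀ v, 0 ≤ F v) (hnd : Nondeg F)
    (S : Finset V) (hS : ∀ s ∈ S, s ≠ 0) (h1 : ![1, 0, 0] ∈ S) (hz : F ![1, 0, 0] = 0)
    (hzero : ∀ y z x : ℝ, (y ≠ 0 ∨ z ≠ 0) → F ![x, y, z] = 0 →
      ∃ s ∈ S, ∃ r : ℝ, ![x, y, z] = r • s) : KL F := by
  obtain ⟨m, hm⟩ := Module.exists_dual_forall_apply_ne_zero (K := ℝ) (fun s : S => (s : V))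
    (fun s => hS _ s.2)
  have hm0 : m ![1, 0, 0] ≠ 0 := hm ⟨_, h1⟩
  set m0 := m ![1, 0, 0] with hm0'
  set m1 := m ![0, 1, 0] with hm1'
  set m2 := m ![0, 0, 1] with hm2'
  have hmv : ∀ x y z : ℝ, m ![x, y, z] = x * m0 + y * m1 + z * m2 := by
    intro x y z
    have : (![x, y, z] : V) = x • ![1, 0, 0] + y • ![0, 1, 0] + z • ![0, 0, 1] := by
      ext k; fin_cases k <;> simp
    rw [this, map_add, map_add, map_smul, map_smul, map_smul]
    simp only [smul_eq_mul, hm0', hm1', hm2']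
  have hli : LinearIndependent ℝ ![(![-m1 / m0, 1, 0] : V), ![-m2 / m0, 0, 1], ![1 / m0, 0, 0]] := by
    apply li_triple
    intro r s t h
    have g0 := congrFun h 0
    have g1 := congrFun h 1
    have g2 := congrFun h 2
    simp at g0 g1 g2
    subst g1 g2
    simp at g0
    exact ⟨rfl, rfl, g0.resolve_right hm0⟩
  obtain ⟨e, he⟩ := exists_equiv3 hli
  have he' : ∀ x y : ℝ, e ![x, y, 0] = ![(-m1 * x - m2 * y) / m0, x, y] := by
    intro x y
    rw [he]
    ext k
    fin_cases k <;> simp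
    ring
  have hl : ∀ x y : ℝ, (x ≠ 0 ∨ y ≠ 0) → 0 < F (e ![x, y, 0]) := by
    intro x y hxy
    rcases (hpos (e ![x, y, 0])).eq_or_lt with h0 | h0
    · exfalso
      rw [he'] at h0
      obtain ⟨s, hs, r, hr⟩ := hzero x y _ hxy h0.symm
      have h2 := hmv ((-m1 * x - m2 * y) / m0) x y
      have h3 : (-m1 * x - m2 * y) / m0 * m0 + x * m1 + y * m2 = 0 := by
        field_simp
        ring
      rw [h3, hr, map_smul, smul_eq_mul] at h2
      have h4 := (mul_eq_zero.1 h2).resolve_right (hm ⟨s, hs⟩)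
      rw [h4, zero_smul] at hr
      have k1 := congrFun hr 1
      have k2 := congrFun hr 2
      simp at k1 k2
      rcases hxy with h | h
      · exact h k1
      · exact h k2
    · exact h0
  apply KL.of_comp hpos e
  rcases KL_line' (F := fun v => F (e v)) (hform.comp e.toLinearMap) (fun v => hpos _) hl with
    h | ⟨p, hp, hFp⟩
  · exact h
  · apply KL_of_sq_eq hp hFp (hnd.comp e)
    refine ⟨e.symm ![1, 0, 0], ?_, by simpa using hz⟩
    simp

lemma KL_core3 {F : V → ℝ} {c1 c3 d3 d4 e1 e2 e3 e4 e5 : ℝ} (hform : IsForm 4 F)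
    (hpos : ∀ v, 0 ≤ F v) (hnd : Nondeg F) (hc1 : 0 < c1)
    (hF : ∀ x y z : ℝ, F ![x, y, z] =
      x ^ 2 * (c1 * y ^ 2 + c3 * z ^ 2) + x * (d3 * (y * z ^ 2) + d4 * z ^ 3) +
      (e1 * y ^ 4 + e2 * (y ^ 3 * z) + e3 * (y ^ 2 * z ^ 2) + e4 * (y * z ^ 3) + e5 * z ^ 4)) :
    KL F := by
  have hdisc := disc_ineq (F := F) (c1 := c1) (c2 := 0) (c3 := c3) (d1 := 0) (d2 := 0) (d3 := d3)
    (d4 := d4) (e1 := e1) (e2 := e2) (e3 := e3) (e4 := e4) (e5 := e5)
    (fun x y z => by rw [hF]; ring) hpos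
  have hc3 : 0 ≤ c3 := by simpa using (hdisc 0 1).1
  have hF1 : F ![1, 0, 0] = 0 := by rw [hF]; ring
  have hd4 : c3 = 0 → d4 = 0 := by
    intro h
    have := (hdisc 0 1).2.2
    rw [h] at this
    have h2 : d4 ^ 2 ≤ 0 := by simpa using this
    exact pow_eq_zero_iff two_ne_zero |>.1 (le_antisymm h2 (sq_nonneg _))
  by_cases hD : 4 * c1 * e1 = 0 ∧ 4 * c1 * e2 = 0 ∧ 4 * (c1 * e3 + c3 * e1) = 0 ∧
    4 * (c1 * e4 + c3 * e2) = 0 ∧ 4 * (c1 * e5 + c3 * e3) - d3 ^ 2 = 0 ∧
    4 * c3 * e4 - 2 * (d3 * d4) = 0 ∧ 4 * c3 * e5 - d4 ^ 2 = 0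
  · obtain ⟨p0, p1, p2, p3, p4, p5, p6⟩ := hD
    have h4 : (4 * c1) ≠ 0 := by positivity
    have he1 : e1 = 0 := (mul_eq_zero.1 p0).resolve_left h4
    have he2 : e2 = 0 := (mul_eq_zero.1 p1).resolve_left h4
    subst he1 he2
    have he3 : e3 = 0 := by
      have : 4 * c1 * e3 = 0 := by linarith
      exact (mul_eq_zero.1 this).resolve_left h4
    have he4 : e4 = 0 := by
      have : 4 * c1 * e4 = 0 := by linarith
      exact (mul_eq_zero.1 this).resolve_left h4
    subst he3 he4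
    have hdd : d3 * d4 = 0 := by linarith
    rcases hc3.eq_or_lt with h3 | h3
    · have h3' := h3.symm
      subst h3'
      have hd4' := hd4 rfl
      subst hd4'
      obtain ⟨s, hs, rfl⟩ : ∃ s : ℝ, 0 < s ∧ c1 = s ^ 2 :=
        ⟨Real.sqrt c1, Real.sqrt_pos.2 hc1, (Real.sq_sqrt hc1.le).symm⟩
      apply KL_of_sq_eq (isForm2_mk 0 0 (d3 / (2 * s)) s 0 0) _ hnd ⟨_, e1_ne, hF1⟩
      intro v
      conv_lhs => rw [vec_eta v]
      rw [hF]
      have he5 : e5 = d3 ^ 2 / (4 * s ^ 2) := by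
        field_simp
        linarith
      rw [he5]
      field_simp
      ring
    · have hd3 : d3 = 0 := by
        by_contra hne
        have h5 : d4 = 0 := (mul_eq_zero.1 hdd).resolve_left hne
        subst h5
        have h6 : 4 * c3 * e5 = 0 := by linarith
        have h7 : e5 = 0 := (mul_eq_zero.1 h6).resolve_left (by positivity)
        subst h7
        apply hne
        have : d3 ^ 2 = 0 := by linarith
        exact pow_eq_zero_iff two_ne_zero |>.1 this
      subst hd3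
      have h5 : 4 * c1 * e5 = 0 := by linarith
      have h6 : e5 = 0 := (mul_eq_zero.1 h5).resolve_left h4
      subst h6
      have h7 : d4 = 0 := by
        have : d4 ^ 2 = 0 := by linarith
        exact pow_eq_zero_iff two_ne_zero |>.1 this
      subst h7
      apply KL_m2h (isForm2_mk 0 c1 c3 0 0 0)
      · intro v
        have : 0 ≤ c1 * v 1 ^ 2 + c3 * v 2 ^ 2 := by positivity
        simpa using this
      · intro v
        conv_lhs => rw [vec_eta v]
        rw [hF]
        ring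
  · by_cases hα : c3 = 0 ∧ e5 = 0
    · obtain ⟨h3, h5⟩ := hα
      have h4 := hd4 h3
      subst h3 h5 h4
      apply KL.of_comp hpos (swapE 0 1)
      apply KL_plane (hform.comp (swapE 0 1).toLinearMap) (fun v => hpos _)
      intro y z
      show F (swapE 0 1 ![0, y, z]) = 0
      rw [swapE_01, hF]
      ring
    · -- finitely many zeros
      set P : Polynomial ℝ := Polynomial.C (4 * c1 * e1) + Polynomial.C (4 * c1 * e2) * Polynomial.X +
        Polynomial.C (4 * (c1 * e3 + c3 * e1)) * Polynomial.X ^ 2 +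
        Polynomial.C (4 * (c1 * e4 + c3 * e2)) * Polynomial.X ^ 3 +
        Polynomial.C (4 * (c1 * e5 + c3 * e3) - d3 ^ 2) * Polynomial.X ^ 4 +
        Polynomial.C (4 * c3 * e4 - 2 * (d3 * d4)) * Polynomial.X ^ 5 +
        Polynomial.C (4 * c3 * e5 - d4 ^ 2) * Polynomial.X ^ 6 with hP
      have hPev : ∀ t, P.eval t = 4 * c1 * e1 + 4 * c1 * e2 * t + 4 * (c1 * e3 + c3 * e1) * t ^ 2 +
          4 * (c1 * e4 + c3 * e2) * t ^ 3 + (4 * (c1 * e5 + c3 * e3) - d3 ^ 2) * t ^ 4 +
          (4 * c3 * e4 - 2 * (d3 * d4)) * t ^ 5 + (4 * c3 * e5 - d4 ^ 2) * t ^ 6 := by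
        intro t
        simp [hP]
      have hP0 : P ≠ 0 := by
        intro h0
        apply hD
        apply sextic_zero (fun s t => ?_)
        by_cases hs : s = 0
        · subst hs
          have h6 : P.coeff 6 = 0 := by rw [h0]; simp
          have h7 : P.coeff 6 = 4 * c3 * e5 - d4 ^ 2 := by
            rw [hP]
            simp only [Polynomial.coeff_add, Polynomial.coeff_C_mul, Polynomial.coeff_X_pow,
              Polynomial.coeff_X, Polynomial.coeff_C]
            norm_num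
          rw [h7] at h6
          rw [h6]; ring
        · have h1 := hPev (t / s)
          rw [h0] at h1
          simp only [Polynomial.eval_zero] at h1
          have h2 := congrArg (fun r => s ^ 6 * r) h1
          simp only [mul_zero] at h2
          rw [h2]
          field_simp
      set pt : ℝ → V := fun t => ![-(d3 * t ^ 2 + d4 * t ^ 3) / (2 * (c1 + c3 * t ^ 2)), 1, t]
        with hpt
      classical
      set S : Finset V := insert ![1, 0, 0] (insert ![-d4 / (2 * c3), 0, 1]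
        (P.roots.toFinset.image pt)) with hS
      apply KL_finite hform hpos hnd S _ (by simp [hS]) hF1
      · intro y z x hyz h0
        have key : 4 * (c1 * y ^ 2 + c3 * z ^ 2) * F ![x, y, z] =
            (2 * x * (c1 * y ^ 2 + c3 * z ^ 2) + (d3 * (y * z ^ 2) + d4 * z ^ 3)) ^ 2 +
            (4 * (c1 * y ^ 2 + c3 * z ^ 2) * (e1 * y ^ 4 + e2 * (y ^ 3 * z) + e3 * (y ^ 2 * z ^ 2) +
              e4 * (y * z ^ 3) + e5 * z ^ 4) - (d3 * (y * z ^ 2) + d4 * z ^ 3) ^ 2) := by
          rw [hF]; ring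
        have hDnn := (hdisc y z).2.2
        have k1 : (2 * x * (c1 * y ^ 2 + c3 * z ^ 2) + (d3 * (y * z ^ 2) + d4 * z ^ 3)) ^ 2 = 0 := by
          apply le_antisymm _ (sq_nonneg _)
          rw [h0, mul_zero] at key
          nlinarith
        have k2 : 4 * (c1 * y ^ 2 + c3 * z ^ 2) * (e1 * y ^ 4 + e2 * (y ^ 3 * z) +
            e3 * (y ^ 2 * z ^ 2) + e4 * (y * z ^ 3) + e5 * z ^ 4) -
            (d3 * (y * z ^ 2) + d4 * z ^ 3) ^ 2 = 0 := by
          rw [h0, mul_zero, k1, zero_add] at key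
          exact key.symm
        have k1' := pow_eq_zero_iff two_ne_zero |>.1 k1
        by_cases hy : y = 0
        · subst hy
          have hz : z ≠ 0 := by simpa using hyz
          rcases hc3.eq_or_lt with h3 | h3
          · exfalso
            have h4 := hd4 h3.symm
            rw [hF, ← h3, h4] at h0
            have h5 : e5 * z ^ 4 = 0 := by linarith
            have h6 := (mul_eq_zero.1 h5).resolve_right (pow_ne_zero _ hz)
            exact hα ⟨h3.symm, h6⟩
          · refine ⟨![-d4 / (2 * c3), 0, 1], by simp [hS], z, ?_⟩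
            have hx : x = z * (-d4 / (2 * c3)) := by
              have h5 : z ^ 2 * (2 * x * c3 + d4 * z) = 0 := by linarith
              have h6 := (mul_eq_zero.1 h5).resolve_left (pow_ne_zero _ hz)
              field_simp
              linarith
            rw [hx]
            ext k; fin_cases k <;> simp
        · refine ⟨pt (z / y), ?_, y, ?_⟩
          · rw [hS]
            apply Finset.mem_insert_of_mem
            apply Finset.mem_insert_of_mem
            apply Finset.mem_image_of_mem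
            rw [Multiset.mem_toFinset, Polynomial.mem_roots hP0, Polynomial.IsRoot.def, hPev]
            have h5 : y ^ 6 * (4 * c1 * e1 + 4 * c1 * e2 * (z / y) +
              4 * (c1 * e3 + c3 * e1) * (z / y) ^ 2 +
              4 * (c1 * e4 + c3 * e2) * (z / y) ^ 3 +
              (4 * (c1 * e5 + c3 * e3) - d3 ^ 2) * (z / y) ^ 4 +
              (4 * c3 * e4 - 2 * (d3 * d4)) * (z / y) ^ 5 +
              (4 * c3 * e5 - d4 ^ 2) * (z / y) ^ 6) = 0 := by
              rw [← k2]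
              field_simp
              ring
            exact (mul_eq_zero.1 h5).resolve_left (pow_ne_zero _ hy)
          · have hpos2 : 0 < c1 * y ^ 2 + c3 * z ^ 2 := by positivity
            have hx : x = y * (-(d3 * (z / y) ^ 2 + d4 * (z / y) ^ 3) /
                (2 * (c1 + c3 * (z / y) ^ 2))) := by
              have e1 : -(d3 * (z / y) ^ 2 + d4 * (z / y) ^ 3) / (2 * (c1 + c3 * (z / y) ^ 2)) =
                  -(d3 * (y * z ^ 2) + d4 * z ^ 3) / (2 * y * (c1 * y ^ 2 + c3 * z ^ 2)) := by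
                rw [div_eq_div_iff (by positivity) (mul_ne_zero (mul_ne_zero two_ne_zero hy)
                  hpos2.ne')]
                field_simp
              rw [e1]
              field_simp
              linarith
            rw [hpt]
            ext k
            fin_cases k
            · simpa using hx
            · simp
            · simp only [Fin.reduceFinMk, Matrix.cons_val, Pi.smul_apply, smul_eq_mul]
              field_simp
      · intro s hs
        rw [hS, Finset.mem_insert, Finset.mem_insert, Finset.mem_image] at hs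
        rcases hs with h | h | ⟨t, -, h⟩
        · rw [h]; exact e1_ne
        · rw [h]; intro h0; have := congrFun h0 2; simp at this
        · rw [← h, hpt]; intro h0; have := congrFun h0 1; simp at this

lemma KL_core2 {F : V → ℝ} {c1 c3 d1 d2 d3 d4 e1 e2 e3 e4 e5 : ℝ} (hform : IsForm 4 F)
    (hpos : ∀ v, 0 ≤ F v) (hnd : Nondeg F) (hc1 : 0 < c1)
    (hF : ∀ x y z : ℝ, F ![x, y, z] =
      x ^ 2 * (c1 * y ^ 2 + c3 * z ^ 2) +
      x * (d1 * y ^ 3 + d2 * (y ^ 2 * z) + d3 * (y * z ^ 2) + d4 * z ^ 3) +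
      (e1 * y ^ 4 + e2 * (y ^ 3 * z) + e3 * (y ^ 2 * z ^ 2) + e4 * (y * z ^ 3) + e5 * z ^ 4)) :
    KL F := by
  obtain ⟨l1, rfl⟩ : ∃ l1, d1 = 2 * l1 * c1 := ⟨d1 / (2 * c1), by field_simp⟩
  obtain ⟨l2, rfl⟩ : ∃ l2, d2 = 2 * l2 * c1 := ⟨d2 / (2 * c1), by field_simp⟩
  obtain ⟨E, hE⟩ := upper_equiv 1 (-l1) (-l2) 1 0 1 one_ne_zero one_ne_zero one_ne_zero
  apply KL.of_comp hpos E
  apply KL_core3 (F := fun v => F (E v)) (c1 := c1) (c3 := c3) (d3 := d3 - 2 * l1 * c3)
    (d4 := d4 - 2 * l2 * c3) (e1 := e1 - l1 * (2 * l1 * c1) + l1 ^ 2 * c1)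
    (e2 := e2 - (l1 * (2 * l2 * c1) + l2 * (2 * l1 * c1)) + 2 * l1 * l2 * c1)
    (e3 := e3 - (l1 * d3 + l2 * (2 * l2 * c1)) + (l2 ^ 2 * c1 + l1 ^ 2 * c3))
    (e4 := e4 - (l1 * d4 + l2 * d3) + 2 * l1 * l2 * c3)
    (e5 := e5 - l2 * d4 + l2 ^ 2 * c3) (hform.comp E.toLinearMap) (fun v => hpos _)
    (hnd.comp E) hc1
  intro x y z
  rw [hE, hF]
  ring

lemma KL_core1 {F : V → ℝ} {c1 c2 c3 d1 d2 d3 d4 e1 e2 e3 e4 e5 : ℝ} (hform : IsForm 4 F)
    (hpos : ∀ v, 0 ≤ F v) (hnd : Nondeg F) (hc1 : 0 < c1)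
    (hF : ∀ x y z : ℝ, F ![x, y, z] =
      x ^ 2 * (c1 * y ^ 2 + c2 * (y * z) + c3 * z ^ 2) +
      x * (d1 * y ^ 3 + d2 * (y ^ 2 * z) + d3 * (y * z ^ 2) + d4 * z ^ 3) +
      (e1 * y ^ 4 + e2 * (y ^ 3 * z) + e3 * (y ^ 2 * z ^ 2) + e4 * (y * z ^ 3) + e5 * z ^ 4)) :
    KL F := by
  obtain ⟨κ, rfl⟩ : ∃ κ, c2 = 2 * c1 * κ := ⟨c2 / (2 * c1), by field_simp⟩
  obtain ⟨E, hE⟩ := upper_equiv 1 0 0 1 (-κ) 1 one_ne_zero one_ne_zero one_ne_zero
  apply KL.of_comp hpos E
  apply KL_core2 (F := fun v => F (E v)) (c1 := c1) (c3 := c1 * κ ^ 2 - 2 * c1 * κ * κ + c3)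
    (d1 := d1) (d2 := d2 - 3 * κ * d1) (d3 := d3 - 2 * κ * d2 + 3 * κ ^ 2 * d1)
    (d4 := d4 - κ * d3 + κ ^ 2 * d2 - κ ^ 3 * d1) (e1 := e1) (e2 := e2 - 4 * κ * e1)
    (e3 := e3 - 3 * κ * e2 + 6 * κ ^ 2 * e1)
    (e4 := e4 - 2 * κ * e3 + 3 * κ ^ 2 * e2 - 4 * κ ^ 3 * e1)
    (e5 := e5 - κ * e4 + κ ^ 2 * e3 - κ ^ 3 * e2 + κ ^ 4 * e1) (hform.comp E.toLinearMap)
    (fun v => hpos _) (hnd.comp E) hc1
  intro x y z
  rw [hE, hF]
  ring

/-- **Key theorem**: for a nonnegative ternary quartic `F` depending on all variables, each cubic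
form `g` with `g² ≤ C |v|² F` is a sum of products of linear forms and quadratic forms whose
squares are dominated by `F`. -/
theorem key {F : V → ℝ} (hform : IsForm 4 F) (hpos : ∀ v, 0 ≤ F v) (hnd : Nondeg F) : KL F := by
  by_cases hp : ∀ v, v ≠ 0 → 0 < F v
  · exact KL_pos hform hp hpos
  push Not at hp
  obtain ⟨v, hv, hle⟩ := hp
  have hFv : F v = 0 := le_antisymm hle (hpos v)
  obtain ⟨e, he⟩ := exists_equiv1 hv
  apply KL.of_comp hpos e
  have hform1 : IsForm 4 (fun v => F (e v)) := hform.comp e.toLinearMap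
  have hpos1 : ∀ v, 0 ≤ (fun v => F (e v)) v := fun v => hpos _
  have hnd1 : Nondeg (fun v => F (e v)) := hnd.comp e
  obtain ⟨c1, c2, c3, d1, d2, d3, d4, e1, e2, e3, e4, e5, hF⟩ := nf_zero hform1 hpos1
    (by show F (e ![1, 0, 0]) = 0; rw [he, hFv])
  obtain ⟨hc1, hc3, hdisc⟩ := bin_psd (fun y z => (disc_ineq hF hpos1 y z).1)
  rcases hc1.eq_or_lt with h1 | h1
  · rcases hc3.eq_or_lt with h3 | h3
    · exfalso
      subst h1 h3
      have h2 : c2 = 0 := by
        have : c2 ^ 2 ≤ 0 := by linarith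
        exact pow_eq_zero_iff (two_ne_zero) |>.1 (le_antisymm this (sq_nonneg _))
      subst h2
      have hf3 : ∀ y z : ℝ, d1 * y ^ 3 + d2 * (y ^ 2 * z) + d3 * (y * z ^ 2) + d4 * z ^ 3 = 0 := by
        intro y z
        have h := (disc_ineq hF hpos1 y z).2.2
        have h' : (d1 * y ^ 3 + d2 * (y ^ 2 * z) + d3 * (y * z ^ 2) + d4 * z ^ 3) ^ 2 ≤ 0 := by
          refine h.trans (le_of_eq ?_); ring
        exact pow_eq_zero_iff (two_ne_zero) |>.1 (le_antisymm h' (sq_nonneg _))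
      obtain ⟨w, s, hws⟩ := hnd1 ![1, 0, 0] e1_ne
      apply hws
      have h4 : w + s • ![1, 0, 0] = ![w 0 + s, w 1, w 2] := by
        ext k; fin_cases k <;> simp
      show F (e (w + s • ![1, 0, 0])) = F (e w)
      rw [h4, hF]
      conv_rhs => rw [vec_eta w]
      rw [hF, hf3]
      ring
    · apply KL.of_comp (F := fun v => F (e v)) hpos1 (swapE 1 2)
      apply KL_core1 (F := fun v => F (e (swapE 1 2 v))) (c1 := c3) (c2 := c2) (c3 := c1)
        (d1 := d4) (d2 := d3) (d3 := d2) (d4 := d1) (e1 := e5) (e2 := e4) (e3 := e3) (e4 := e2)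
        (e5 := e1) (hform1.comp (swapE 1 2).toLinearMap) (fun v => hpos _)
        (hnd1.comp (swapE 1 2)) h3
      intro x y z
      rw [swapE_12]
      have := hF x z y
      rw [this]; ring
  · exact KL_core1 hform1 hpos1 hnd1 h1 hF

end Pool.Agent.H42.Q4
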