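import Pool.Agent.H42.Q4.Basic

/-!
Every nonzero nonnegative ternary quartic form dominates the square of a nonzero quadratic form
(Choi and Lam's approach to Hilbert's theorem).
-/

namespace Pool.Agent.H42.Q4

open Filter Topology

/-- `F` dominates the square of a nonzero quadratic form -/
def GoodSq (F : V → ℝ) : Prop :=
  ∃ q : V → ℝ, IsForm 2 q ∧ (∃ v, q v ≠ 0) ∧ ∀ v, (q v) ^ 2 ≤ F v

lemma GoodSq.of_comp {F : V → ℝ} (e : V ≃ₗ[ℝ] V) (h : GoodSq (fun v => F (e v))) : GoodSq F := by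
  obtain ⟨q, hq, ⟨v, hv⟩, h⟩ := h
  refine ⟨fun v => q (e.symm v), hq.comp e.symm.toLinearMap, ⟨e v, by simpa using hv⟩, fun v => ?_⟩
  simpa using h (e.symm v)

lemma vec_eta (v : V) : v = ![v 0, v 1, v 2] := by
  ext i; fin_cases i <;> rfl

/-- permutation of coordinates -/
noncomputable def swapE (i j : Fin 3) : V ≃ₗ[ℝ] V := LinearEquiv.funCongrLeft ℝ ℝ (Equiv.swap i j)

lemma swapE_apply (i j : Fin 3) (v : V) (k : Fin 3) : swapE i j v k = v (Equiv.swap i j k) := rfl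

lemma swapE_12 (x y z : ℝ) : swapE 1 2 ![x, y, z] = ![x, z, y] := by
  ext k; rw [swapE_apply]; fin_cases k <;> rfl

lemma swapE_01 (x y z : ℝ) : swapE 0 1 ![x, y, z] = ![y, x, z] := by
  ext k; rw [swapE_apply]; fin_cases k <;> rfl

lemma swapE_02 (x y z : ℝ) : swapE 0 2 ![x, y, z] = ![z, y, x] := by
  ext k; rw [swapE_apply]; fin_cases k <;> rfl

lemma mk_good {F : V → ℝ} (a b c d e f : ℝ)
    (hne : ∃ x y z : ℝ, a * x ^ 2 + b * y ^ 2 + c * z ^ 2 + d * (x * y) + e * (x * z) +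
      f * (y * z) ≠ 0)
    (h : ∀ x y z : ℝ, (a * x ^ 2 + b * y ^ 2 + c * z ^ 2 + d * (x * y) + e * (x * z) +
      f * (y * z)) ^ 2 ≤ F ![x, y, z]) : GoodSq F := by
  obtain ⟨x, y, z, hxyz⟩ := hne
  refine ⟨_, isForm2_mk a b c d e f, ⟨![x, y, z], by simpa using hxyz⟩, fun v => ?_⟩
  have := h (v 0) (v 1) (v 2)
  rwa [← vec_eta] at this

/-- normal form at a zero -/
lemma nf_zero {F : V → ℝ} (hF : IsForm 4 F) (hpos : ∀ v, 0 ≤ F v) (h0 : F ![1, 0, 0] = 0) :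
    ∃ c1 c2 c3 d1 d2 d3 d4 e1 e2 e3 e4 e5 : ℝ, ∀ x y z : ℝ, F ![x, y, z] =
      x ^ 2 * (c1 * y ^ 2 + c2 * (y * z) + c3 * z ^ 2) +
      x * (d1 * y ^ 3 + d2 * (y ^ 2 * z) + d3 * (y * z ^ 2) + d4 * z ^ 3) +
      (e1 * y ^ 4 + e2 * (y ^ 3 * z) + e3 * (y ^ 2 * z ^ 2) + e4 * (y * z ^ 3) + e5 * z ^ 4) := by
  obtain ⟨a, b1, b2, c1, c2, c3, d1, d2, d3, d4, e1, e2, e3, e4, e5, h⟩ := hF.nf4
  have h' : ∀ x y z : ℝ, F ![x, y, z] = a * x ^ 4 + x ^ 3 * (b1 * y + b2 * z) +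
      x ^ 2 * (c1 * y ^ 2 + c2 * (y * z) + c3 * z ^ 2) +
      x * (d1 * y ^ 3 + d2 * (y ^ 2 * z) + d3 * (y * z ^ 2) + d4 * z ^ 3) +
      (e1 * y ^ 4 + e2 * (y ^ 3 * z) + e3 * (y ^ 2 * z ^ 2) + e4 * (y * z ^ 3) + e5 * z ^ 4) := by
    intro x y z
    rw [h]; simp
  have ha : a = 0 := by
    rw [h'] at h0; simpa using h0
  subst ha
  have hb1 : b1 = 0 := cubic_nonneg (p := b1) (q := c1) (r := d1) (s := e1) fun x => by
    have := hpos ![x, 1, 0]
    rw [h'] at this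
    nlinarith
  have hb2 : b2 = 0 := cubic_nonneg (p := b2) (q := c3) (r := d4) (s := e5) fun x => by
    have := hpos ![x, 0, 1]
    rw [h'] at this
    nlinarith
  subst hb1 hb2
  exact ⟨c1, c2, c3, d1, d2, d3, d4, e1, e2, e3, e4, e5, fun x y z => by rw [h']; ring⟩

lemma aux1 {s w : ℝ} (hs : s ≠ 0) (hw : w ≠ 0) (N : ℝ) :
    s * (-N / (2 * s ^ 2 * w) * w) + N / (2 * s) = 0 := by
  field_simp
  ring

section normal

variable {F : V → ℝ} {c1 c2 c3 d1 d2 d3 d4 e1 e2 e3 e4 e5 : ℝ}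

lemma disc_ineq (hF : ∀ x y z : ℝ, F ![x, y, z] =
      x ^ 2 * (c1 * y ^ 2 + c2 * (y * z) + c3 * z ^ 2) +
      x * (d1 * y ^ 3 + d2 * (y ^ 2 * z) + d3 * (y * z ^ 2) + d4 * z ^ 3) +
      (e1 * y ^ 4 + e2 * (y ^ 3 * z) + e3 * (y ^ 2 * z ^ 2) + e4 * (y * z ^ 3) + e5 * z ^ 4))
    (hpos : ∀ v, 0 ≤ F v) (y z : ℝ) :
    0 ≤ c1 * y ^ 2 + c2 * (y * z) + c3 * z ^ 2 ∧
    0 ≤ e1 * y ^ 4 + e2 * (y ^ 3 * z) + e3 * (y ^ 2 * z ^ 2) + e4 * (y * z ^ 3) + e5 * z ^ 4 ∧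
    (d1 * y ^ 3 + d2 * (y ^ 2 * z) + d3 * (y * z ^ 2) + d4 * z ^ 3) ^ 2 ≤
      4 * (c1 * y ^ 2 + c2 * (y * z) + c3 * z ^ 2) *
      (e1 * y ^ 4 + e2 * (y ^ 3 * z) + e3 * (y ^ 2 * z ^ 2) + e4 * (y * z ^ 3) + e5 * z ^ 4) := by
  apply quad_nonneg
  intro x
  have := hpos ![x, y, z]
  rw [hF] at this
  linarith

lemma r1a (hF : ∀ x y z : ℝ, F ![x, y, z] =
      x ^ 2 * (c1 * y ^ 2 + c2 * (y * z) + c3 * z ^ 2) +
      x * (d1 * y ^ 3 + d2 * (y ^ 2 * z) + d3 * (y * z ^ 2) + d4 * z ^ 3) +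
      (e1 * y ^ 4 + e2 * (y ^ 3 * z) + e3 * (y ^ 2 * z ^ 2) + e4 * (y * z ^ 3) + e5 * z ^ 4))
    (hpos : ∀ v, 0 ≤ F v) (hc1 : 0 < c1) (hdisc : c2 ^ 2 = 4 * c1 * c3) : GoodSq F := by
  obtain ⟨s, hs, rfl⟩ : ∃ s : ℝ, 0 < s ∧ c1 = s ^ 2 :=
    ⟨Real.sqrt c1, Real.sqrt_pos.2 hc1, (Real.sq_sqrt hc1.le).symm⟩
  obtain ⟨κ, rfl⟩ : ∃ κ, c2 = 2 * s ^ 2 * κ := ⟨c2 / (2 * s ^ 2), by field_simp⟩
  obtain rfl : c3 = s ^ 2 * κ ^ 2 := by
    have : 4 * s ^ 2 * (c3 - s ^ 2 * κ ^ 2) = 0 := by linarith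
    have h2 : c3 - s ^ 2 * κ ^ 2 = 0 := by
      rcases mul_eq_zero.1 this with h | h
      · exfalso; nlinarith
      · exact h
    linarith
  obtain rfl : d4 = d1 * κ ^ 3 - d2 * κ ^ 2 + d3 * κ := by
    have h := (disc_ineq hF hpos (-κ) 1).2.2
    have h1 : s ^ 2 * (-κ) ^ 2 + 2 * s ^ 2 * κ * (-κ * 1) + s ^ 2 * κ ^ 2 * 1 ^ 2 = 0 := by ring
    rw [h1] at h
    have h2 : (d1 * (-κ) ^ 3 + d2 * ((-κ) ^ 2 * 1) + d3 * (-κ * 1 ^ 2) + d4 * 1 ^ 3) ^ 2 ≤ 0 := by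
      linarith
    have h3 := pow_eq_zero_iff (two_ne_zero) |>.1 (le_antisymm h2 (sq_nonneg _))
    linarith
  set g2 := d2 - κ * d1 with hg2
  set g3 := d3 - κ * g2 with hg3
  set G : ℝ → ℝ → ℝ := fun y z => (e1 * y ^ 4 + e2 * (y ^ 3 * z) + e3 * (y ^ 2 * z ^ 2) +
    e4 * (y * z ^ 3) + e5 * z ^ 4) - (d1 * y ^ 2 + g2 * (y * z) + g3 * z ^ 2) ^ 2 / (4 * s ^ 2)
    with hG
  have key : ∀ x y z : ℝ, F ![x, y, z] = (s * (x * (y + κ * z)) +
      (d1 * y ^ 2 + g2 * (y * z) + g3 * z ^ 2) / (2 * s)) ^ 2 + G y z := by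
    intro x y z
    rw [hF, hG, hg3, hg2]
    field_simp
    ring
  have hGpos : ∀ y z : ℝ, 0 ≤ G y z := by
    have h1 : ∀ y z : ℝ, y + κ * z ≠ 0 → 0 ≤ G y z := by
      intro y z hyz
      have h2 := hpos ![-(d1 * y ^ 2 + g2 * (y * z) + g3 * z ^ 2) / (2 * s ^ 2 * (y + κ * z)), y, z]
      rw [key] at h2
      have h3 : s * (-(d1 * y ^ 2 + g2 * (y * z) + g3 * z ^ 2) / (2 * s ^ 2 * (y + κ * z)) *
          (y + κ * z)) + (d1 * y ^ 2 + g2 * (y * z) + g3 * z ^ 2) / (2 * s) = 0 :=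
        aux1 hs.ne' hyz _
      rw [h3] at h2
      simpa using h2
    intro y z
    by_cases hyz : y + κ * z = 0
    · have h2 := nonneg_of_ne (fun ε => G (y + ε) z) (by rw [hG]; fun_prop) (fun ε hε => by
        apply h1
        intro h3
        apply hε
        linarith)
      simpa using h2
    · exact h1 y z hyz
  apply mk_good (F := F) 0 (d1 / (2 * s)) (g3 / (2 * s)) s (s * κ) (g2 / (2 * s))
  · by_cases h : d1 / (2 * s) = 0
    · exact ⟨1, 1, 0, by rw [h]; simpa using hs.ne'⟩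
    · exact ⟨0, 1, 0, by simpa using h⟩
  · intro x y z
    rw [key]
    have h1 : 0 * x ^ 2 + d1 / (2 * s) * y ^ 2 + g3 / (2 * s) * z ^ 2 + s * (x * y) +
        s * κ * (x * z) + g2 / (2 * s) * (y * z) = s * (x * (y + κ * z)) +
      (d1 * y ^ 2 + g2 * (y * z) + g3 * z ^ 2) / (2 * s) := by
      field_simp
      ring
    rw [h1]
    linarith [hGpos y z]

lemma r1b (hF : ∀ x y z : ℝ, F ![x, y, z] =
      x ^ 2 * (c1 * y ^ 2 + c2 * (y * z) + c3 * z ^ 2) +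
      x * (d1 * y ^ 3 + d2 * (y ^ 2 * z) + d3 * (y * z ^ 2) + d4 * z ^ 3) +
      (e1 * y ^ 4 + e2 * (y ^ 3 * z) + e3 * (y ^ 2 * z ^ 2) + e4 * (y * z ^ 3) + e5 * z ^ 4))
    (hpos : ∀ v, 0 ≤ F v) (hc3 : 0 < c3) (hdisc : c2 ^ 2 = 4 * c1 * c3) : GoodSq F := by
  apply GoodSq.of_comp (swapE 1 2)
  apply r1a (F := fun v => F (swapE 1 2 v)) (c1 := c3) (c2 := c2) (c3 := c1) (d1 := d4) (d2 := d3)
    (d3 := d2) (d4 := d1) (e1 := e5) (e2 := e4) (e3 := e3) (e4 := e2) (e5 := e1)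
  · intro x y z
    show F (swapE 1 2 ![x, y, z]) = _
    rw [swapE_12, hF]; ring
  · intro v; exact hpos _
  · exact hc3
  · linarith

end normal

/-- binary quartic forms -/
lemma binary_good {F : V → ℝ} (hform : IsForm 4 F) (hpos : ∀ v, 0 ≤ F v) (hne : ∃ v, F v ≠ 0)
    {e1 e2 e3 e4 e5 : ℝ} (hF : ∀ x y z : ℝ, F ![x, y, z] =
      e1 * y ^ 4 + e2 * (y ^ 3 * z) + e3 * (y ^ 2 * z ^ 2) + e4 * (y * z ^ 3) + e5 * z ^ 4) :
    GoodSq F := by
  set f : ℝ × ℝ → ℝ := fun p => e1 * p.1 ^ 4 + e2 * (p.1 ^ 3 * p.2) + e3 * (p.1 ^ 2 * p.2 ^ 2) +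
    e4 * (p.1 * p.2 ^ 3) + e5 * p.2 ^ 4 with hf
  have hFf : ∀ x y z : ℝ, F ![x, y, z] = f (y, z) := hF
  by_cases hp : ∀ p : ℝ × ℝ, p ≠ 0 → 0 < f p
  · obtain ⟨C, hC, hCb⟩ := hom_bound 4 f (fun p => p.1 ^ 4) (by rw [hf]; fun_prop) (by fun_prop)
      (by intro s v; simp only [hf, Prod.smul_fst, Prod.smul_snd, smul_eq_mul]; ring)
      (by intro s v; simp only [Prod.smul_fst, smul_eq_mul]; ring) (by simp) hp (by simp [hf])
    apply mk_good (F := F) 0 (1 / Real.sqrt C) 0 0 0 0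
    · exact ⟨0, 1, 0, by simpa using (Real.sqrt_pos.2 hC).ne'⟩
    · intro x y z
      rw [hFf]
      have h1 := hCb (y, z)
      have h2 : (0 * x ^ 2 + 1 / Real.sqrt C * y ^ 2 + 0 * z ^ 2 + 0 * (x * y) + 0 * (x * z) +
          0 * (y * z)) ^ 2 = y ^ 4 / C := by
        have : (0 * x ^ 2 + 1 / Real.sqrt C * y ^ 2 + 0 * z ^ 2 + 0 * (x * y) + 0 * (x * z) +
          0 * (y * z)) ^ 2 = y ^ 4 / (Real.sqrt C) ^ 2 := by ring
        rw [this, Real.sq_sqrt hC.le]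
      rw [h2, div_le_iff₀ hC]
      simpa [mul_comm] using h1
  · push Not at hp
    obtain ⟨⟨y0, z0⟩, hp0, hple⟩ := hp
    have hf0 : f (y0, z0) = 0 := le_antisymm hple (by rw [← hFf 0 y0 z0]; exact hpos _)
    have hyz : y0 ^ 2 + z0 ^ 2 ≠ 0 := by
      intro h
      apply hp0
      have h1 : y0 = 0 := by nlinarith [sq_nonneg y0, sq_nonneg z0]
      have h2 : z0 = 0 := by nlinarith [sq_nonneg y0, sq_nonneg z0]
      rw [h1, h2]; rfl
    have hli : LinearIndependent ℝ ![![0, y0, z0], ![0, -z0, y0], (![1, 0, 0] : V)] := by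
      apply li_triple
      intro r s t h
      have h0 := congrFun h 0
      have h1 := congrFun h 1
      have h2 := congrFun h 2
      simp at h0 h1 h2
      have hr : r * (y0 ^ 2 + z0 ^ 2) = 0 := by linear_combination y0 * h1 + z0 * h2
      have hs : s * (y0 ^ 2 + z0 ^ 2) = 0 := by linear_combination -z0 * h1 + y0 * h2
      exact ⟨(mul_eq_zero.1 hr).resolve_right hyz, (mul_eq_zero.1 hs).resolve_right hyz, h0⟩
    obtain ⟨e, he⟩ := exists_equiv3 hli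
    have he' : ∀ x y z : ℝ, e ![x, y, z] = ![z, x * y0 - y * z0, x * z0 + y * y0] := by
      intro x y z
      rw [he]
      ext k
      fin_cases k <;> simp <;> ring
    apply GoodSq.of_comp e
    have hform' : IsForm 4 (fun v => F (e v)) := hform.comp e.toLinearMap
    obtain ⟨c1, c2, c3, d1, d2, d3, d4, e1', e2', e3', e4', e5', hF'⟩ :=
      nf_zero hform' (fun v => hpos _) (by
        show F (e ![1, 0, 0]) = 0
        rw [he', hFf]
        simpa using hf0)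
    have hindep : ∀ x y z : ℝ, F (e ![x, y, z]) = F (e ![x, y, 0]) := by
      intro x y z
      rw [he', he', hFf, hFf]
    have hF2 : ∀ x y z : ℝ, F (e ![x, y, z]) = y ^ 2 * (c1 * x ^ 2 + d1 * (x * y) + e1' * y ^ 2) := by
      intro x y z
      rw [hindep, hF']
      ring
    have hq : ∀ x : ℝ, 0 ≤ c1 * x ^ 2 + d1 * x + e1' := by
      intro x
      have := hpos (e ![x, 1, 0])
      rw [hF2] at this
      linarith
    obtain ⟨hc1, he1, hd⟩ := quad_nonneg hq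
    rcases hc1.eq_or_lt with hc | hc
    · subst hc
      have hd1 : d1 = 0 := by
        have : d1 ^ 2 ≤ 0 := by linarith
        exact pow_eq_zero_iff (two_ne_zero) |>.1 (le_antisymm this (sq_nonneg _))
      subst hd1
      have he1' : 0 < e1' := by
        rcases he1.eq_or_lt with h | h
        · exfalso
          obtain ⟨v, hv⟩ := hne
          apply hv
          have h1 := hF2 (e.symm v 0) (e.symm v 1) (e.symm v 2)
          rw [← vec_eta] at h1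
          rw [LinearEquiv.apply_symm_apply] at h1
          rw [h1, ← h]; ring
        · exact h
      apply mk_good (F := fun v => F (e v)) 0 (Real.sqrt e1') 0 0 0 0
      · exact ⟨0, 1, 0, by simpa using (Real.sqrt_pos.2 he1').ne'⟩
      · intro x y z
        show _ ≤ F (e ![x, y, z])
        rw [hF2]
        have : (0 * x ^ 2 + Real.sqrt e1' * y ^ 2 + 0 * z ^ 2 + 0 * (x * y) + 0 * (x * z) +
          0 * (y * z)) ^ 2 = (Real.sqrt e1') ^ 2 * y ^ 4 := by ring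
        rw [this, Real.sq_sqrt he1]
        apply le_of_eq; ring
    · obtain ⟨s, hs, rfl⟩ : ∃ s : ℝ, 0 < s ∧ c1 = s ^ 2 :=
        ⟨Real.sqrt c1, Real.sqrt_pos.2 hc, (Real.sq_sqrt hc.le).symm⟩
      apply mk_good (F := fun v => F (e v)) 0 (d1 / (2 * s)) 0 s 0 0
      · by_cases h : d1 / (2 * s) = 0
        · exact ⟨1, 1, 0, by rw [h]; simpa using hs.ne'⟩
        · exact ⟨0, 1, 0, by simpa using h⟩
      · intro x y z
        show _ ≤ F (e ![x, y, z])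
        rw [hF2]
        have h1 : y ^ 2 * (s ^ 2 * x ^ 2 + d1 * (x * y) + e1' * y ^ 2) =
          (0 * x ^ 2 + d1 / (2 * s) * y ^ 2 + 0 * z ^ 2 + s * (x * y) + 0 * (x * z) +
          0 * (y * z)) ^ 2 + (4 * s ^ 2 * e1' - d1 ^ 2) / (4 * s ^ 2) * y ^ 4 := by
          field_simp
          ring
        rw [h1]
        have h2 : 0 ≤ (4 * s ^ 2 * e1' - d1 ^ 2) / (4 * s ^ 2) * y ^ 4 := by
          apply mul_nonneg (div_nonneg (by linarith) (by positivity)) (by positivity)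
        linarith

section normal2

variable {F : V → ℝ} {c1 c2 c3 d1 d2 d3 d4 e1 e2 e3 e4 e5 : ℝ}

/-- zero with Hessian of rank at most one -/
lemma r1 (hform : IsForm 4 F) (hne : ∃ v, F v ≠ 0) (hF : ∀ x y z : ℝ, F ![x, y, z] =
      x ^ 2 * (c1 * y ^ 2 + c2 * (y * z) + c3 * z ^ 2) +
      x * (d1 * y ^ 3 + d2 * (y ^ 2 * z) + d3 * (y * z ^ 2) + d4 * z ^ 3) +
      (e1 * y ^ 4 + e2 * (y ^ 3 * z) + e3 * (y ^ 2 * z ^ 2) + e4 * (y * z ^ 3) + e5 * z ^ 4))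
    (hpos : ∀ v, 0 ≤ F v) (hdisc : c2 ^ 2 = 4 * c1 * c3) : GoodSq F := by
  have hD := disc_ineq hF hpos
  have h1 : 0 ≤ c1 := by have := (hD 1 0).1; simpa using this
  have h3 : 0 ≤ c3 := by have := (hD 0 1).1; simpa using this
  rcases h1.eq_or_lt with h1 | h1
  · rcases h3.eq_or_lt with h3 | h3
    · subst h1 h3
      have h2 : c2 = 0 := by
        have : c2 ^ 2 = 0 := by linarith
        exact pow_eq_zero_iff (two_ne_zero) |>.1 this
      subst h2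
      have hf3 : ∀ y z : ℝ, d1 * y ^ 3 + d2 * (y ^ 2 * z) + d3 * (y * z ^ 2) + d4 * z ^ 3 = 0 := by
        intro y z
        have h := (hD y z).2.2
        have h' : (d1 * y ^ 3 + d2 * (y ^ 2 * z) + d3 * (y * z ^ 2) + d4 * z ^ 3) ^ 2 ≤ 0 := by
          refine h.trans (le_of_eq ?_); ring
        exact pow_eq_zero_iff (two_ne_zero) |>.1 (le_antisymm h' (sq_nonneg _))
      apply binary_good hform hpos hne (e1 := e1) (e2 := e2) (e3 := e3) (e4 := e4) (e5 := e5)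
      intro x y z
      rw [hF, hf3]
      ring
    · exact r1b hF hpos h3 hdisc
  · exact r1a hF hpos h1 hdisc

/-- zero with nondegenerate Hessian -/
lemma r2 (hF : ∀ x y z : ℝ, F ![x, y, z] =
      x ^ 2 * (c1 * y ^ 2 + c2 * (y * z) + c3 * z ^ 2) +
      x * (d1 * y ^ 3 + d2 * (y ^ 2 * z) + d3 * (y * z ^ 2) + d4 * z ^ 3) +
      (e1 * y ^ 4 + e2 * (y ^ 3 * z) + e3 * (y ^ 2 * z ^ 2) + e4 * (y * z ^ 3) + e5 * z ^ 4))
    (hpos : ∀ v, 0 ≤ F v) (hc1 : 0 < c1) (hdisc : c2 ^ 2 < 4 * c1 * c3) :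
    GoodSq F ∨ ∃ x y z : ℝ, (y ≠ 0 ∨ z ≠ 0) ∧ F ![x, y, z] = 0 := by
  set f2 : ℝ × ℝ → ℝ := fun p => c1 * p.1 ^ 2 + c2 * (p.1 * p.2) + c3 * p.2 ^ 2 with hf2
  set f3 : ℝ × ℝ → ℝ := fun p => d1 * p.1 ^ 3 + d2 * (p.1 ^ 2 * p.2) + d3 * (p.1 * p.2 ^ 2) +
    d4 * p.2 ^ 3 with hf3
  set f4 : ℝ × ℝ → ℝ := fun p => e1 * p.1 ^ 4 + e2 * (p.1 ^ 3 * p.2) + e3 * (p.1 ^ 2 * p.2 ^ 2) +
    e4 * (p.1 * p.2 ^ 3) + e5 * p.2 ^ 4 with hf4
  have hFf : ∀ x y z : ℝ, F ![x, y, z] = x ^ 2 * f2 (y, z) + x * f3 (y, z) + f4 (y, z) := hF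
  have hf2pos : ∀ y z : ℝ, (y ≠ 0 ∨ z ≠ 0) → 0 < f2 (y, z) := fun y z h => bin_pos hc1 hdisc y z h
  have hne : ∀ p : ℝ × ℝ, p ≠ 0 → (p.1 ≠ 0 ∨ p.2 ≠ 0) := by
    intro p hp
    by_contra h
    push Not at h
    exact hp (Prod.ext h.1 h.2)
  have hDnn : ∀ y z, 0 ≤ 4 * f2 (y, z) * f4 (y, z) - f3 (y, z) ^ 2 := by
    intro y z
    have := (disc_ineq hF hpos y z).2.2
    simp only [hf2, hf3, hf4]
    linarith
  by_cases hD : ∀ p : ℝ × ℝ, p ≠ 0 → 0 < 4 * f2 p * f4 p - f3 p ^ 2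
  · left
    obtain ⟨C, hC, hCb⟩ := hom_bound 6 (fun p => 4 * f2 p * f4 p - f3 p ^ 2) (fun p => f2 p ^ 3)
      (by rw [hf2, hf3, hf4]; fun_prop) (by rw [hf2]; fun_prop)
      (by
        intro s v
        simp only [hf2, hf3, hf4, Prod.smul_fst, Prod.smul_snd, smul_eq_mul]
        ring)
      (by
        intro s v
        simp only [hf2, Prod.smul_fst, Prod.smul_snd, smul_eq_mul]
        ring) (by simp [hf2]) hD (by simp [hf2, hf3, hf4])
    obtain ⟨s, hs, hsC⟩ : ∃ s : ℝ, 0 < s ∧ 4 * C * s ^ 2 = 1 := by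
      refine ⟨Real.sqrt (1 / (4 * C)), Real.sqrt_pos.2 (by positivity), ?_⟩
      rw [Real.sq_sqrt (by positivity)]
      field_simp
    apply mk_good (F := F) 0 (s * c1) (s * c3) 0 0 (s * c2)
    · exact ⟨0, 1, 0, by simpa using ⟨hs.ne', hc1.ne'⟩⟩
    · intro x y z
      have h1 : 0 * x ^ 2 + s * c1 * y ^ 2 + s * c3 * z ^ 2 + 0 * (x * y) + 0 * (x * z) +
        s * c2 * (y * z) = s * f2 (y, z) := by
        simp only [hf2]; ring
      rw [h1]
      by_cases hyz : y ≠ 0 ∨ z ≠ 0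
      · have h2 := hf2pos y z hyz
        have h3 := hCb (y, z)
        have h4 : 4 * f2 (y, z) * (F ![x, y, z] - (s * f2 (y, z)) ^ 2) =
            (2 * x * f2 (y, z) + f3 (y, z)) ^ 2 + (4 * f2 (y, z) * f4 (y, z) - f3 (y, z) ^ 2 -
              4 * s ^ 2 * f2 (y, z) ^ 3) := by
          rw [hFf]; ring
        have h5 : 4 * s ^ 2 * f2 (y, z) ^ 3 ≤ 4 * f2 (y, z) * f4 (y, z) - f3 (y, z) ^ 2 := by
          have h6 : 4 * s ^ 2 * f2 (y, z) ^ 3 ≤
              4 * s ^ 2 * (C * (4 * f2 (y, z) * f4 (y, z) - f3 (y, z) ^ 2)) :=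
            mul_le_mul_of_nonneg_left h3 (by positivity)
          have h7 : 4 * s ^ 2 * (C * (4 * f2 (y, z) * f4 (y, z) - f3 (y, z) ^ 2)) =
              (4 * C * s ^ 2) * (4 * f2 (y, z) * f4 (y, z) - f3 (y, z) ^ 2) := by ring
          rw [h7, hsC, one_mul] at h6
          exact h6
        have h6 : 0 ≤ 4 * f2 (y, z) * (F ![x, y, z] - (s * f2 (y, z)) ^ 2) := by
          rw [h4]
          have := sq_nonneg (2 * x * f2 (y, z) + f3 (y, z))
          linarith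
        have h7 : 0 ≤ F ![x, y, z] - (s * f2 (y, z)) ^ 2 :=
          nonneg_of_mul_nonneg_right h6 (by positivity)
        linarith
      · push Not at hyz
        rw [hyz.1, hyz.2, hFf]
        simp [hf2, hf3, hf4]
  · right
    push Not at hD
    obtain ⟨⟨y, z⟩, hp, hle⟩ := hD
    have hyz := hne _ hp
    simp only at hyz
    have h2 := hf2pos y z hyz
    have h0 : 4 * f2 (y, z) * f4 (y, z) - f3 (y, z) ^ 2 = 0 := le_antisymm hle (hDnn y z)
    refine ⟨-f3 (y, z) / (2 * f2 (y, z)), y, z, hyz, ?_⟩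
    rw [hFf]
    have h3 : f4 (y, z) = f3 (y, z) ^ 2 / (4 * f2 (y, z)) := by
      field_simp
      linarith
    rw [h3]
    field_simp
    ring

/-- two zeros -/
lemma r3 (hform : IsForm 4 F) (hne0 : ∃ v, F v ≠ 0) (hF : ∀ x y z : ℝ, F ![x, y, z] =
      x ^ 2 * (c1 * y ^ 2 + c2 * (y * z) + c3 * z ^ 2) +
      x * (d1 * y ^ 3 + d2 * (y ^ 2 * z) + d3 * (y * z ^ 2) + d4 * z ^ 3) +
      (e1 * y ^ 4 + e2 * (y ^ 3 * z) + e3 * (y ^ 2 * z ^ 2) + e4 * (y * z ^ 3) + e5 * z ^ 4))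
    (hpos : ∀ v, 0 ≤ F v) (hc1 : 0 < c1) (hdisc : c2 ^ 2 < 4 * c1 * c3)
    (h2 : F ![0, 1, 0] = 0) :
    GoodSq F ∨ ∃ x y z : ℝ, z ≠ 0 ∧ F ![x, y, z] = 0 := by
  have he1 : e1 = 0 := by rw [hF] at h2; simpa using h2
  subst he1
  have hd1 : d1 = 0 := cubic_nonneg (p := d1) (q := c1) (r := 0) (s := 0) fun y => by
    have := hpos ![1, y, 0]
    rw [hF] at this
    linarith
  have he2 : e2 = 0 := cubic_nonneg (p := e2) (q := e3) (r := e4) (s := e5) fun y => by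
    have := hpos ![0, y, 1]
    rw [hF] at this
    linarith
  subst hd1 he2
  set f2 : ℝ × ℝ → ℝ := fun p => c1 * p.1 ^ 2 + c2 * (p.1 * p.2) + c3 * p.2 ^ 2 with hf2
  set g : ℝ × ℝ → ℝ := fun p => d2 * p.1 ^ 2 + d3 * (p.1 * p.2) + d4 * p.2 ^ 2 with hg
  set h : ℝ × ℝ → ℝ := fun p => e3 * p.1 ^ 2 + e4 * (p.1 * p.2) + e5 * p.2 ^ 2 with hh
  have hFf : ∀ x y z : ℝ, F ![x, y, z] = x ^ 2 * f2 (y, z) + x * (z * g (y, z)) +
      z ^ 2 * h (y, z) := by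
    intro x y z
    rw [hF]
    simp only [hf2, hg, hh]
    ring
  have hf2pos : ∀ y z : ℝ, (y ≠ 0 ∨ z ≠ 0) → 0 < f2 (y, z) := fun y z h => bin_pos hc1 hdisc y z h
  have hne : ∀ p : ℝ × ℝ, p ≠ 0 → (p.1 ≠ 0 ∨ p.2 ≠ 0) := by
    intro p hp
    by_contra h
    push Not at h
    exact hp (Prod.ext h.1 h.2)
  have hDnn : ∀ y z, 0 ≤ 4 * f2 (y, z) * h (y, z) - g (y, z) ^ 2 := by
    have h1 : ∀ y z, z ≠ 0 → 0 ≤ 4 * f2 (y, z) * h (y, z) - g (y, z) ^ 2 := by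
      intro y z hz
      obtain ⟨-, -, h3⟩ := quad_nonneg (A := f2 (y, z)) (B := z * g (y, z))
        (C := z ^ 2 * h (y, z)) (fun x => by
          have := hpos ![x, y, z]
          rw [hFf] at this
          linarith)
      have h4 : 0 ≤ z ^ 2 * (4 * f2 (y, z) * h (y, z) - g (y, z) ^ 2) := by linarith
      exact nonneg_of_mul_nonneg_right h4 (by positivity)
    intro y z
    by_cases hz : z = 0
    · subst hz
      have := nonneg_of_ne (fun ε => 4 * f2 (y, ε) * h (y, ε) - g (y, ε) ^ 2)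
        (by simp only [hf2, hg, hh]; fun_prop) (fun ε hε => h1 y ε hε)
      exact this
    · exact h1 y z hz
  by_cases hdeg : d2 ^ 2 = 4 * c1 * e3
  · left
    apply GoodSq.of_comp (swapE 0 1)
    apply r1 (F := fun v => F (swapE 0 1 v)) (c1 := c1) (c2 := d2) (c3 := e3) (d1 := 0) (d2 := c2)
      (d3 := d3) (d4 := e4) (e1 := 0) (e2 := 0) (e3 := c3) (e4 := d4) (e5 := e5)
    · exact hform.comp (swapE 0 1).toLinearMap
    · obtain ⟨v, hv⟩ := hne0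
      exact ⟨(swapE 0 1).symm v, by simpa using hv⟩
    · intro x y z
      rw [swapE_01, hF]; ring
    · intro v; exact hpos _
    · exact hdeg
  by_cases hD : ∀ p : ℝ × ℝ, p ≠ 0 → 0 < 4 * f2 p * h p - g p ^ 2
  · left
    obtain ⟨C, hC, hCb⟩ := hom_bound 4 (fun p => 4 * f2 p * h p - g p ^ 2)
      (fun p => p.2 ^ 2 * f2 p)
      (by simp only [hf2, hg, hh]; fun_prop) (by simp only [hf2]; fun_prop)
      (by
        intro s v
        simp only [hf2, hg, hh, Prod.smul_fst, Prod.smul_snd, smul_eq_mul]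
        ring)
      (by
        intro s v
        simp only [hf2, Prod.smul_fst, Prod.smul_snd, smul_eq_mul]
        ring) (by simp [hf2]) hD (by simp [hf2, hg, hh])
    obtain ⟨s, hs, hsC⟩ : ∃ s : ℝ, 0 < s ∧ 4 * C * s ^ 2 = 1 := by
      refine ⟨Real.sqrt (1 / (4 * C)), Real.sqrt_pos.2 (by positivity), ?_⟩
      rw [Real.sq_sqrt (by positivity)]
      field_simp
    apply mk_good (F := F) 0 0 s 0 0 0
    · exact ⟨0, 0, 1, by simpa using hs.ne'⟩
    · intro x y z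
      have h1 : 0 * x ^ 2 + 0 * y ^ 2 + s * z ^ 2 + 0 * (x * y) + 0 * (x * z) +
        0 * (y * z) = s * z ^ 2 := by ring
      rw [h1]
      by_cases hyz : y ≠ 0 ∨ z ≠ 0
      · have h2 := hf2pos y z hyz
        have h3 := hCb (y, z)
        simp only at h3
        have h4 : 4 * f2 (y, z) * (F ![x, y, z] - (s * z ^ 2) ^ 2) =
            (2 * x * f2 (y, z) + z * g (y, z)) ^ 2 +
            z ^ 2 * (4 * f2 (y, z) * h (y, z) - g (y, z) ^ 2 -
              4 * s ^ 2 * (z ^ 2 * f2 (y, z))) := by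
          rw [hFf]; ring
        have h5 : 4 * s ^ 2 * (z ^ 2 * f2 (y, z)) ≤ 4 * f2 (y, z) * h (y, z) - g (y, z) ^ 2 := by
          have h6 : 4 * s ^ 2 * (z ^ 2 * f2 (y, z)) ≤
              4 * s ^ 2 * (C * (4 * f2 (y, z) * h (y, z) - g (y, z) ^ 2)) :=
            mul_le_mul_of_nonneg_left h3 (by positivity)
          have h7 : 4 * s ^ 2 * (C * (4 * f2 (y, z) * h (y, z) - g (y, z) ^ 2)) =
              (4 * C * s ^ 2) * (4 * f2 (y, z) * h (y, z) - g (y, z) ^ 2) := by ring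
          rw [h7, hsC, one_mul] at h6
          exact h6
        have h6 : 0 ≤ 4 * f2 (y, z) * (F ![x, y, z] - (s * z ^ 2) ^ 2) := by
          rw [h4]
          have h8 := sq_nonneg (2 * x * f2 (y, z) + z * g (y, z))
          have h9 : 0 ≤ z ^ 2 * (4 * f2 (y, z) * h (y, z) - g (y, z) ^ 2 -
              4 * s ^ 2 * (z ^ 2 * f2 (y, z))) := mul_nonneg (by positivity) (by linarith)
          linarith
        have h7 : 0 ≤ F ![x, y, z] - (s * z ^ 2) ^ 2 :=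
          nonneg_of_mul_nonneg_right h6 (by positivity)
        linarith
      · push Not at hyz
        rw [hyz.1, hyz.2, hFf]
        simp [hf2]
  · right
    push Not at hD
    obtain ⟨⟨y, z⟩, hp, hle⟩ := hD
    have hyz := hne _ hp
    simp only at hyz
    have h2' := hf2pos y z hyz
    have h0 : 4 * f2 (y, z) * h (y, z) - g (y, z) ^ 2 = 0 := le_antisymm hle (hDnn y z)
    have hz : z ≠ 0 := by
      rintro rfl
      have hy : y ≠ 0 := by simpa using hyz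
      apply hdeg
      simp only [hf2, hg, hh] at h0
      have h3 : y ^ 4 * (4 * c1 * e3 - d2 ^ 2) = 0 := by linarith
      have := (mul_eq_zero.1 h3).resolve_left (by positivity)
      linarith
    refine ⟨-(z * g (y, z)) / (2 * f2 (y, z)), y, z, hz, ?_⟩
    rw [hFf]
    have h3 : h (y, z) = g (y, z) ^ 2 / (4 * f2 (y, z)) := by
      field_simp
      linarith
    rw [h3]
    field_simp
    ring

/-- three zeros -/
lemma r4 (hF : ∀ x y z : ℝ, F ![x, y, z] =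
      x ^ 2 * (c1 * y ^ 2 + c2 * (y * z) + c3 * z ^ 2) +
      x * (d1 * y ^ 3 + d2 * (y ^ 2 * z) + d3 * (y * z ^ 2) + d4 * z ^ 3) +
      (e1 * y ^ 4 + e2 * (y ^ 3 * z) + e3 * (y ^ 2 * z ^ 2) + e4 * (y * z ^ 3) + e5 * z ^ 4))
    (hpos : ∀ v, 0 ≤ F v) (hc1 : 0 < c1)
    (h2 : F ![0, 1, 0] = 0) (h3 : F ![0, 0, 1] = 0) :
    GoodSq F := by
  have he1 : e1 = 0 := by rw [hF] at h2; simpa using h2
  subst he1
  have he5 : e5 = 0 := by rw [hF] at h3; simpa using h3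
  subst he5
  have hd1 : d1 = 0 := cubic_nonneg (p := d1) (q := c1) (r := 0) (s := 0) fun y => by
    have := hpos ![1, y, 0]
    rw [hF] at this
    linarith
  have he2 : e2 = 0 := cubic_nonneg (p := e2) (q := e3) (r := e4) (s := 0) fun y => by
    have := hpos ![0, y, 1]
    rw [hF] at this
    linarith
  have hd4 : d4 = 0 := cubic_nonneg (p := d4) (q := c3) (r := 0) (s := 0) fun z => by
    have := hpos ![1, 0, z]
    rw [hF] at this
    linarith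
  have he4 : e4 = 0 := cubic_nonneg (p := e4) (q := e3) (r := e2) (s := 0) fun z => by
    have := hpos ![0, 1, z]
    rw [hF] at this
    linarith
  subst hd1 he2 hd4 he4
  obtain ⟨s, hs, rfl⟩ : ∃ s : ℝ, 0 < s ∧ c1 = s ^ 2 :=
    ⟨Real.sqrt c1, Real.sqrt_pos.2 hc1, (Real.sq_sqrt hc1.le).symm⟩
  set R : ℝ → ℝ → ℝ := fun Y Z => c3 * Y ^ 2 + d3 * (Y * Z) + e3 * Z ^ 2 -
    ((c2 * Y + d2 * Z) / (2 * s)) ^ 2 with hR
  have key : ∀ x y z : ℝ, F ![x, y, z] =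
      (s * (x * y) + (c2 * (x * z) + d2 * (y * z)) / (2 * s)) ^ 2 + R (x * z) (y * z) := by
    intro x y z
    rw [hF]
    simp only [hR]
    field_simp
    ring
  have hR1 : ∀ Y Z u : ℝ, 0 < u → 0 ≤ (s * (Y * Z) * u + (c2 * Y + d2 * Z) / (2 * s)) ^ 2 +
      R Y Z := by
    intro Y Z u hu
    obtain ⟨t, ht, rfl⟩ : ∃ t : ℝ, 0 < t ∧ u = t ^ 2 :=
      ⟨Real.sqrt u, Real.sqrt_pos.2 hu, (Real.sq_sqrt hu.le).symm⟩
    have := hpos ![Y * t, Z * t, 1 / t]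
    rw [key] at this
    have e1 : Y * t * (1 / t) = Y := by field_simp
    have e2 : Z * t * (1 / t) = Z := by field_simp
    rw [e1, e2] at this
    have e3 : s * (Y * t * (Z * t)) = s * (Y * Z) * t ^ 2 := by ring
    rw [e3] at this
    exact this
  have hReven : ∀ Y Z, R (-Y) (-Z) = R Y Z := by
    intro Y Z
    simp only [hR]
    ring
  have hR2 : ∀ Y Z u : ℝ, u ≠ 0 → 0 ≤ (s * (Y * Z) * u + (c2 * Y + d2 * Z) / (2 * s)) ^ 2 +
      R Y Z := by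
    intro Y Z u hu
    rcases hu.lt_or_gt with h | h
    · have := hR1 (-Y) (-Z) (-u) (by linarith)
      rw [hReven] at this
      have e : s * (-Y * -Z) * -u + (c2 * -Y + d2 * -Z) / (2 * s) =
        -(s * (Y * Z) * u + (c2 * Y + d2 * Z) / (2 * s)) := by ring
      rw [e, neg_sq] at this
      exact this
    · exact hR1 Y Z u h
  have hR3 : ∀ Y Z u : ℝ, 0 ≤ (s * (Y * Z) * u + (c2 * Y + d2 * Z) / (2 * s)) ^ 2 +
      R Y Z := by
    intro Y Z u
    by_cases hu : u = 0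
    · subst hu
      exact nonneg_of_ne (fun u => (s * (Y * Z) * u + (c2 * Y + d2 * Z) / (2 * s)) ^ 2 +
        R Y Z) (by fun_prop) (fun ε hε => hR2 Y Z ε hε)
    · exact hR2 Y Z u hu
  have hR4 : ∀ Y Z : ℝ, Y ≠ 0 → Z ≠ 0 → 0 ≤ R Y Z := by
    intro Y Z hY hZ
    have h := hR3 Y Z (-((c2 * Y + d2 * Z) / (2 * s)) / (s * (Y * Z)))
    have e : s * (Y * Z) * (-((c2 * Y + d2 * Z) / (2 * s)) / (s * (Y * Z))) +
        (c2 * Y + d2 * Z) / (2 * s) = 0 := by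
      rw [mul_div_cancel₀ _ (by positivity)]
      ring
    rw [e] at h
    simpa using h
  have hR5 : ∀ Y Z : ℝ, Z ≠ 0 → 0 ≤ R Y Z := by
    intro Y Z hZ
    by_cases hY : Y = 0
    · subst hY
      exact nonneg_of_ne (fun Y => R Y Z) (by simp only [hR]; fun_prop)
        (fun ε hε => hR4 ε Z hε hZ)
    · exact hR4 Y Z hY hZ
  have hR6 : ∀ Y Z : ℝ, 0 ≤ R Y Z := by
    intro Y Z
    by_cases hZ : Z = 0
    · subst hZ
      exact nonneg_of_ne (fun Z => R Y Z) (by simp only [hR]; fun_prop)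
        (fun ε hε => hR5 Y ε hε)
    · exact hR5 Y Z hZ
  apply mk_good (F := F) 0 0 0 s (c2 / (2 * s)) (d2 / (2 * s))
  · exact ⟨1, 1, 0, by simpa using hs.ne'⟩
  · intro x y z
    rw [key]
    have h1 : 0 * x ^ 2 + 0 * y ^ 2 + 0 * z ^ 2 + s * (x * y) + c2 / (2 * s) * (x * z) +
        d2 / (2 * s) * (y * z) = s * (x * y) + (c2 * (x * z) + d2 * (y * z)) / (2 * s) := by
      field_simp
      ring
    rw [h1]
    linarith [hR6 (x * z) (y * z)]

end normal2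

/-- Every nonzero nonnegative ternary quartic dominates the square of a nonzero quadratic form. -/
theorem goodSq {F : V → ℝ} (hform : IsForm 4 F) (hpos : ∀ v, 0 ≤ F v) (hne : ∃ v, F v ≠ 0) :
    GoodSq F := by
  by_cases hp : ∀ v, v ≠ 0 → 0 < F v
  · obtain ⟨C, hC, hCb⟩ := hom_bound 4 F (fun v => v 0 ^ 4) hform.continuous (by fun_prop)
      hform.homog (by intro s v; simp only [Pi.smul_apply, smul_eq_mul]; ring) (by simp) hp
      (hpos 0)
    apply mk_good (F := F) (1 / Real.sqrt C) 0 0 0 0 0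
    · exact ⟨1, 0, 0, by simpa using (Real.sqrt_pos.2 hC).ne'⟩
    · intro x y z
      have h1 := hCb ![x, y, z]
      have h2 : (1 / Real.sqrt C * x ^ 2 + 0 * y ^ 2 + 0 * z ^ 2 + 0 * (x * y) + 0 * (x * z) +
          0 * (y * z)) ^ 2 = x ^ 4 / C := by
        have : (1 / Real.sqrt C * x ^ 2 + 0 * y ^ 2 + 0 * z ^ 2 + 0 * (x * y) + 0 * (x * z) +
          0 * (y * z)) ^ 2 = x ^ 4 / (Real.sqrt C) ^ 2 := by ring
        rw [this, Real.sq_sqrt hC.le]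
      rw [h2, div_le_iff₀ hC]
      simpa [mul_comm] using h1
  push Not at hp
  obtain ⟨v, hv, hle⟩ := hp
  have hFv : F v = 0 := le_antisymm hle (hpos v)
  obtain ⟨e, he⟩ := exists_equiv1 hv
  apply GoodSq.of_comp e
  set F1 : V → ℝ := fun v => F (e v) with hF1
  have hform1 : IsForm 4 F1 := hform.comp e.toLinearMap
  have hpos1 : ∀ v, 0 ≤ F1 v := fun v => hpos _
  have hne1 : ∃ v, F1 v ≠ 0 := by
    obtain ⟨w, hw⟩ := hne
    exact ⟨e.symm w, by simpa [hF1] using hw⟩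
  have h1 : F1 ![1, 0, 0] = 0 := by
    show F (e ![1, 0, 0]) = 0
    rw [he, hFv]
  clear_value F1
  clear hF1 hFv hle he hform hpos hne
  obtain ⟨c1, c2, c3, d1, d2, d3, d4, e1, e2, e3, e4, e5, hF⟩ := nf_zero hform1 hpos1 h1
  obtain ⟨hc1, hc3, hdisc⟩ := bin_psd (fun y z => (disc_ineq hF hpos1 y z).1)
  rcases hdisc.eq_or_lt with hdisc | hdisc
  · exact r1 hform1 hne1 hF hpos1 hdisc
  have hc1' : 0 < c1 := by
    rcases hc1.eq_or_lt with h | h
    · rw [← h] at hdisc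
      nlinarith [sq_nonneg c2]
    · exact h
  rcases r2 hF hpos1 hc1' hdisc with h | ⟨x, y, z, hyz, hw⟩
  · exact h
  clear hF
  have hli : LinearIndependent ℝ ![(![1, 0, 0] : V), ![x, y, z]] := by
    apply li_pair
    intro s t h
    have g0 := congrFun h 0
    have g1 := congrFun h 1
    have g2 := congrFun h 2
    simp at g0 g1 g2
    have ht : t = 0 := by
      rcases hyz with h | h
      · exact g1.resolve_right h
      · exact g2.resolve_right h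
    subst ht
    simpa using g0
  obtain ⟨e, he1, he2⟩ := exists_equiv2 hli
  apply GoodSq.of_comp e
  set F2 : V → ℝ := fun v => F1 (e v) with hF2
  have hform2 : IsForm 4 F2 := hform1.comp e.toLinearMap
  have hpos2 : ∀ v, 0 ≤ F2 v := fun v => hpos1 _
  have hne2 : ∃ v, F2 v ≠ 0 := by
    obtain ⟨w, hw⟩ := hne1
    exact ⟨e.symm w, by simpa [hF2] using hw⟩
  have h1' : F2 ![1, 0, 0] = 0 := by
    show F1 (e ![1, 0, 0]) = 0
    rw [he1, h1]
  have h2' : F2 ![0, 1, 0] = 0 := by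
    show F1 (e ![0, 1, 0]) = 0
    rw [he2, hw]
  clear_value F2
  clear hF2 hw he1 he2 hform1 hpos1 hne1 h1 hli hyz
  obtain ⟨c1, c2, c3, d1, d2, d3, d4, e1, e2, e3, e4, e5, hF⟩ := nf_zero hform2 hpos2 h1'
  obtain ⟨hc1, hc3, hdisc⟩ := bin_psd (fun y z => (disc_ineq hF hpos2 y z).1)
  rcases hdisc.eq_or_lt with hdisc | hdisc
  · exact r1 hform2 hne2 hF hpos2 hdisc
  have hc1' : 0 < c1 := by
    rcases hc1.eq_or_lt with h | h
    · rw [← h] at hdisc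
      nlinarith [sq_nonneg c2]
    · exact h
  rcases r3 hform2 hne2 hF hpos2 hc1' hdisc h2' with h | ⟨x, y, z, hz, hw⟩
  · exact h
  clear hF
  have hli : LinearIndependent ℝ ![(![1, 0, 0] : V), ![0, 1, 0], ![x, y, z]] := by
    apply li_triple
    intro r s t h
    have g0 := congrFun h 0
    have g1 := congrFun h 1
    have g2 := congrFun h 2
    simp at g0 g1 g2
    have ht : t = 0 := g2.resolve_right hz
    subst ht
    exact ⟨by simpa using g0, by simpa using g1, rfl⟩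
  obtain ⟨e, he⟩ := exists_equiv3 hli
  have he1 : e ![1, 0, 0] = ![1, 0, 0] := by rw [he]; simp
  have he2 : e ![0, 1, 0] = ![0, 1, 0] := by rw [he]; simp
  have he3 : e ![0, 0, 1] = ![x, y, z] := by rw [he]; simp
  apply GoodSq.of_comp e
  set F3 : V → ℝ := fun v => F2 (e v) with hF3
  have hform3 : IsForm 4 F3 := hform2.comp e.toLinearMap
  have hpos3 : ∀ v, 0 ≤ F3 v := fun v => hpos2 _
  have hne3 : ∃ v, F3 v ≠ 0 := by
    obtain ⟨w, hw⟩ := hne2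
    exact ⟨e.symm w, by simpa [hF3] using hw⟩
  have k1 : F3 ![1, 0, 0] = 0 := by
    show F2 (e ![1, 0, 0]) = 0
    rw [he1, h1']
  have k2 : F3 ![0, 1, 0] = 0 := by
    show F2 (e ![0, 1, 0]) = 0
    rw [he2, h2']
  have k3 : F3 ![0, 0, 1] = 0 := by
    show F2 (e ![0, 0, 1]) = 0
    rw [he3, hw]
  obtain ⟨c1, c2, c3, d1, d2, d3, d4, e1, e2, e3, e4, e5, hF⟩ := nf_zero hform3 hpos3 k1
  obtain ⟨hc1, hc3, hdisc⟩ := bin_psd (fun y z => (disc_ineq hF hpos3 y z).1)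
  rcases hdisc.eq_or_lt with hdisc | hdisc
  · exact r1 hform3 hne3 hF hpos3 hdisc
  have hc1' : 0 < c1 := by
    rcases hc1.eq_or_lt with h | h
    · rw [← h] at hdisc
      nlinarith [sq_nonneg c2]
    · exact h
  exact r4 hF hpos3 hc1' k2 k3

end Pool.Agent.H42.Q4
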